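import Pool.Agent.Lib_helper67.FX.Ray

/-!
In dimension three a space without a good element has at most five rays.
-/

set_option autoImplicit false
set_option linter.unusedSectionVars false

namespace Pool.Agent.FX

open scoped BigOperators Topology
open Module Filter Pool.Agent

variable {ι : Type*} [Fintype ι]

open Classical in
/-- the slopes of the elements with `P` over the `k`-th ray -/
noncomputable def cls (σ : ι → Fin 3) (t ν : ι → ℝ) (k : Fin 3) (P : ι → Prop) : Finset ℝ :=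
  (Finset.univ.filter fun i => σ i = k ∧ 0 < t i ∧ P i).image fun i => ν i / t i

lemma mem_cls {σ : ι → Fin 3} {t ν : ι → ℝ} {k : Fin 3} {P : ι → Prop} {y : ℝ} :
    y ∈ cls σ t ν k P ↔ ∃ i, (σ i = k ∧ 0 < t i ∧ P i) ∧ ν i / t i = y := by
  simp [cls]

lemma three_zero (x : Fin 3 → ℝ) (hx : ∑ k, x k = 0) (k1 k3 : Fin 3) (h : k1 ≠ k3)
    (h1 : x k1 = 0) (h3 : x k3 = 0) (k : Fin 3) : x k = 0 := by
  rw [Fin.sum_univ_three] at hx
  fin_cases k1 <;> fin_cases k3 <;> fin_cases k <;> simp_all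

lemma three_sum (a b c : ℝ) (k1 k2 k3 : Fin 3) (h12 : k1 ≠ k2) (h13 : k1 ≠ k3) (h23 : k2 ≠ k3) :
    ∑ k, (if k = k1 then a else if k = k2 then b else c) = a + b + c := by
  rw [Fin.sum_univ_three]
  fin_cases k1 <;> fin_cases k2 <;> fin_cases k3 <;> simp_all <;> ring

lemma Tripod.side {Λ : Submodule ℝ (ι → ℝ)} {σ : ι → Fin 3} {t ν : ι → ℝ} (h : Tripod Λ σ t ν)
    (P : ι → Prop) (k1 k3 : Fin 3) (h13 : k1 ≠ k3) (h1 : 1 ≤ (cls σ t ν k1 P).card)
    (h3 : 1 ≤ (cls σ t ν k3 P).card) (z : ℕ)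
    (hz : z = 0 ∨ z ≤ 1 ∧ ∃ i, t i = 0 ∧ ν i ≠ 0 ∧ P i)
    (hc : 3 ≤ (cls σ t ν k1 P).card + (cls σ t ν k3 P).card + z) :
    ∀ μ ∈ Λ, (∀ i, P i → μ i = 0) → μ = 0 := by
  intro μ hμ h0
  obtain ⟨x, s, hx, hμx⟩ := h.sp μ hμ
  have hz0 : ∀ k, ∀ i, σ i = k → 0 < t i → P i → x k * t i + s * ν i = 0 := by
    intro k i h1 h2 h3
    rw [← h1, ← hμx i]
    exact h0 i h3
  by_cases hs : s = 0
  · have hk : ∀ k, 1 ≤ (cls σ t ν k P).card → x k = 0 := by
      intro k hk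
      obtain ⟨y, hy⟩ := Finset.card_pos.mp hk
      obtain ⟨i, ⟨h4, h5, h6⟩, _⟩ := mem_cls.mp hy
      have h7 := hz0 k i h4 h5 h6
      rw [hs, zero_mul, add_zero] at h7
      exact (mul_eq_zero.mp h7).resolve_right h5.ne'
    have h4 := three_zero x hx k1 k3 h13 (hk k1 h1) (hk k3 h3)
    funext i
    rw [hμx i, h4, hs]
    simp
  · exfalso
    have hk : ∀ k, (cls σ t ν k P).card ≤ 1 := by
      intro k
      rw [Finset.card_le_one_iff]
      have h4 : ∀ y ∈ cls σ t ν k P, y = - x k / s := by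
        intro y hy
        obtain ⟨i, ⟨h4, h5, h6⟩, h7⟩ := mem_cls.mp hy
        have h8 := hz0 k i h4 h5 h6
        rw [← h7]
        have := h5.ne'
        field_simp
        linarith
      intro a b ha hb
      rw [h4 a ha, h4 b hb]
    have h4 := hk k1
    have h5 := hk k3
    rcases hz with h6 | ⟨_, i, h7, h8, h9⟩
    · omega
    · have h10 := h0 i h9
      rw [hμx i, h7, mul_zero, zero_add] at h10
      exact (mul_ne_zero hs h8) h10

lemma Tripod.crit {Λ : Submodule ℝ (ι → ℝ)} {σ : ι → Fin 3} {t ν : ι → ℝ} (h : Tripod Λ σ t ν)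
    (k1 k2 k3 : Fin 3) (h12 : k1 ≠ k2) (h13 : k1 ≠ k3) (h23 : k2 ≠ k3) (p q zp zn : ℕ)
    (hp : 1 ≤ p) (hq : 1 ≤ q) (hzp : zp = 0 ∨ zp ≤ 1 ∧ ∃ i, t i = 0 ∧ 0 < ν i)
    (hzn : zn = 0 ∨ zn ≤ 1 ∧ ∃ i, t i = 0 ∧ ν i < 0)
    (h1 : 3 ≤ (cls σ t ν k1 fun _ => True).card + p + zp)
    (h2 : 3 ≤ (cls σ t ν k2 fun _ => True).card + q + zn)
    (h3 : p + q ≤ (cls σ t ν k3 fun _ => True).card) : Good Λ := by
  classical
  obtain ⟨θ, hθp, hθq⟩ := split _ p q hp hq h3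
  set L : ℝ := 1 + |θ| + ∑ i, |ν i / t i| with hL
  have hsum : ∀ i, |ν i / t i| ≤ ∑ i, |ν i / t i| := fun i =>
    Finset.single_le_sum (f := fun i => |ν i / t i|) (fun i _ => abs_nonneg _) (Finset.mem_univ i)
  let x : Fin 3 → ℝ := fun k => if k = k1 then L else if k = k2 then θ - L else -θ
  have hx : ∑ k, x k = 0 := by
    rw [three_sum L (θ - L) (-θ) k1 k2 k3 h12 h13 h23]
    ring
  have hx1 : x k1 = L := if_pos rfl
  have hx2 : x k2 = θ - L := by simp [x, h12.symm]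
  have hx3 : x k3 = -θ := by simp [x, h13.symm, h23.symm]
  let f : ι → ℝ := (fun i => x (σ i) * t i) + ν
  have hf : ∀ i, f i = x (σ i) * t i + ν i := fun i => rfl
  have hft : ∀ i, 0 < t i → f i = t i * (x (σ i) + ν i / t i) := by
    intro i hi
    rw [hf]
    field_simp
  have hf1 : ∀ i, σ i = k1 → 0 < t i → 0 < f i := by
    intro i h4 h5
    rw [hft i h5, h4, hx1]
    apply mul_pos h5
    have := hsum i
    have := neg_abs_le (ν i / t i)
    have := abs_nonneg θ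
    linarith
  have hf2 : ∀ i, σ i = k2 → 0 < t i → f i < 0 := by
    intro i h4 h5
    rw [hft i h5, h4, hx2]
    apply mul_neg_of_pos_of_neg h5
    have := hsum i
    have := le_abs_self (ν i / t i)
    have := le_abs_self θ
    linarith
  have hcard : ∀ k, 1 ≤ (cls σ t ν k fun _ => True).card := by
    intro k
    obtain ⟨i, h4, h5⟩ := h.ne k
    exact Finset.card_pos.mpr ⟨_, mem_cls.mpr ⟨i, ⟨h4, h5, trivial⟩, rfl⟩⟩
  have hc1 : (cls σ t ν k1 fun _ => True).card ≤ (cls σ t ν k1 fun i => 0 < f i).card := by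
    apply Finset.card_le_card
    intro y hy
    obtain ⟨i, ⟨h4, h5, _⟩, h6⟩ := mem_cls.mp hy
    exact mem_cls.mpr ⟨i, ⟨h4, h5, hf1 i h4 h5⟩, h6⟩
  have hc2 : (cls σ t ν k2 fun _ => True).card ≤ (cls σ t ν k2 fun i => f i < 0).card := by
    apply Finset.card_le_card
    intro y hy
    obtain ⟨i, ⟨h4, h5, _⟩, h6⟩ := mem_cls.mp hy
    exact mem_cls.mpr ⟨i, ⟨h4, h5, hf2 i h4 h5⟩, h6⟩
  have hc3 : p ≤ (cls σ t ν k3 fun i => 0 < f i).card := by
    refine hθp.trans (Finset.card_le_card ?_)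
    intro y hy
    obtain ⟨hy1, hy2⟩ := Finset.mem_filter.mp hy
    obtain ⟨i, ⟨h4, h5, _⟩, h6⟩ := mem_cls.mp hy1
    refine mem_cls.mpr ⟨i, ⟨h4, h5, ?_⟩, h6⟩
    rw [hft i h5, h4, hx3, h6]
    exact mul_pos h5 (by linarith)
  have hc4 : q ≤ (cls σ t ν k3 fun i => f i < 0).card := by
    refine hθq.trans (Finset.card_le_card ?_)
    intro y hy
    obtain ⟨hy1, hy2⟩ := Finset.mem_filter.mp hy
    obtain ⟨i, ⟨h4, h5, _⟩, h6⟩ := mem_cls.mp hy1
    refine mem_cls.mpr ⟨i, ⟨h4, h5, ?_⟩, h6⟩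
    rw [hft i h5, h4, hx3, h6]
    exact mul_neg_of_pos_of_neg h5 (by linarith)
  have hk1 := hcard k1
  have hk2 := hcard k2
  refine ⟨f, Λ.add_mem (h.mem x hx) h.nu, ?_, ?_⟩
  · refine h.side (fun i => 0 < f i) k1 k3 h13 (by omega) (by omega) zp ?_ (by omega)
    rcases hzp with h4 | ⟨h4, i, h5, h6⟩
    · exact Or.inl h4
    · refine Or.inr ⟨h4, i, h5, h6.ne', ?_⟩
      rw [hf, h5]
      simpa using h6
  · refine h.side (fun i => f i < 0) k2 k3 h23 (by omega) (by omega) zn ?_ (by omega)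
    rcases hzn with h4 | ⟨h4, i, h5, h6⟩
    · exact Or.inl h4
    · refine Or.inr ⟨h4, i, h5, h6.ne, ?_⟩
      rw [hf, h5]
      simpa using h6

theorem base {Λ : Submodule ℝ (ι → ℝ)} (hA : Acyc Λ) (hng : ¬ Good Λ) (h3 : finrank ℝ Λ = 3)
    {R : Finset ι} (hR : Ind Λ R) : R.card ≤ 5 := by
  classical
  obtain ⟨σ, t, ν, h⟩ := exists_tripod hA h3 fun hT => hng (caseC 3 le_rfl Λ h3 hT)
  set n : Fin 3 → ℕ := fun k => (cls σ t ν k fun _ => True).card with hn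
  set zp : ℕ := if ∃ i, t i = 0 ∧ 0 < ν i then 1 else 0 with hzp
  set zn : ℕ := if ∃ i, t i = 0 ∧ ν i < 0 then 1 else 0 with hzn
  have hzp' : zp = 0 ∨ zp ≤ 1 ∧ ∃ i, t i = 0 ∧ 0 < ν i := by
    rw [hzp]
    split_ifs with h4
    · exact Or.inr ⟨le_rfl, h4⟩
    · exact Or.inl rfl
  have hzn' : zn = 0 ∨ zn ≤ 1 ∧ ∃ i, t i = 0 ∧ ν i < 0 := by
    rw [hzn]
    split_ifs with h4
    · exact Or.inr ⟨le_rfl, h4⟩
    · exact Or.inl rfl
  have hcard : ∀ k, 1 ≤ n k := by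
    intro k
    obtain ⟨i, h4, h5⟩ := h.ne k
    exact Finset.card_pos.mpr ⟨_, mem_cls.mpr ⟨i, ⟨h4, h5, trivial⟩, rfl⟩⟩
  have hcr : ∀ k1 k2 k3 : Fin 3, k1 ≠ k2 → k1 ≠ k3 → k2 ≠ k3 →
      n k3 < max 1 (3 - n k1 - zp) + max 1 (3 - n k2 - zn) := by
    intro k1 k2 k3 h12 h13 h23
    by_contra h4
    have e1 : ∀ k, (cls σ t ν k fun _ => True).card = n k := fun k => rfl
    exact hng (h.crit k1 k2 k3 h12 h13 h23 (max 1 (3 - n k1 - zp)) (max 1 (3 - n k2 - zn)) zp zn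
      (by omega) (by omega) hzp' hzn' (by rw [e1]; omega) (by rw [e1]; omega) (by rw [e1]; omega))
  -- the count
  have hval : ∀ i k, t i = 0 → t k = 0 → ∀ μ ∈ Λ, ∃ s, μ i = s * ν i ∧ μ k = s * ν k := by
    intro i k h4 h5 μ hμ
    obtain ⟨x, s, _, hμx⟩ := h.sp μ hμ
    exact ⟨s, by rw [hμx i, h4]; ring, by rw [hμx k, h5]; ring⟩
  have hP : (R.filter fun i => t i = 0 ∧ 0 < ν i).card ≤ zp := by
    by_cases h4 : ∃ i, t i = 0 ∧ 0 < ν i
    · rw [hzp, if_pos h4, Finset.card_le_one_iff]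
      intro i k hi hk
      obtain ⟨hi1, hi2, hi3⟩ := Finset.mem_filter.mp hi
      obtain ⟨hk1, hk2, hk3⟩ := Finset.mem_filter.mp hk
      by_contra hik
      refine hR.2 i hi1 k hk1 hik ⟨ν k / ν i, div_pos hk3 hi3, fun μ hμ => ?_⟩
      obtain ⟨s, h5, h6⟩ := hval i k hi2 hk2 μ hμ
      rw [h5, h6]
      have := hi3.ne'
      field_simp
    · rw [Finset.filter_false_of_mem fun i _ h5 => h4 ⟨i, h5⟩]
      simp
  have hN : (R.filter fun i => t i = 0 ∧ ν i < 0).card ≤ zn := by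
    by_cases h4 : ∃ i, t i = 0 ∧ ν i < 0
    · rw [hzn, if_pos h4, Finset.card_le_one_iff]
      intro i k hi hk
      obtain ⟨hi1, hi2, hi3⟩ := Finset.mem_filter.mp hi
      obtain ⟨hk1, hk2, hk3⟩ := Finset.mem_filter.mp hk
      by_contra hik
      refine hR.2 i hi1 k hk1 hik ⟨ν k / ν i, div_pos_of_neg_of_neg hk3 hi3, fun μ hμ => ?_⟩
      obtain ⟨s, h5, h6⟩ := hval i k hi2 hk2 μ hμ
      rw [h5, h6]
      have := hi3.ne
      field_simp
    · rw [Finset.filter_false_of_mem fun i _ h5 => h4 ⟨i, h5⟩]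
      simp
  have hK : ∀ k, (R.filter fun i => σ i = k ∧ 0 < t i).card ≤ n k := by
    intro k
    refine Finset.card_le_card_of_injOn (fun i => ν i / t i) ?_ ?_
    · intro i hi
      obtain ⟨_, hi2, hi3⟩ := Finset.mem_filter.mp hi
      exact mem_cls.mpr ⟨i, ⟨hi2, hi3, trivial⟩, rfl⟩
    · intro i hi m hm him
      obtain ⟨hi1, hi2, hi3⟩ := Finset.mem_filter.mp hi
      obtain ⟨hm1, hm2, hm3⟩ := Finset.mem_filter.mp hm
      by_contra hne
      refine hR.2 i hi1 m hm1 hne ⟨t m / t i, div_pos hm3 hi3, fun μ hμ => ?_⟩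
      obtain ⟨x, s, _, hμx⟩ := h.sp μ hμ
      rw [hμx i, hμx m, hi2, hm2]
      have h4 := hi3.ne'
      have h5 := hm3.ne'
      simp only at him
      rw [div_eq_div_iff h4 h5] at him
      field_simp
      linear_combination (- s) * him
  have hsub : R ⊆ (R.filter fun i => t i = 0 ∧ 0 < ν i) ∪ ((R.filter fun i => t i = 0 ∧ ν i < 0) ∪
      ((R.filter fun i => σ i = 0 ∧ 0 < t i) ∪ ((R.filter fun i => σ i = 1 ∧ 0 < t i) ∪
      (R.filter fun i => σ i = 2 ∧ 0 < t i)))) := by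
    intro i hi
    simp only [Finset.mem_union, Finset.mem_filter]
    rcases (h.t0 i).eq_or_lt with h4 | h4
    · have h5 : ν i ≠ 0 := by
        intro h5
        refine hR.1 i hi fun μ hμ => ?_
        obtain ⟨s, h6, _⟩ := hval i i h4.symm h4.symm μ hμ
        rw [h6, h5, mul_zero]
      rcases lt_or_gt_of_ne h5 with h6 | h6
      · exact Or.inr (Or.inl ⟨hi, h4.symm, h6⟩)
      · exact Or.inl ⟨hi, h4.symm, h6⟩
    · have h5 : σ i = 0 ∨ σ i = 1 ∨ σ i = 2 := by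
        generalize σ i = k
        fin_cases k <;> simp
      rcases h5 with h5 | h5 | h5
      · exact Or.inr (Or.inr (Or.inl ⟨hi, h5, h4⟩))
      · exact Or.inr (Or.inr (Or.inr (Or.inl ⟨hi, h5, h4⟩)))
      · exact Or.inr (Or.inr (Or.inr (Or.inr ⟨hi, h5, h4⟩)))
  have hle := Finset.card_le_card hsub
  have u1 := Finset.card_union_le (R.filter fun i => t i = 0 ∧ 0 < ν i)
    ((R.filter fun i => t i = 0 ∧ ν i < 0) ∪
      ((R.filter fun i => σ i = 0 ∧ 0 < t i) ∪ ((R.filter fun i => σ i = 1 ∧ 0 < t i) ∪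
      (R.filter fun i => σ i = 2 ∧ 0 < t i))))
  have u2 := Finset.card_union_le (R.filter fun i => t i = 0 ∧ ν i < 0)
      ((R.filter fun i => σ i = 0 ∧ 0 < t i) ∪ ((R.filter fun i => σ i = 1 ∧ 0 < t i) ∪
      (R.filter fun i => σ i = 2 ∧ 0 < t i)))
  have u3 := Finset.card_union_le (R.filter fun i => σ i = 0 ∧ 0 < t i)
    ((R.filter fun i => σ i = 1 ∧ 0 < t i) ∪ (R.filter fun i => σ i = 2 ∧ 0 < t i))
  have u4 := Finset.card_union_le (R.filter fun i => σ i = 1 ∧ 0 < t i)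
    (R.filter fun i => σ i = 2 ∧ 0 < t i)
  have v0 := hK 0
  have v1 := hK 1
  have v2 := hK 2
  have m0 := hcard 0
  have m1 := hcard 1
  have m2 := hcard 2
  have c1 := hcr 0 1 2 (by decide) (by decide) (by decide)
  have c2 := hcr 1 0 2 (by decide) (by decide) (by decide)
  have c3 := hcr 0 2 1 (by decide) (by decide) (by decide)
  have c4 := hcr 2 0 1 (by decide) (by decide) (by decide)
  have c5 := hcr 1 2 0 (by decide) (by decide) (by decide)
  have c6 := hcr 2 1 0 (by decide) (by decide) (by decide)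
  have hz1 : zp ≤ 1 := by rcases hzp' with h4 | h4 <;> omega
  have hz2 : zn ≤ 1 := by rcases hzn' with h4 | h4 <;> omega
  by_contra h5
  generalize n 0 = a at *
  generalize n 1 = b at *
  generalize n 2 = c at *
  omega

end Pool.Agent.FX
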