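import Mathlib

/-!
Spaces of dependencies: sections, good elements, parallel coordinates.
-/

set_option autoImplicit false
set_option linter.unusedSectionVars false

namespace Pool.Agent.FX

open scoped BigOperators Topology
open Module Filter

variable {ι : Type*} [Fintype ι]

/-- the elements of `Λ` which vanish on `Z` -/
def van (Λ : Submodule ℝ (ι → ℝ)) (Z : Set ι) : Submodule ℝ (ι → ℝ) where
  carrier := {μ | μ ∈ Λ ∧ ∀ i ∈ Z, μ i = 0}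
  add_mem' := by
    rintro a b ⟨ha, ha'⟩ ⟨hb, hb'⟩
    exact ⟨Λ.add_mem ha hb, fun i hi => by simp [ha' i hi, hb' i hi]⟩
  zero_mem' := ⟨Λ.zero_mem, fun _ _ => rfl⟩
  smul_mem' := by
    rintro c a ⟨ha, ha'⟩
    exact ⟨Λ.smul_mem c ha, fun i hi => by simp [ha' i hi]⟩

lemma mem_van {Λ : Submodule ℝ (ι → ℝ)} {Z : Set ι} {μ : ι → ℝ} :
    μ ∈ van Λ Z ↔ μ ∈ Λ ∧ ∀ i ∈ Z, μ i = 0 := Iff.rfl

lemma van_le (Λ : Submodule ℝ (ι → ℝ)) (Z : Set ι) : van Λ Z ≤ Λ := fun _ h => h.1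

lemma van_van (Λ : Submodule ℝ (ι → ℝ)) (Z Z' : Set ι) : van (van Λ Z) Z' = van Λ (Z ∪ Z') := by
  ext μ
  simp only [mem_van, Set.mem_union]
  constructor
  · rintro ⟨⟨h1, h2⟩, h3⟩
    exact ⟨h1, fun i hi => hi.elim (h2 i) (h3 i)⟩
  · rintro ⟨h1, h2⟩
    exact ⟨⟨h1, fun i hi => h2 i (Or.inl hi)⟩, fun i hi => h2 i (Or.inr hi)⟩

/-- `l` is in `Λ` and both its sides determine the elements of `Λ` -/
def GoodAt (Λ : Submodule ℝ (ι → ℝ)) (l : ι → ℝ) : Prop :=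
  l ∈ Λ ∧ (∀ μ ∈ Λ, (∀ i, 0 < l i → μ i = 0) → μ = 0) ∧
    ∀ μ ∈ Λ, (∀ i, l i < 0 → μ i = 0) → μ = 0

/-- some element of `Λ` is good -/
def Good (Λ : Submodule ℝ (ι → ℝ)) : Prop := ∃ l, GoodAt Λ l

/-- all elements of `Λ` vanish at `i` -/
def Loop (Λ : Submodule ℝ (ι → ℝ)) (i : ι) : Prop := ∀ μ ∈ Λ, μ i = 0

/-- the elements of `Λ` which vanish at `a` vanish at `i` -/
def Par (Λ : Submodule ℝ (ι → ℝ)) (a i : ι) : Prop := ∀ μ ∈ Λ, μ a = 0 → μ i = 0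

/-- no element of `Λ` except `0` is nonnegative -/
def Acyc (Λ : Submodule ℝ (ι → ℝ)) : Prop := ∀ μ ∈ Λ, (∀ i, 0 ≤ μ i) → μ = 0

lemma Acyc.mono {Λ Λ' : Submodule ℝ (ι → ℝ)} (h : Acyc Λ) (hl : Λ' ≤ Λ) : Acyc Λ' :=
  fun μ hμ => h μ (hl hμ)

lemma exists_one {Λ : Submodule ℝ (ι → ℝ)} {a : ι} (h : ¬ Loop Λ a) : ∃ μ ∈ Λ, μ a = 1 := by
  unfold Loop at h
  push Not at h
  obtain ⟨μ, hμ, ha⟩ := h
  exact ⟨(μ a)⁻¹ • μ, Λ.smul_mem _ hμ, by simp [ha]⟩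

lemma par_coeff {Λ : Submodule ℝ (ι → ℝ)} {a i : ι} {μ₀ : ι → ℝ} (hμ₀ : μ₀ ∈ Λ)
    (h1 : μ₀ a = 1) (h : Par Λ a i) {μ : ι → ℝ} (hμ : μ ∈ Λ) : μ i = μ₀ i * μ a := by
  have h2 := h (μ - μ a • μ₀) (Λ.sub_mem hμ (Λ.smul_mem _ hμ₀)) (by simp [h1])
  simp only [Pi.sub_apply, Pi.smul_apply, smul_eq_mul] at h2
  linarith

lemma par_symm {Λ : Submodule ℝ (ι → ℝ)} {a i : ι} (hi : ¬ Loop Λ i) (ha : ¬ Loop Λ a)
    (h : Par Λ a i) : Par Λ i a := by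
  obtain ⟨μ₀, hμ₀, h1⟩ := exists_one ha
  intro μ hμ hi0
  have h2 := par_coeff hμ₀ h1 h hμ
  rw [hi0] at h2
  have h3 : μ₀ i ≠ 0 := by
    intro h4
    exact hi fun ν hν => by rw [par_coeff hμ₀ h1 h hν, h4, zero_mul]
  exact (mul_eq_zero.mp h2.symm).resolve_left h3

lemma par_trans {Λ : Submodule ℝ (ι → ℝ)} {a b i : ι} (h : Par Λ a b) (h' : Par Λ b i) :
    Par Λ a i := fun μ hμ h0 => h' μ hμ (h μ hμ h0)

/-- a small multiple of `m` does not change the strict signs of `l` -/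
lemma perturb (l m : ι → ℝ) : ∃ ε : ℝ, 0 < ε ∧ ∀ i, (0 < l i → 0 < l i + ε * m i) ∧
    (l i < 0 → l i + ε * m i < 0) := by
  have h : ∀ᶠ ε in nhdsWithin (0:ℝ) (Set.Ioi 0), ∀ i, (0 < l i → 0 < l i + ε * m i) ∧
      (l i < 0 → l i + ε * m i < 0) := by
    rw [eventually_all]
    intro i
    have ht : Tendsto (fun ε : ℝ => l i + ε * m i) (nhdsWithin (0:ℝ) (Set.Ioi 0))
        (nhds (l i + 0 * m i)) := by
      apply Tendsto.mono_left _ nhdsWithin_le_nhds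
      exact Continuous.tendsto (by fun_prop) 0
    rw [zero_mul, add_zero] at ht
    rcases lt_trichotomy (l i) 0 with h0 | h0 | h0
    · filter_upwards [ht.eventually_lt_const h0] with ε hε
      exact ⟨fun h => absurd h (not_lt.mpr h0.le), fun _ => hε⟩
    · exact Eventually.of_forall fun ε => ⟨fun h => absurd h (by rw [h0]; exact lt_irrefl 0),
        fun h => absurd h (by rw [h0]; exact lt_irrefl 0)⟩
    · filter_upwards [ht.eventually_const_lt h0] with ε hε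
      exact ⟨fun _ => hε, fun h => absurd h (not_lt.mpr h0.le)⟩
  obtain ⟨ε, h1, h2⟩ := (h.and self_mem_nhdsWithin).exists
  exact ⟨ε, h2, h1⟩

lemma GoodAt.perturb {Λ : Submodule ℝ (ι → ℝ)} {l : ι → ℝ} (h : GoodAt Λ l) {l' : ι → ℝ}
    (hl : l' ∈ Λ) (hp : ∀ i, 0 < l i → 0 < l' i) (hn : ∀ i, l i < 0 → l' i < 0) : GoodAt Λ l' :=
  ⟨hl, fun μ hμ h0 => h.2.1 μ hμ fun i hi => h0 i (hp i hi),
    fun μ hμ h0 => h.2.2 μ hμ fun i hi => h0 i (hn i hi)⟩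

/-- a good element which vanishes only at the loops -/
lemma exists_max {Λ : Submodule ℝ (ι → ℝ)} (h : Good Λ) :
    ∃ l, GoodAt Λ l ∧ ∀ i, ¬ Loop Λ i → l i ≠ 0 := by
  classical
  let N : (ι → ℝ) → ℕ := fun l => (Finset.univ.filter fun i => l i ≠ 0).card
  have hb : ∃ n, (∃ l, GoodAt Λ l ∧ N l = n) ∧ ∀ m, (∃ l, GoodAt Λ l ∧ N l = m) → m ≤ n := by
    have hne : ({n | ∃ l, GoodAt Λ l ∧ N l = n} : Set ℕ).Nonempty := by
      obtain ⟨l, hl⟩ := h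
      exact ⟨N l, l, hl, rfl⟩
    have hbd : BddAbove ({n | ∃ l, GoodAt Λ l ∧ N l = n} : Set ℕ) := by
      refine ⟨Fintype.card ι, ?_⟩
      rintro _ ⟨l, _, rfl⟩
      exact Finset.card_le_univ _
    exact ⟨_, Nat.sSup_mem hne hbd, fun m hm => le_csSup hbd hm⟩
  obtain ⟨n, ⟨l, hl, hn⟩, hmax⟩ := hb
  refine ⟨l, hl, fun i hi h0 => ?_⟩
  obtain ⟨μ, hμ, hμi⟩ := exists_one hi
  obtain ⟨ε, hε, hs⟩ := Pool.Agent.FX.perturb l μ
  have hl' : GoodAt Λ (l + ε • μ) := hl.perturb (Λ.add_mem hl.1 (Λ.smul_mem _ hμ))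
    (fun i hi => by simpa using (hs i).1 hi) (fun i hi => by simpa using (hs i).2 hi)
  have h1 := hmax _ ⟨_, hl', rfl⟩
  rw [← hn] at h1
  have h2 : N l < N (l + ε • μ) := by
    apply Finset.card_lt_card
    rw [Finset.ssubset_iff_of_subset]
    · refine ⟨i, ?_, ?_⟩
      · simp [h0, hμi, hε.ne']
      · simp [h0]
    · intro k hk
      simp only [Finset.mem_filter, Finset.mem_univ, true_and, Pi.add_apply, Pi.smul_apply,
        smul_eq_mul] at hk ⊢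
      rcases lt_or_gt_of_ne hk with h3 | h3
      · exact ((hs k).2 h3).ne
      · exact ((hs k).1 h3).ne'
  omega

/-- lifting a good element of a section -/
lemma lift {Λ : Submodule ℝ (ι → ℝ)} {a : ι} (ha : ¬ Loop Λ a) (hg : Good (van Λ {a}))
    (hng : ¬ Good Λ) :
    (∃ ν ∈ Λ, ∃ ν' ∈ Λ, ν a ≠ 0 ∧ ν' a ≠ 0 ∧ ∀ i, ¬ Par Λ a i → ν i * ν' i = 0) ∧
    ∀ μ₀ ∈ Λ, μ₀ a = 1 → ∀ i, Par Λ a i → 0 ≤ μ₀ i := by
  obtain ⟨l, hl, hmax⟩ := exists_max hg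
  have hla : l a = 0 := hl.1.2 a rfl
  have key : ∀ μ₀ ∈ Λ, μ₀ a = 1 →
      (∃ ν ∈ Λ, ν a ≠ 0 ∧ (∀ i, l i < 0 → ν i = 0) ∧ ∀ i, l i = 0 → μ₀ i < 0 → ν i = 0) ∧
      ∃ ν ∈ Λ, ν a ≠ 0 ∧ (∀ i, 0 < l i → ν i = 0) := by
    intro μ₀ hμ₀ h1
    constructor
    · obtain ⟨ε, hε, hs⟩ := Pool.Agent.FX.perturb l μ₀
      have hmem : l + ε • μ₀ ∈ Λ := Λ.add_mem hl.1.1 (Λ.smul_mem _ hμ₀)
      by_contra hno
      push Not at hno
      apply hng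
      refine ⟨l + ε • μ₀, hmem, fun μ hμ h0 => ?_, fun μ hμ h0 => ?_⟩
      · have h2 : μ a = 0 := h0 a (by simp [hla, h1, hε])
        exact hl.2.1 μ ⟨hμ, fun i hi => by rw [hi]; exact h2⟩ fun i hi =>
          h0 i (by simpa using (hs i).1 hi)
      · by_cases h2 : μ a = 0
        · exact hl.2.2 μ ⟨hμ, fun i hi => by rw [hi]; exact h2⟩ fun i hi =>
            h0 i (by simpa using (hs i).2 hi)
        · exfalso
          obtain ⟨i, hi1, hi2, hi3⟩ := hno μ hμ h2 fun i hi => h0 i (by simpa using (hs i).2 hi)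
          apply hi3
          apply h0
          simp only [Pi.add_apply, hi1, Pi.smul_apply, smul_eq_mul, zero_add]
          exact mul_neg_of_pos_of_neg hε hi2
    · obtain ⟨ε, hε, hs⟩ := Pool.Agent.FX.perturb l (-μ₀)
      have hmem : l + ε • (-μ₀) ∈ Λ := Λ.add_mem hl.1.1 (Λ.smul_mem _ (Λ.neg_mem hμ₀))
      by_contra hno
      push Not at hno
      apply hng
      refine ⟨l + ε • (-μ₀), hmem, fun μ hμ h0 => ?_, fun μ hμ h0 => ?_⟩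
      · by_cases h2 : μ a = 0
        · exact hl.2.1 μ ⟨hμ, fun i hi => by rw [hi]; exact h2⟩ fun i hi =>
            h0 i (by simpa using (hs i).1 hi)
        · exfalso
          obtain ⟨i, hi1, hi2⟩ := hno μ hμ h2
          apply hi2
          exact h0 i (by simpa using (hs i).1 hi1)
      · have h2 : μ a = 0 := h0 a (by simp [hla, h1, hε])
        exact hl.2.2 μ ⟨hμ, fun i hi => by rw [hi]; exact h2⟩ fun i hi =>
          h0 i (by simpa using (hs i).2 hi)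
  have hpar : ∀ i, Par Λ a i ↔ Loop (van Λ {a}) i := by
    intro i
    constructor
    · intro h μ hμ
      exact h μ hμ.1 (hμ.2 a rfl)
    · intro h μ hμ h0
      exact h μ ⟨hμ, fun k hk => by rw [hk]; exact h0⟩
  obtain ⟨μ₁, hμ₁, h11⟩ := exists_one ha
  refine ⟨?_, ?_⟩
  · obtain ⟨⟨ν, hν, hνa, hν1, _⟩, ν', hν', hνa', hν1'⟩ := key μ₁ hμ₁ h11
    refine ⟨ν, hν, ν', hν', hνa, hνa', fun i hi => ?_⟩
    have h2 := hmax i (fun h => hi ((hpar i).mpr h))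
    rcases lt_or_gt_of_ne h2 with h3 | h3
    · rw [hν1 i h3, zero_mul]
    · rw [hν1' i h3, mul_zero]
  · intro μ₀ hμ₀ h1 i hi
    by_contra hneg
    push Not at hneg
    obtain ⟨⟨ν, hν, hνa, _, hν2⟩, _⟩ := key μ₀ hμ₀ h1
    have h2 := hν2 i ((hpar i).mp hi l hl.1) hneg
    have h3 := par_coeff hμ₀ h1 hi hν
    rw [h2] at h3
    exact hνa ((mul_eq_zero.mp h3.symm).resolve_left hneg.ne)

end Pool.Agent.FX
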