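import Pool.Agent.Lib_helper67.FX.Trans

/-!
Spaces of dependencies without a good element.
-/

set_option autoImplicit false
set_option linter.unusedSectionVars false

namespace Pool.Agent.FX

open scoped BigOperators Topology
open Module Filter Pool.Agent

variable {ι : Type*} [Fintype ι]

lemma finrank_van {Λ : Submodule ℝ (ι → ℝ)} {a : ι} (ha : ¬ Loop Λ a) :
    finrank ℝ (van Λ {a}) + 1 = finrank ℝ Λ := by
  let f : Λ →ₗ[ℝ] ℝ := (LinearMap.proj a : (ι → ℝ) →ₗ[ℝ] ℝ) ∘ₗ Λ.subtype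
  have h1 : van Λ {a} = (LinearMap.ker f).map Λ.subtype := by
    ext μ
    simp only [mem_van, Submodule.mem_map, LinearMap.mem_ker, Submodule.subtype_apply]
    constructor
    · rintro ⟨h1, h2⟩
      exact ⟨⟨μ, h1⟩, h2 a rfl, rfl⟩
    · rintro ⟨y, hy, rfl⟩
      refine ⟨y.2, fun i hi => ?_⟩
      rw [hi]
      exact hy
  have h2 : LinearMap.range f = ⊤ := by
    rw [LinearMap.range_eq_top]
    obtain ⟨μ, hμ, h3⟩ := exists_one ha
    intro x
    refine ⟨x • ⟨μ, hμ⟩, ?_⟩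
    have h4 : f ⟨μ, hμ⟩ = 1 := h3
    rw [map_smul, h4, smul_eq_mul, mul_one]
  have h3 := LinearMap.finrank_range_add_finrank_ker f
  rw [h2, finrank_top, finrank_self] at h3
  rw [h1, Submodule.finrank_map_subtype_eq]
  omega

lemma van_empty (Λ : Submodule ℝ (ι → ℝ)) : van Λ ∅ = Λ := by
  ext μ
  simp [mem_van]

lemma good_bot {Λ : Submodule ℝ (ι → ℝ)} (h : finrank ℝ Λ = 0) : Good Λ := by
  have h1 : Λ = ⊥ := Submodule.finrank_eq_zero.mp h
  subst h1
  exact ⟨0, Submodule.zero_mem _, fun μ hμ _ => (Submodule.mem_bot ℝ).mp hμ,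
    fun μ hμ _ => (Submodule.mem_bot ℝ).mp hμ⟩

lemma good_one {Λ : Submodule ℝ (ι → ℝ)} (h : finrank ℝ Λ = 1) (hA : Acyc Λ) : Good Λ := by
  obtain ⟨⟨l, hl⟩, hl0, hsp⟩ := finrank_eq_one_iff'.mp h
  have hl0' : l ≠ 0 := fun h => hl0 (Subtype.ext h)
  have hsp' : ∀ μ ∈ Λ, ∃ c : ℝ, c • l = μ := by
    intro μ hμ
    obtain ⟨c, hc⟩ := hsp ⟨μ, hμ⟩
    exact ⟨c, congrArg Subtype.val hc⟩
  have hp : ∃ i, 0 < l i := by
    by_contra hno
    push Not at hno
    apply hl0'
    have := hA (-l) (Λ.neg_mem hl) (fun i => by simpa using hno i)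
    simpa using this
  have hn : ∃ i, l i < 0 := by
    by_contra hno
    push Not at hno
    exact hl0' (hA l hl hno)
  refine ⟨l, hl, fun μ hμ h0 => ?_, fun μ hμ h0 => ?_⟩
  · obtain ⟨c, rfl⟩ := hsp' μ hμ
    obtain ⟨i, hi⟩ := hp
    have h1 := h0 i hi
    simp only [Pi.smul_apply, smul_eq_mul] at h1
    rw [(mul_eq_zero.mp h1).resolve_right hi.ne', zero_smul]
  · obtain ⟨c, rfl⟩ := hsp' μ hμ
    obtain ⟨i, hi⟩ := hn
    have h1 := h0 i hi
    simp only [Pi.smul_apply, smul_eq_mul] at h1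
    rw [(mul_eq_zero.mp h1).resolve_right hi.ne, zero_smul]

/-- if the sections are good and the space is not, there are few parallel classes -/
lemma classes {Λ : Submodule ℝ (ι → ℝ)} (hloc : ∀ a, ¬ Loop Λ a → Good (van Λ {a}))
    (hng : ¬ Good Λ) : Pos Λ ∧ ∀ R : Finset ι, (∀ a ∈ R, ¬ Loop Λ a) →
      (∀ a ∈ R, ∀ b ∈ R, a ≠ b → ¬ Par Λ a b) → R.card ≤ (finrank ℝ Λ + 1).choose 2 := by
  constructor
  · intro a μ₀ hμ₀ h1 i hi
    have ha : ¬ Loop Λ a := fun h => by
      rw [h μ₀ hμ₀] at h1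
      exact zero_ne_one h1
    exact (lift ha (hloc a ha) hng).2 μ₀ hμ₀ h1 i hi
  · intro R h1 h2
    refine quad Λ R fun a ha => ?_
    obtain ⟨ν, hν, ν', hν', h3, h4, h5⟩ := (lift (h1 a ha) (hloc a (h1 a ha)) hng).1
    exact ⟨ν, hν, ν', hν', h3, h4, fun i hi hia => h5 i (h2 a ha i hi (Ne.symm hia))⟩

/-- three disjoint classes or a good element, in dimension at most `3` -/
theorem caseC (n : ℕ) (hn : n ≤ 3) : ∀ Λ : Submodule ℝ (ι → ℝ), finrank ℝ Λ = n → TF 2 Λ →
    Good Λ := by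
  induction n with
  | zero => exact fun Λ h _ => good_bot h
  | succ n ih =>
    intro Λ hΛ hT
    by_contra hng
    have hloc : ∀ a, ¬ Loop Λ a → Good (van Λ {a}) := by
      intro a ha
      have h1 := finrank_van ha
      exact ih (by omega) _ (by omega) (hT.mono (van_le _ _))
    obtain ⟨hP, hcl⟩ := classes hloc hng
    obtain ⟨R, hR⟩ := exists_rep Λ
    have h1 := hcl R hR.nl hR.np
    have hT' := hT.rst hR hP
    have h2 := hT'.card_le
    rw [finrank_rst hR, Fintype.card_coe, hΛ] at h2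
    rw [hΛ] at h1
    have h3 : n = 0 ∨ n = 1 ∨ n = 2 := by omega
    rcases h3 with rfl | rfl | rfl
    · norm_num [Nat.choose] at h1
      omega
    · norm_num [Nat.choose] at h1
      omega
    · norm_num [Nat.choose] at h1
      refine hng (Good.of_rst hR (hT'.good ?_))
      rw [finrank_rst hR, Fintype.card_coe, hΛ]
      omega

/-- spaces whose two dimensional sections are all not good -/
theorem caseA (n : ℕ) (hn : 2 ≤ n) : ∀ Λ : Submodule ℝ (ι → ℝ), finrank ℝ Λ = n → Acyc Λ →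
    (∀ Z, finrank ℝ (van Λ Z) = 2 → ¬ Good (van Λ Z)) →
    Pos Λ ∧ ∀ R : Finset ι, (∀ a ∈ R, ¬ Loop Λ a) →
      (∀ a ∈ R, ∀ b ∈ R, a ≠ b → ¬ Par Λ a b) → R.card ≤ n + 1 := by
  classical
  induction n, hn using Nat.le_induction with
  | base =>
    intro Λ hΛ hA hno
    have hng : ¬ Good Λ := by
      have := hno ∅ (by rw [van_empty]; exact hΛ)
      rwa [van_empty] at this
    have hloc : ∀ a, ¬ Loop Λ a → Good (van Λ {a}) := by
      intro a ha
      have h1 := finrank_van ha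
      exact good_one (by omega) (hA.mono (van_le _ _))
    obtain ⟨hP, hcl⟩ := classes hloc hng
    refine ⟨hP, fun R h1 h2 => ?_⟩
    have h3 := hcl R h1 h2
    rw [hΛ] at h3
    norm_num [Nat.choose] at h3
    omega
  | succ n hn ih =>
    intro Λ hΛ hA hno
    have hsec : ∀ a, ¬ Loop Λ a → Pos (van Λ {a}) ∧ ∀ R : Finset ι,
        (∀ b ∈ R, ¬ Loop (van Λ {a}) b) →
        (∀ b ∈ R, ∀ c ∈ R, b ≠ c → ¬ Par (van Λ {a}) b c) → R.card ≤ n + 1 := by
      intro a ha
      have h1 := finrank_van ha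
      refine ih _ (by omega) (hA.mono (van_le _ _)) fun Z => ?_
      rw [van_van]
      exact hno _
    have hnp : ∀ {a b : ι}, ¬ Par Λ a b → ∃ ν ∈ Λ, ν a = 0 ∧ ν b = 1 := by
      intro a b h
      unfold Par at h
      push Not at h
      obtain ⟨ν, hν, h1, h2⟩ := h
      exact ⟨(ν b)⁻¹ • ν, Λ.smul_mem _ hν, by simp [h1], by simp [h2]⟩
    have hP : Pos Λ := by
      intro a μ₀ hμ₀ h1 i hi
      have ha : ¬ Loop Λ a := fun h => by
        rw [h μ₀ hμ₀] at h1
        exact zero_ne_one h1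
      by_contra hneg
      push Not at hneg
      have h2 : van Λ {a} ≠ ⊥ := by
        intro h
        have h3 := finrank_van ha
        rw [h, finrank_bot] at h3
        omega
      obtain ⟨ν, hν, hν0⟩ := Submodule.exists_mem_ne_zero_of_ne_bot h2
      obtain ⟨b, hb⟩ := Function.ne_iff.mp hν0
      have hbl : ¬ Loop Λ b := fun h => hb (h ν hν.1)
      have hab : ¬ Par Λ a b := fun h => hb (h ν hν.1 (hν.2 a rfl))
      have hba : ¬ Par Λ b a := fun h => hab (par_symm ha hbl h)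
      obtain ⟨ξ, hξ, hξb, hξa⟩ := hnp hba
      have h3 := (hsec b hbl).1 a ξ ⟨hξ, fun k hk => by rw [hk]; exact hξb⟩ hξa i
        (fun μ hμ h0 => hi μ hμ.1 h0)
      have h4 := par_coeff hμ₀ h1 hi hξ
      rw [hξa, mul_one] at h4
      rw [h4] at h3
      exact absurd h3 (not_le.mpr hneg)
    have h3 : ∀ a b c, ¬ Loop Λ a → ¬ Loop Λ b → ¬ Loop Λ c → ¬ Par Λ a b → ¬ Par Λ a c →
        ¬ Par Λ b c → ¬ Par (van Λ {a}) b c := by
      intro a b c ha hb hc hab hac hbc hpar
      have hba : ¬ Par Λ b a := fun h => hab (par_symm ha hb h)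
      have hca : ¬ Par Λ c a := fun h => hac (par_symm ha hc h)
      obtain ⟨νb, hνb, h1, h2⟩ := hnp hab
      obtain ⟨νa, hνa, h4, h5⟩ := hnp hba
      have hco : ∀ μ ∈ Λ, μ c = νa c * μ a + νb c * μ b := by
        intro μ hμ
        have h6 := hpar (μ - μ a • νa - μ b • νb)
          ⟨Λ.sub_mem (Λ.sub_mem hμ (Λ.smul_mem _ hνa)) (Λ.smul_mem _ hνb), fun k hk => by
            rw [hk]
            simp [h1, h5]⟩ (by simp [h2, h4])
        simp only [Pi.sub_apply, Pi.smul_apply, smul_eq_mul] at h6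
        linarith
      have hq : 0 ≤ νb c := (hsec a ha).1 b νb ⟨hνb, fun k hk => by rw [hk]; exact h1⟩ h2 c hpar
      have hp : 0 ≤ νa c := by
        refine (hsec b hb).1 a νa ⟨hνa, fun k hk => by rw [hk]; exact h4⟩ h5 c fun μ hμ h0 => ?_
        rw [hco μ hμ.1, h0, hμ.2 b rfl]
        ring
      have hq0 : νb c ≠ 0 := by
        intro h
        apply hac
        intro μ hμ h0
        rw [hco μ hμ, h0, h]
        ring
      have hp0 : νa c ≠ 0 := by
        intro h
        apply hbc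
        intro μ hμ h0
        rw [hco μ hμ, h0, h]
        ring
      obtain ⟨ξ, hξ, hξc, hξa⟩ := hnp hca
      have h7 : 0 ≤ ξ b := by
        refine (hsec c hc).1 a ξ ⟨hξ, fun k hk => by rw [hk]; exact hξc⟩ hξa b fun μ hμ h0 => ?_
        have h8 := hco μ hμ.1
        rw [hμ.2 c rfl, h0, mul_zero, zero_add] at h8
        exact (mul_eq_zero.mp h8.symm).resolve_left hq0
      have h8 := hco ξ hξ
      rw [hξc, hξa, mul_one] at h8
      have h9 : 0 < νa c := lt_of_le_of_ne hp (Ne.symm hp0)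
      have h10 : 0 ≤ νb c * ξ b := mul_nonneg hq h7
      linarith
    refine ⟨hP, fun R h1 h2 => ?_⟩
    rcases R.eq_empty_or_nonempty with rfl | ⟨a, ha⟩
    · simp
    · have h4 := (hsec a (h1 a ha)).2 (R.erase a) (fun b hb => ?_) (fun b hb c hc hbc => ?_)
      · rw [Finset.card_erase_of_mem ha] at h4
        omega
      · obtain ⟨hb1, hb2⟩ := Finset.mem_erase.mp hb
        intro h
        exact h2 a ha b hb2 (Ne.symm hb1) fun μ hμ h0 =>
          h μ ⟨hμ, fun k hk => by rw [hk]; exact h0⟩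
      · obtain ⟨hb1, hb2⟩ := Finset.mem_erase.mp hb
        obtain ⟨hc1, hc2⟩ := Finset.mem_erase.mp hc
        exact h3 a b c (h1 a ha) (h1 b hb2) (h1 c hc2) (h2 a ha b hb2 (Ne.symm hb1))
          (h2 a ha c hc2 (Ne.symm hc1)) (h2 b hb2 c hc2 hbc)

/-- if no two dimensional section is good there are `dim + 1` disjoint classes -/
theorem caseA' (Λ : Submodule ℝ (ι → ℝ)) (hn : 1 ≤ finrank ℝ Λ) (hA : Acyc Λ)
    (hno : ∀ Z, finrank ℝ (van Λ Z) = 2 → ¬ Good (van Λ Z)) : ¬ TF (finrank ℝ Λ) Λ := by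
  intro hT
  rcases Nat.lt_or_ge (finrank ℝ Λ) 2 with h | h
  · have h1 : finrank ℝ Λ = 1 := by omega
    have h2 := hT.card_le
    rw [h1] at h2
    omega
  · obtain ⟨hP, hcl⟩ := caseA _ h Λ rfl hA hno
    obtain ⟨R, hR⟩ := exists_rep Λ
    have h1 := hcl R hR.nl hR.np
    have h2 := (hT.rst hR hP).card_le
    rw [finrank_rst hR, Fintype.card_coe] at h2
    generalize finrank ℝ Λ = n at *
    rcases Nat.lt_or_ge R.card (n + 1) with h3 | h3
    · have h4 : n * R.card ≤ n * n := Nat.mul_le_mul_left n (by omega)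
      have h5 : R.card = 0 := by omega
      rw [h5] at h2
      have h6 : 0 < n * n := by positivity
      omega
    · have h4 : R.card = n + 1 := by omega
      rw [h4] at h2
      have : n * (n + 1) = n * n + n := by ring
      omega

end Pool.Agent.FX
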