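import Pool.Agent.Lib_helper67.FX.Plane

/-!
A space of dimension four without Tverberg partitions into three parts has a good element.
-/

set_option autoImplicit false
set_option linter.unusedSectionVars false

namespace Pool.Agent.FX

open scoped BigOperators Topology
open Module Filter Pool.Agent

variable {ι : Type*} [Fintype ι]

/-- a generic element with the signs of `l` -/
lemma exists_generic {κ : Type*} [Fintype κ] (Λ : Submodule ℝ (ι → ℝ))
    (F : κ → (ι → ℝ) →ₗ[ℝ] ℝ) {l : ι → ℝ} (hl : l ∈ Λ) :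
    ∃ l' ∈ Λ, (∀ k, 0 < F k l → 0 < F k l') ∧ (∀ k, F k l < 0 → F k l' < 0) ∧
      ∀ k, (∃ μ ∈ Λ, F k μ ≠ 0) → F k l' ≠ 0 := by
  classical
  let C : (ι → ℝ) → Prop := fun l' => l' ∈ Λ ∧ (∀ k, 0 < F k l → 0 < F k l') ∧
    (∀ k, F k l < 0 → F k l' < 0)
  let N : (ι → ℝ) → ℕ := fun l' => (Finset.univ.filter fun k => F k l' ≠ 0).card
  have hb : ∃ n, (∃ l', C l' ∧ N l' = n) ∧ ∀ m, (∃ l', C l' ∧ N l' = m) → m ≤ n := by
    have hne : ({n | ∃ l', C l' ∧ N l' = n} : Set ℕ).Nonempty :=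
      ⟨N l, l, ⟨hl, fun _ h => h, fun _ h => h⟩, rfl⟩
    have hbd : BddAbove ({n | ∃ l', C l' ∧ N l' = n} : Set ℕ) := by
      refine ⟨Fintype.card κ, ?_⟩
      rintro _ ⟨l', _, rfl⟩
      exact Finset.card_le_univ _
    exact ⟨_, Nat.sSup_mem hne hbd, fun m hm => le_csSup hbd hm⟩
  obtain ⟨n, ⟨l', hl', hn⟩, hmax⟩ := hb
  refine ⟨l', hl'.1, hl'.2.1, hl'.2.2, fun k hk h0 => ?_⟩
  obtain ⟨μ, hμ, hμk⟩ := hk
  obtain ⟨ε, hε, hs⟩ := perturb (fun k => F k l') (fun k => F k μ)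
  have hF : ∀ k, F k (l' + ε • μ) = F k l' + ε * F k μ := by
    intro k
    rw [map_add, map_smul, smul_eq_mul]
  have hC : C (l' + ε • μ) := ⟨Λ.add_mem hl'.1 (Λ.smul_mem _ hμ),
    fun k h => by rw [hF]; exact (hs k).1 (hl'.2.1 k h),
    fun k h => by rw [hF]; exact (hs k).2 (hl'.2.2 k h)⟩
  have h1 := hmax _ ⟨_, hC, rfl⟩
  rw [← hn] at h1
  have h2 : N l' < N (l' + ε • μ) := by
    apply Finset.card_lt_card
    rw [Finset.ssubset_iff_of_subset]
    · refine ⟨k, ?_, ?_⟩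
      · simp only [Finset.mem_filter, Finset.mem_univ, true_and]
        rw [hF, h0, zero_add]
        exact mul_ne_zero hε.ne' hμk
      · simp [h0]
    · intro m hm
      simp only [Finset.mem_filter, Finset.mem_univ, true_and] at hm ⊢
      rw [hF]
      rcases lt_or_gt_of_ne hm with h3 | h3
      · exact ((hs m).2 h3).ne
      · exact ((hs m).1 h3).ne'
  omega

/-- no loops and no parallel coordinates -/
structure Simple (Λ : Submodule ℝ (ι → ℝ)) : Prop where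
  nl : ∀ i, ¬ Loop Λ i
  np : ∀ i k, i ≠ k → ¬ Par Λ i k

lemma simple_rst {Λ : Submodule ℝ (ι → ℝ)} {R : Finset ι} (hR : Rep Λ R) :
    Simple (Λ.map (rst R)) := by
  refine ⟨fun i hi => hR.nl i i.2 fun μ hμ => ?_, fun i k hik hp => ?_⟩
  · exact hi _ ⟨μ, hμ, rfl⟩
  · exact hR.np i i.2 k k.2 (fun h => hik (Subtype.ext h)) fun μ hμ h0 =>
      hp _ ⟨μ, hμ, rfl⟩ h0

/-- the first crossing -/
lemma crossing {Λ : Submodule ℝ (ι → ℝ)} (hS : Simple Λ) (hA : Acyc Λ) (hng : ¬ Good Λ)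
    {l ν : ι → ℝ} (hl : l ∈ Λ) (hl0 : ∀ i, l i ≠ 0) (hν : ν ∈ Λ) (hν0 : ν ≠ 0)
    (hN : ∀ i, l i < 0 → ν i = 0)
    (hNx : ∀ x, ν x ≠ 0 → ∀ μ ∈ Λ, (∀ i, l i < 0 → μ i = 0) → μ x = 0 → μ = 0) :
    ∃ x, 0 < l x ∧ ν x < 0 ∧ ∃ μ ∈ Λ, μ ≠ 0 ∧ ∀ i, 0 < l i → i ≠ x → μ i = 0 := by
  classical
  let F : ι ⊕ (ι × ι) → (ι → ℝ) →ₗ[ℝ] ℝ := fun k => Sum.elim
    (fun i => (LinearMap.proj i : (ι → ℝ) →ₗ[ℝ] ℝ))
    (fun xy => ν xy.2 • (LinearMap.proj xy.1 : (ι → ℝ) →ₗ[ℝ] ℝ)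
      - ν xy.1 • (LinearMap.proj xy.2 : (ι → ℝ) →ₗ[ℝ] ℝ)) k
  have hF1 : ∀ i μ, F (Sum.inl i) μ = μ i := fun i μ => rfl
  have hF2 : ∀ x y μ, F (Sum.inr (x, y)) μ = ν y * μ x - ν x * μ y := fun x y μ => rfl
  obtain ⟨l', hl', hp, hn, hgen⟩ := exists_generic Λ F hl
  have hp' : ∀ i, 0 < l i → 0 < l' i := fun i h => hp (Sum.inl i) h
  have hn' : ∀ i, l i < 0 → l' i < 0 := fun i h => hn (Sum.inl i) h
  have hpi : ∀ i, 0 < l' i → 0 < l i := by
    intro i h
    rcases lt_or_gt_of_ne (hl0 i) with h1 | h1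
    · exact absurd (hn' i h1) (not_lt.mpr h.le)
    · exact h1
  have hne : ∀ x y, x ≠ y → ν x ≠ 0 → ν y ≠ 0 → ν y * l' x ≠ ν x * l' y := by
    intro x y hxy hx hy h0
    refine hgen (Sum.inr (x, y)) ?_ (by rw [hF2, h0, sub_self])
    by_contra hno
    push Not at hno
    refine hS.np x y hxy fun μ hμ hμ0 => ?_
    have h1 := hno μ hμ
    rw [hF2, hμ0, mul_zero, zero_sub, neg_eq_zero] at h1
    exact (mul_eq_zero.mp h1).resolve_left hx
  obtain ⟨x0, hx0⟩ := hA.neg hν hν0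
  obtain ⟨x, hx, hmin⟩ := Finset.exists_min_image (Finset.univ.filter fun x => ν x < 0)
    (fun x => l' x / -ν x) ⟨x0, Finset.mem_filter.mpr ⟨Finset.mem_univ _, hx0⟩⟩
  have hνx : ν x < 0 := (Finset.mem_filter.mp hx).2
  have hlx : 0 < l x := by
    rcases lt_or_gt_of_ne (hl0 x) with h1 | h1
    · exact absurd (hN x h1) hνx.ne
    · exact h1
  have hmin' : ∀ y, y ≠ x → ν y < 0 → l' x / -ν x < l' y / -ν y := by
    intro y hyx hy
    refine lt_of_le_of_ne (hmin y (Finset.mem_filter.mpr ⟨Finset.mem_univ _, hy⟩)) fun h0 => ?_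
    rw [div_eq_div_iff (neg_ne_zero.mpr hνx.ne) (neg_ne_zero.mpr hy.ne)] at h0
    refine hne x y (Ne.symm hyx) hνx.ne hy.ne ?_
    linarith
  -- a threshold
  obtain ⟨t, ht0, ht1⟩ : ∃ t, l' x / -ν x < t ∧ ∀ y, y ≠ x → ν y < 0 → t < l' y / -ν y := by
    by_cases hex : ∃ y, y ≠ x ∧ ν y < 0
    · obtain ⟨y0, hy0, hy0'⟩ := hex
      obtain ⟨y, hy, hmy⟩ := Finset.exists_min_image
        (Finset.univ.filter fun y => y ≠ x ∧ ν y < 0) (fun y => l' y / -ν y)
        ⟨y0, Finset.mem_filter.mpr ⟨Finset.mem_univ _, hy0, hy0'⟩⟩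
      obtain ⟨hy1, hy2⟩ := (Finset.mem_filter.mp hy).2
      have h1 := hmin' y hy1 hy2
      refine ⟨(l' x / -ν x + l' y / -ν y) / 2, by linarith, fun z hz hz' => ?_⟩
      have h2 := hmy z (Finset.mem_filter.mpr ⟨Finset.mem_univ _, hz, hz'⟩)
      linarith
    · push Not at hex
      exact ⟨l' x / -ν x + 1, by linarith, fun y hy hy' => absurd hy' (not_lt.mpr (hex y hy))⟩
  have htpos : 0 < t := by
    have : 0 < l' x / -ν x := div_pos (hp' x hlx) (by linarith)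
    linarith
  let f : ι → ℝ := l' + t • ν
  have hf : f ∈ Λ := Λ.add_mem hl' (Λ.smul_mem _ hν)
  have hfi : ∀ i, f i = l' i + t * ν i := fun i => rfl
  have hfx : f x < 0 := by
    rw [hfi]
    have h1 : l' x < t * -ν x := (div_lt_iff₀ (by linarith)).mp ht0
    linarith
  have hfn : ∀ i, l i < 0 → f i < 0 := by
    intro i hi
    rw [hfi, hN i hi, mul_zero, add_zero]
    exact hn' i hi
  have hfp : ∀ i, 0 < l i → i ≠ x → 0 < f i := by
    intro i hi hix
    rw [hfi]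
    rcases lt_or_ge (ν i) 0 with h1 | h1
    · have h2 : t * -ν i < l' i := (lt_div_iff₀ (by linarith)).mp (ht1 i hix h1)
      linarith
    · have h2 := hp' i hi
      have h3 := mul_nonneg htpos.le h1
      linarith
  refine ⟨x, hlx, hνx, ?_⟩
  by_contra hno
  push Not at hno
  refine hng ⟨f, hf, fun μ hμ h0 => ?_, fun μ hμ h0 => ?_⟩
  · by_contra hμ0
    obtain ⟨i, hi1, hi2, hi3⟩ := hno μ hμ hμ0
    exact hi3 (h0 i (hfp i hi1 hi2))
  · exact hNx x hνx.ne μ hμ (fun i hi => h0 i (hfn i hi)) (h0 x hfx)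

/-- the two sides of a good element of a section -/
lemma sides {Λ : Submodule ℝ (ι → ℝ)} (hS : Simple Λ) (hng : ¬ Good Λ) {a : ι} {l : ι → ℝ}
    (hl : GoodAt (van Λ {a}) l) :
    ∃ ν ∈ Λ, ν a = 1 ∧ ∀ i, l i < 0 → ν i = 0 := by
  have hla : l a = 0 := hl.1.2 a rfl
  obtain ⟨μ₀, hμ₀, h1⟩ := exists_one (hS.nl a)
  obtain ⟨ε, hε, hs⟩ := Pool.Agent.FX.perturb l μ₀
  have hmem : l + ε • μ₀ ∈ Λ := Λ.add_mem hl.1.1 (Λ.smul_mem _ hμ₀)
  have hno : ¬ ∀ μ ∈ Λ, (∀ i, (l + ε • μ₀) i < 0 → μ i = 0) → μ = 0 := by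
    intro h
    refine hng ⟨l + ε • μ₀, hmem, fun μ hμ h0 => ?_, h⟩
    have h2 : μ a = 0 := h0 a (by simp [hla, h1, hε])
    exact hl.2.1 μ ⟨hμ, fun i hi => by rw [hi]; exact h2⟩ fun i hi =>
      h0 i (by simpa using (hs i).1 hi)
  push Not at hno
  obtain ⟨ν, hν, hν1, hν0⟩ := hno
  have hνn : ∀ i, l i < 0 → ν i = 0 := fun i hi => hν1 i (by simpa using (hs i).2 hi)
  have hνa : ν a ≠ 0 := by
    intro h0
    exact hν0 (hl.2.2 ν ⟨hν, fun i hi => by rw [hi]; exact h0⟩ hνn)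
  exact ⟨(ν a)⁻¹ • ν, Λ.smul_mem _ hν, by simpa using inv_mul_cancel₀ hνa,
    fun i hi => by simp [hνn i hi]⟩

lemma GoodAt.neg {Λ : Submodule ℝ (ι → ℝ)} {l : ι → ℝ} (h : GoodAt Λ l) : GoodAt Λ (-l) :=
  ⟨Λ.neg_mem h.1, fun μ hμ h0 => h.2.2 μ hμ fun i hi => h0 i (by simpa using hi),
    fun μ hμ h0 => h.2.1 μ hμ fun i hi => h0 i (by simpa using hi)⟩

lemma exists_sect {Λ : Submodule ℝ (ι → ℝ)} (hS : Simple Λ) {a : ι} (hg : Good (van Λ {a})) :
    ∃ l, GoodAt (van Λ {a}) l ∧ ∀ i, i ≠ a → l i ≠ 0 := by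
  obtain ⟨l, hl, hmax⟩ := exists_max hg
  refine ⟨l, hl, fun i hi => hmax i fun h => hS.np a i (Ne.symm hi) fun μ hμ h0 =>
    h μ ⟨hμ, fun k hk => by rw [hk]; exact h0⟩⟩

/-- no mixed triples -/
lemma no_mix {Λ : Submodule ℝ (ι → ℝ)} (hS : Simple Λ) (hng : ¬ Good Λ)
    (hloc : ∀ a, Good (van Λ {a})) {a b c : ι} (h : Mix Λ a b c) : False := by
  obtain ⟨p, q, hp, hq, hb⟩ := h.co
  have hba : b ≠ a := by
    intro h1
    refine h.ab 1 fun μ _ => ?_
    rw [h1, one_mul]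
  have hca : c ≠ a := by
    intro h1
    refine idp_ne h.idp 1 fun μ _ => ?_
    rw [h1, one_mul]
  obtain ⟨l, hl, hl0⟩ := exists_sect hS (hloc a)
  have hla : l a = 0 := hl.1.2 a rfl
  have hlb : l b = q * l c := by rw [hb l hl.1.1, hla]; ring
  have key : ∀ ν ∈ Λ, ν a = 1 → ν b = 0 → ν c = 0 → False := by
    intro ν hν h1 h2 h3
    rw [hb ν hν, h1, h3] at h2
    linarith
  rcases lt_or_gt_of_ne (hl0 c hca) with h1 | h1
  · obtain ⟨ν, hν, h2, h3⟩ := sides hS hng hl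
    exact key ν hν h2 (h3 b (by rw [hlb]; exact mul_neg_of_pos_of_neg hq h1)) (h3 c h1)
  · obtain ⟨ν, hν, h2, h3⟩ := sides hS hng hl.neg
    exact key ν hν h2 (h3 b (by
      rw [Pi.neg_apply, hlb, neg_lt_zero]
      exact mul_pos hq h1)) (h3 c (by simpa using h1))

/-- one side of a good element of a section has at most three elements -/
lemma half {Λ : Submodule ℝ (ι → ℝ)} (hS : Simple Λ) (hA : Acyc Λ) (hng : ¬ Good Λ)
    (h4 : Module.finrank ℝ Λ = 4) (hloc : ∀ a, Good (van Λ {a})) {a : ι} {l : ι → ℝ}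
    (hl : GoodAt (van Λ {a}) l) (hl0 : ∀ i, i ≠ a → l i ≠ 0) [DecidablePred fun i => 0 < l i] :
    (Finset.univ.filter fun i => 0 < l i).card ≤ 3 := by
  classical
  have hla : l a = 0 := hl.1.2 a rfl
  obtain ⟨ν, hν, hνa, hνn⟩ := sides hS hng hl
  obtain ⟨ν', hν', hνa', hνp⟩ := sides hS hng hl.neg
  have hνp' : ∀ i, 0 < l i → ν' i = 0 := fun i hi => hνp i (by simpa using hi)
  obtain ⟨ε, hε, hs⟩ := Pool.Agent.FX.perturb l ν
  have hmem : l + ε • ν ∈ Λ := Λ.add_mem hl.1.1 (Λ.smul_mem _ hν)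
  have hva : (l + ε • ν) a = ε := by simp [hla, hνa]
  have hvp : ∀ i, 0 < l i → 0 < (l + ε • ν) i := fun i hi => by simpa using (hs i).1 hi
  have hvn : ∀ i, l i < 0 → (l + ε • ν) i < 0 := fun i hi => by simpa using (hs i).2 hi
  have hvn' : ∀ i, (l + ε • ν) i < 0 → l i < 0 := by
    intro i hi
    by_cases hia : i = a
    · rw [hia, hva] at hi
      exact absurd hi (not_lt.mpr hε.le)
    · rcases lt_or_gt_of_ne (hl0 i hia) with h1 | h1
      · exact h1
      · exact absurd (hvp i h1) (not_lt.mpr hi.le)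
  have hv0 : ∀ i, (l + ε • ν) i ≠ 0 := by
    intro i
    by_cases hia : i = a
    · rw [hia, hva]
      exact hε.ne'
    · rcases lt_or_gt_of_ne (hl0 i hia) with h1 | h1
      · exact (hvn i h1).ne
      · exact (hvp i h1).ne'
  obtain ⟨p, hp1, hp2, ξ, hξ, hξ0, hξp⟩ := crossing hS hA hng hmem hv0 hν
    (fun h0 => by rw [h0] at hνa; exact zero_ne_one hνa) (fun i hi => hνn i (hvn' i hi))
    fun x hx μ hμ h0 hμx => by
      have h1 : μ - μ a • ν = 0 := by
        refine hl.2.2 _ ⟨Λ.sub_mem hμ (Λ.smul_mem _ hν), fun i hi => ?_⟩ fun i hi => ?_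
        · rw [hi]
          simp [hνa]
        · rw [Pi.sub_apply, Pi.smul_apply, h0 i (hvn i hi), hνn i hi]
          simp
      have h2 := congrFun h1 x
      rw [Pi.sub_apply, Pi.smul_apply, hμx, smul_eq_mul, zero_sub, Pi.zero_apply,
        neg_eq_zero] at h2
      have h3 : μ a = 0 := (mul_eq_zero.mp h2).resolve_right hx
      rw [h3, zero_smul, sub_zero] at h1
      exact h1
  have hpa : p ≠ a := by
    intro h1
    rw [h1, hνa] at hp2
    linarith
  have hξa : ξ a = 0 := hξp a (by rw [hva]; exact hε) (Ne.symm hpa)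
  have hξl : ∀ i, 0 < l i → i ≠ p → ξ i = 0 := fun i hi hip => hξp i (hvp i hi) hip
  -- three elements in a plane
  by_contra hcard
  push Not at hcard
  have hlp : 0 < l p := by
    rcases lt_or_gt_of_ne (hl0 p hpa) with h1 | h1
    · exact absurd (hvn p h1) (not_lt.mpr hp1.le)
    · exact h1
  have hpm : p ∈ Finset.univ.filter fun i => 0 < l i :=
    Finset.mem_filter.mpr ⟨Finset.mem_univ _, hlp⟩
  have h5 : 2 < ((Finset.univ.filter fun i => 0 < l i).erase p).card := by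
    rw [Finset.card_erase_of_mem hpm]
    omega
  obtain ⟨x, hx, y, hy, z, hz, hxy, hxz, hyz⟩ := Finset.two_lt_card.mp h5
  have hmemS : ∀ i, i ∈ (Finset.univ.filter fun i => 0 < l i).erase p → 0 < l i ∧ ξ i = 0 ∧
      ν' i = 0 := by
    intro i hi
    obtain ⟨hi1, hi2⟩ := Finset.mem_erase.mp hi
    have hi3 := (Finset.mem_filter.mp hi2).2
    exact ⟨hi3, hξl i hi3 hi1, hνp' i hi3⟩
  obtain ⟨lx, ξx, νx⟩ := hmemS x hx
  obtain ⟨ly, ξy, νy⟩ := hmemS y hy
  obtain ⟨lz, ξz, νz⟩ := hmemS z hz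
  have hidp : ∀ i k, i ≠ k → Idp Λ i k := fun i k hik => idp_of (hS.nl i) (hS.np i k hik)
  -- the third element is in the plane of the other two
  have hcl : ∀ μ ∈ Λ, μ x = 0 → μ y = 0 → μ z = 0 := by
    have hfr := (hidp x y hxy).finrank
    have hli : LinearIndependent ℝ (![(⟨ξ, ⟨⟨hξ, fun i hi => by rw [hi]; exact ξx⟩,
        fun i hi => by rw [hi]; exact ξy⟩⟩ : van (van Λ {x}) {y}),
        ⟨ν', ⟨⟨hν', fun i hi => by rw [hi]; exact νx⟩, fun i hi => by rw [hi]; exact νy⟩⟩] :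
        Fin 2 → van (van Λ {x}) {y}) := by
      rw [LinearIndependent.pair_iff]
      intro s t hst
      have h6 : s • ξ + t • ν' = 0 := congrArg Subtype.val hst
      have h7 : t = 0 := by
        have := congrFun h6 a
        simpa [hξa, hνa'] using this
      rw [h7, zero_smul, add_zero] at h6
      exact ⟨(smul_eq_zero.mp h6).resolve_right hξ0, h7⟩
    have hspan := hli.span_eq_top_of_card_eq_finrank' (by
      rw [Fintype.card_fin]
      omega)
    intro μ hμ h6 h7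
    have h8 : (⟨μ, ⟨⟨hμ, fun i hi => by rw [hi]; exact h6⟩, fun i hi => by rw [hi]; exact h7⟩⟩ :
        van (van Λ {x}) {y}) ∈ Submodule.span ℝ (Set.range (![(⟨ξ, ⟨⟨hξ, fun i hi => by
          rw [hi]; exact ξx⟩, fun i hi => by rw [hi]; exact ξy⟩⟩ : van (van Λ {x}) {y}),
        ⟨ν', ⟨⟨hν', fun i hi => by rw [hi]; exact νx⟩, fun i hi => by rw [hi]; exact νy⟩⟩] :
        Fin 2 → van (van Λ {x}) {y})) := by
      rw [hspan]
      trivial
    rw [Matrix.range_cons, Matrix.range_cons, Matrix.range_empty, Set.union_empty,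
      Set.singleton_union, Submodule.mem_span_pair] at h8
    obtain ⟨s, t, hst⟩ := h8
    have h9 : s • ξ + t • ν' = μ := congrArg Subtype.val hst
    rw [← h9]
    simp [ξz, νz]
  -- coefficients
  obtain ⟨e1, m1, e1x, e1y⟩ := hidp x y hxy 1 0
  obtain ⟨e2, m2, e2x, e2y⟩ := hidp x y hxy 0 1
  have hco : ∀ μ ∈ Λ, μ z = e1 z * μ x + e2 z * μ y := by
    intro μ hμ
    have h6 := hcl (μ - μ x • e1 - μ y • e2)
      (Λ.sub_mem (Λ.sub_mem hμ (Λ.smul_mem _ m1)) (Λ.smul_mem _ m2)) (by simp [e1x, e2x])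
      (by simp [e1y, e2y])
    simp only [Pi.sub_apply, Pi.smul_apply, smul_eq_mul] at h6
    linarith
  have hα : e1 z ≠ 0 := by
    intro h0
    refine hS.np y z hyz fun μ hμ h6 => ?_
    rw [hco μ hμ, h0, h6]
    ring
  have hβ : e2 z ≠ 0 := by
    intro h0
    refine hS.np x z hxz fun μ hμ h6 => ?_
    rw [hco μ hμ, h0, h6]
    ring
  have hlz := hco l hl.1.1
  rcases lt_or_gt_of_ne hα with h6 | h6 <;> rcases lt_or_gt_of_ne hβ with h7 | h7
  · have h8 := mul_neg_of_neg_of_pos h6 lx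
    have h9 := mul_neg_of_neg_of_pos h7 ly
    linarith
  · -- `y` is in the middle
    refine no_mix hS hng hloc (a := x) (b := y) (c := z) ⟨hidp x z hxz, -e1 z / e2 z, 1 / e2 z,
      div_pos (by linarith) h7, by positivity, fun μ hμ => ?_⟩
    rw [hco μ hμ]
    field_simp
    ring
  · -- `x` is in the middle
    refine no_mix hS hng hloc (a := y) (b := x) (c := z) ⟨hidp y z hyz, -e2 z / e1 z, 1 / e1 z,
      div_pos (by linarith) h6, by positivity, fun μ hμ => ?_⟩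
    rw [hco μ hμ]
    field_simp
    ring
  · exact no_mix hS hng hloc (a := x) (b := z) (c := y) ⟨hidp x y hxy, e1 z, e2 z, h6, h7, hco⟩

/-- dimension four -/
theorem caseC4 {Λ : Submodule ℝ (ι → ℝ)} (h4 : Module.finrank ℝ Λ = 4) (hT : TF 2 Λ) :
    Good Λ := by
  classical
  by_contra hng
  have hloc : ∀ a, ¬ Loop Λ a → Good (van Λ {a}) := by
    intro a ha
    have h1 := finrank_van ha
    exact caseC 3 le_rfl _ (by omega) (hT.mono (van_le _ _))
  obtain ⟨hP, _⟩ := classes hloc hng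
  obtain ⟨R, hR⟩ := exists_rep Λ
  have hT' := hT.rst hR hP
  have h2 := hT'.card_le
  have hf := finrank_rst hR
  have hng' : ¬ Good (Λ.map (rst R)) := fun h => hng (Good.of_rst hR h)
  have hS := simple_rst hR
  have hloc' : ∀ a, Good (van (Λ.map (rst R)) {a}) := by
    intro a
    have h1 := finrank_van (hS.nl a)
    exact caseC 3 le_rfl _ (by omega) (hT'.mono (van_le _ _))
  have hA' := hT'.acyc (by norm_num)
  generalize hΛ' : Λ.map (rst R) = Λ' at *
  have hcard : 8 ≤ Fintype.card {x // x ∈ R} := by omega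
  obtain ⟨a⟩ : Nonempty {x // x ∈ R} := Fintype.card_pos_iff.mp (by omega)
  obtain ⟨l, hl, hl0⟩ := exists_sect hS (hloc' a)
  have h5 := half hS hA' hng' (by omega) hloc' hl hl0
  have h6 := half hS hA' hng' (by omega) hloc' hl.neg fun i hi => by simpa using hl0 i hi
  have h7 : (Finset.univ : Finset {x // x ∈ R}) ⊆ insert a
      ((Finset.univ.filter fun i => 0 < l i) ∪ (Finset.univ.filter fun i => 0 < (-l) i)) := by
    intro i _
    by_cases hia : i = a
    · rw [hia]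
      exact Finset.mem_insert_self _ _
    · refine Finset.mem_insert_of_mem (Finset.mem_union.mpr ?_)
      rcases lt_or_gt_of_ne (hl0 i hia) with h8 | h8
      · right
        simpa using h8
      · left
        simpa using h8
  have h8 := Finset.card_le_card h7
  have h9 := Finset.card_insert_le a
    ((Finset.univ.filter fun i => 0 < l i) ∪ (Finset.univ.filter fun i => 0 < (-l) i))
  have h10 := Finset.card_union_le (Finset.univ.filter fun i => 0 < l i)
    (Finset.univ.filter fun i => 0 < (-l) i)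
  rw [Finset.card_univ] at h8
  omega

end Pool.Agent.FX
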