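import Pool.Agent.Lib_helper67.FX.Merge
import Pool.Agent.Lib_helper67.FX.Four

/-!
Kalai's inequality for at most `dim aff X + 5` points, and without Tverberg partitions into three
parts in dimension at most four.
-/

set_option autoImplicit false
set_option linter.unusedSectionVars false

namespace Pool.Agent.FX

open scoped BigOperators Topology
open Module Filter Pool.Agent

variable {d : ℕ}

lemma good_of_TF {ι : Type*} [Fintype ι] {Λ : Submodule ℝ (ι → ℝ)} (hj : finrank ℝ Λ ≤ 4)
    (hT : TF 2 Λ) : Good Λ := by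
  rcases Nat.lt_or_ge (finrank ℝ Λ) 4 with h | h
  · exact caseC _ (by omega) Λ rfl hT
  · exact caseC4 (by omega) hT

/-- at most `dim aff X + 5` points -/
theorem part_five {X : Finset (Fin d → ℝ)} (hX : X.Nonempty)
    (hn : (X.card : ℤ) ≤ KL.adim (X : Set (Fin d → ℝ)) + 5) :
    0 ≤ ∑ r ∈ Finset.Icc 1 X.card, KL.dimT r X := by
  rcases le_or_gt (X.card : ℤ) (KL.adim (X : Set (Fin d → ℝ)) + 4) with h | h
  · exact part_two hX h
  · have hc := card_eq hX
    have hj : finrank ℝ (dep X) = 4 := by omega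
    by_cases hg : Good (dep X)
    · exact kalai_good hX hg
    · rcases le_or_gt (KL.dimT 2 X) 1 with h2 | h2
      · exact part_four hX h2
      · have h3 : (KL.T 3 X).Nonempty := T_nonempty hX fun hT => hg (caseC4 hj hT)
        have h4 := dimT_nonneg (by norm_num) h3
        obtain ⟨x, hx⟩ := hX
        have hcc := finrank_dep X ⟨x, hx⟩
        refine kalai_of ⟨x, hx⟩ (fun r => if r = 2 then 3 else 1) 2 (by omega)
          (fun r h6 h7 => ?_) ?_
        · have h8 : r = 2 ∨ r = 3 := by omega
          rcases h8 with rfl | rfl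
          · rw [if_pos rfl]
            push_cast
            linarith
          · rw [if_neg (by norm_num)]
            push_cast
            linarith
        · have h9 : Finset.Icc 2 (2 + 1) = {2, 3} := by decide
          rw [h9, Finset.sum_pair (by norm_num)]
          simp [hj]

/-- no Tverberg partition into three parts -/
theorem part_six {X : Finset (Fin d → ℝ)} (hX : X.Nonempty) (hT : KL.T 3 X = ∅)
    (hn : (X.card : ℤ) ≤ KL.adim (X : Set (Fin d → ℝ)) + 5 ∨
      KL.adim (X : Set (Fin d → ℝ)) ≤ 4) :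
    (X.card : ℤ) - KL.adim (X : Set (Fin d → ℝ)) - 2 ≤ KL.dimT 2 X ∧
      0 ≤ ∑ r ∈ Finset.Icc 1 X.card, KL.dimT r X := by
  have hTF : TF 2 (dep X) := tf_of_T_empty hX hT
  have hg : Good (dep X) := by
    by_cases hj : finrank ℝ (dep X) ≤ 4
    · exact good_of_TF hj hTF
    · refine hTF.good ?_
      have h1 := hTF.card_le
      rw [Fintype.card_coe] at h1 ⊢
      have h2 := card_eq hX
      omega
  refine ⟨?_, kalai_good hX hg⟩
  have h3 := of_good hg
  have h4 := card_eq hX
  linarith

/-- Kalai's inequality -/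
theorem kalai {X : Finset (Fin d → ℝ)} (hX : X.Nonempty)
    (h : KL.dimT 2 X ≤ 1 ∨ (X.card : ℤ) ≤ KL.adim (X : Set (Fin d → ℝ)) + 5 ∨
      (KL.T 3 X = ∅ ∧ KL.adim (X : Set (Fin d → ℝ)) ≤ 4)) :
    0 ≤ ∑ r ∈ Finset.Icc 1 X.card, KL.dimT r X := by
  rcases h with h | h | ⟨h, h'⟩
  · exact part_four hX h
  · exact part_five hX h
  · exact (part_six hX h (Or.inr h')).2

end Pool.Agent.FX
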