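import Pool.Agent.Lib_helper67.FX.Cases
import Pool.Agent.Lib_helper10.RY.Geom
import Pool.Agent.Lib_helper10.RY.Reay

/-!
From dependencies to Tverberg sets.
-/

set_option autoImplicit false
set_option linter.unusedSectionVars false

namespace Pool.Agent.FX

open scoped BigOperators Topology
open Module Filter Pool.Agent

variable {d : ℕ}

/-- the linear map `μ ↦ ∑ μ_x (x, 1)` -/
noncomputable def dmap (X : Finset (Fin d → ℝ)) :
    ({x // x ∈ X} → ℝ) →ₗ[ℝ] (Fin d → ℝ) × ℝ :=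
  Fintype.linearCombination ℝ (fun x : {x // x ∈ X} => RY.lf d (x : Fin d → ℝ))

/-- the affine dependencies of `X` -/
noncomputable def dep (X : Finset (Fin d → ℝ)) : Submodule ℝ ({x // x ∈ X} → ℝ) :=
  LinearMap.ker (dmap X)

lemma dmap_apply (X : Finset (Fin d → ℝ)) (μ : {x // x ∈ X} → ℝ) :
    dmap X μ = ∑ x, μ x • RY.lf d (x : Fin d → ℝ) := by
  rw [dmap, Fintype.linearCombination_apply]

lemma mem_dep {X : Finset (Fin d → ℝ)} {μ : {x // x ∈ X} → ℝ} :
    μ ∈ dep X ↔ ∑ x, μ x • (x : Fin d → ℝ) = 0 ∧ ∑ x, μ x = 0 := by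
  rw [dep, LinearMap.mem_ker, dmap_apply, Prod.ext_iff, Prod.fst_sum, Prod.snd_sum]
  simp

/-- the same with lifted points -/
noncomputable def lmap (X : Finset (Fin d → ℝ)) (p0 : {x // x ∈ X}) :
    ({x // x ∈ X} → ℝ) →ₗ[ℝ] (vectorSpan ℝ (X : Set (Fin d → ℝ))) × ℝ :=
  Fintype.linearCombination ℝ (KL.lift X p0)

lemma lmap_apply (X : Finset (Fin d → ℝ)) (p0 : {x // x ∈ X}) (μ : {x // x ∈ X} → ℝ) :
    lmap X p0 μ = ∑ x, μ x • KL.lift X p0 x := by
  rw [lmap, Fintype.linearCombination_apply]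

lemma ker_lmap (X : Finset (Fin d → ℝ)) (p0 : {x // x ∈ X}) :
    LinearMap.ker (lmap X p0) = dep X := by
  ext μ
  rw [LinearMap.mem_ker, mem_dep, lmap_apply, Prod.ext_iff]
  have h1 := KL.sum_lift_fst X p0 (fun i => i) μ
  have h2 := KL.sum_lift_snd X p0 (fun i => i) μ
  constructor
  · rintro ⟨h3, h4⟩
    have h5 : ∑ x, μ x = 0 := by rw [← h2, h4]; rfl
    refine ⟨?_, h5⟩
    rw [h3, h5, zero_smul, sub_zero] at h1
    exact h1.symm
  · rintro ⟨h3, h4⟩
    refine ⟨Subtype.ext ?_, ?_⟩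
    · rw [h1, h3, h4]
      simp
    · rw [h2, h4]
      rfl

lemma range_lmap (X : Finset (Fin d → ℝ)) (p0 : {x // x ∈ X}) :
    LinearMap.range (lmap X p0) = ⊤ := by
  classical
  have hx : ∀ x, KL.lift X p0 x ∈ LinearMap.range (lmap X p0) := by
    intro x
    refine ⟨Pi.single x 1, ?_⟩
    rw [lmap, Fintype.linearCombination_apply_single, one_smul]
  have h0 : ((0, 1) : (vectorSpan ℝ (X : Set (Fin d → ℝ))) × ℝ) ∈ LinearMap.range (lmap X p0) := by
    have h1 := hx p0
    have h2 : KL.lift X p0 p0 = (0, 1) := by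
      unfold KL.lift
      refine Prod.ext (Subtype.ext ?_) rfl
      simp
    rwa [h2] at h1
  set W : Submodule ℝ (vectorSpan ℝ (X : Set (Fin d → ℝ))) :=
    (LinearMap.range (lmap X p0)).comap (LinearMap.inl ℝ _ ℝ) with hW
  have hW1 : vectorSpan ℝ (X : Set (Fin d → ℝ)) ≤ W.map (Submodule.subtype _) := by
    refine (vectorSpan_eq_span_vsub_set_right ℝ p0.2).le.trans ?_
    rw [Submodule.span_le]
    rintro _ ⟨x, hxX, rfl⟩
    refine ⟨⟨x - p0.1, vsub_mem_vectorSpan ℝ hxX p0.2⟩, ?_, rfl⟩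
    change _ ∈ LinearMap.range (lmap X p0)
    have h3 := Submodule.sub_mem _ (hx ⟨x, hxX⟩) h0
    have h4 : KL.lift X p0 ⟨x, hxX⟩ - (0, 1)
        = (LinearMap.inl ℝ _ ℝ) ⟨x - p0.1, vsub_mem_vectorSpan ℝ hxX p0.2⟩ := by
      unfold KL.lift
      refine Prod.ext ?_ ?_
      · simp
      · simp
    rwa [h4] at h3
  rw [eq_top_iff]
  rintro ⟨v, s⟩ _
  have h5 : (LinearMap.inl ℝ _ ℝ) v ∈ LinearMap.range (lmap X p0) := by
    obtain ⟨w, hw, hwv⟩ := hW1 v.2
    have h6 : w = v := Subtype.ext hwv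
    rw [← h6]
    exact hw
  have h7 : ((v, s) : (vectorSpan ℝ (X : Set (Fin d → ℝ))) × ℝ)
      = (LinearMap.inl ℝ _ ℝ) v + s • (0, 1) := by
    simp
  rw [h7]
  exact Submodule.add_mem _ h5 (Submodule.smul_mem _ _ h0)

lemma finrank_dep (X : Finset (Fin d → ℝ)) (p0 : {x // x ∈ X}) :
    finrank ℝ (dep X) + (finrank ℝ (vectorSpan ℝ (X : Set (Fin d → ℝ))) + 1) = X.card := by
  have h1 := LinearMap.finrank_range_add_finrank_ker (lmap X p0)
  rw [range_lmap, finrank_top, ker_lmap, finrank_prod, finrank_self, finrank_fintype_fun_eq_card,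
    Fintype.card_coe] at h1
  omega

lemma adim_eq {X : Finset (Fin d → ℝ)} (hX : X.Nonempty) :
    KL.adim (X : Set (Fin d → ℝ)) = (finrank ℝ (vectorSpan ℝ (X : Set (Fin d → ℝ))) : ℤ) := by
  unfold KL.adim
  rw [if_neg]
  intro h
  obtain ⟨x, hx⟩ := hX
  have : x ∈ (X : Set (Fin d → ℝ)) := hx
  rw [h] at this
  exact this

lemma card_eq {X : Finset (Fin d → ℝ)} (hX : X.Nonempty) :
    (X.card : ℤ) = finrank ℝ (dep X) + (KL.adim (X : Set (Fin d → ℝ)) + 1) := by
  obtain ⟨x, hx⟩ := hX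
  rw [adim_eq ⟨x, hx⟩, ← finrank_dep X ⟨x, hx⟩]
  push_cast
  ring

lemma tf_of_T_empty {r : ℕ} {X : Finset (Fin d → ℝ)} (hX : X.Nonempty)
    (h : KL.T (r + 1) X = ∅) : TF r (dep X) := by
  obtain ⟨x, hx⟩ := hX
  intro σ t ht hj
  refine KL.tfree_of_T_empty ⟨x, hx⟩ h σ t ht fun j => ?_
  have h1 := hj j
  rw [← ker_lmap X ⟨x, hx⟩, LinearMap.mem_ker] at h1
  have h2 : (fun i => (if σ i = some j then t i else 0) - (if σ i = none then t i else 0))
      = (fun i => if σ i = some j then t i else 0) - (fun i => if σ i = none then t i else 0) := rfl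
  rw [h2, map_sub, lmap_apply, lmap_apply] at h1
  exact sub_eq_zero.mp h1

lemma acyc_dep (X : Finset (Fin d → ℝ)) : Acyc (dep X) := by
  intro μ hμ h0
  rw [mem_dep] at hμ
  have h1 := (Finset.sum_eq_zero_iff_of_nonneg (fun i _ => h0 i)).mp hμ.2
  funext i
  exact h1 i (Finset.mem_univ _)

lemma dimT_one (X : Finset (Fin d → ℝ)) : KL.adim (X : Set (Fin d → ℝ)) ≤ KL.dimT 1 X := by
  have h1 := KL.le_dimT le_rfl X (fun _ => (0 : Fin 1))
  have h2 : KL.cell X (fun _ => (0 : Fin 1)) = convexHull ℝ (X : Set (Fin d → ℝ)) := by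
    unfold KL.cell
    ext p
    rw [Set.mem_iInter]
    constructor
    · intro h
      refine convexHull_mono ?_ (h 0)
      rintro x ⟨hx, _⟩
      exact hx
    · intro h j
      refine convexHull_mono ?_ h
      intro x hx
      exact ⟨hx, Subsingleton.elim _ _⟩
  rw [h2, KL.adim_convexHull] at h1
  exact h1

lemma dimT_nonneg {r : ℕ} (hr : 1 ≤ r) {X : Finset (Fin d → ℝ)} (h : (KL.T r X).Nonempty) :
    0 ≤ KL.dimT r X := by
  obtain ⟨p, hp⟩ := h
  obtain ⟨c, hc⟩ := Set.mem_iUnion.mp hp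
  refine le_trans ?_ (KL.le_dimT hr X c)
  unfold KL.adim
  rw [if_neg (Set.nonempty_iff_ne_empty.mp ⟨p, hc⟩)]
  exact_mod_cast Nat.zero_le _

/-- the entries in `P` -/
noncomputable def mask {ι : Type*} (P : ι → Prop) [DecidablePred P] : (ι → ℝ) →ₗ[ℝ] (ι → ℝ) where
  toFun μ := fun i => if P i then μ i else 0
  map_add' μ ν := by
    funext i
    simp only [Pi.add_apply]
    split_ifs <;> simp
  map_smul' c μ := by
    funext i
    simp only [Pi.smul_apply, RingHom.id_apply, smul_eq_mul]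
    split_ifs <;> simp

lemma mask_apply {ι : Type*} (P : ι → Prop) [DecidablePred P] (μ : ι → ℝ) (i : ι) :
    mask P μ i = if P i then μ i else 0 := rfl

/-- a good element of a section gives the dimension of `T_2` -/
theorem dimT_two {X : Finset (Fin d → ℝ)} (Z : Set {x // x ∈ X}) (hg : Good (van (dep X) Z))
    (he : 1 ≤ finrank ℝ (van (dep X) Z)) :
    (finrank ℝ (van (dep X) Z) : ℤ) - 1 ≤ KL.dimT 2 X := by
  classical
  obtain ⟨l, hl, hmax⟩ := exists_max hg
  set M := van (dep X) Z with hM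
  have hloop : ∀ μ ∈ M, ∀ i, l i = 0 → μ i = 0 := by
    intro μ hμ i hi
    by_contra h
    exact hmax i (fun h' => h (h' μ hμ)) hi
  let Φ : ({x // x ∈ X} → ℝ) →ₗ[ℝ] (Fin d → ℝ) × ℝ := dmap X ∘ₗ mask (fun i => 0 < l i)
  let Ψ : ({x // x ∈ X} → ℝ) →ₗ[ℝ] (Fin d → ℝ) × ℝ := dmap X ∘ₗ mask (fun i => l i < 0)
  have hΦΨ : ∀ μ ∈ M, Φ μ = - Ψ μ := by
    intro μ hμ
    have h1 : dmap X μ = 0 := LinearMap.mem_ker.mp hμ.1
    have h2 : μ = mask (fun i => 0 < l i) μ + mask (fun i => l i < 0) μ := by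
      funext i
      rw [Pi.add_apply, mask_apply, mask_apply]
      rcases lt_trichotomy (l i) 0 with h | h | h
      · rw [if_neg (not_lt.mpr h.le), if_pos h, zero_add]
      · rw [hloop μ hμ i h]
        simp
      · rw [if_pos h, if_neg (not_lt.mpr h.le), add_zero]
    have h3 : Φ μ + Ψ μ = 0 := by
      rw [← h1]
      conv_rhs => rw [h2]
      rw [map_add]
      rfl
    exact eq_neg_of_add_eq_zero_left h3
  let em : {x // x ∈ X} ↪ (Fin d → ℝ) × ℝ := (Function.Embedding.subtype _).trans (RY.lf d)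
  have hem : ∀ i, em i = RY.lf d (i : Fin d → ℝ) := fun i => rfl
  let FP : Finset ((Fin d → ℝ) × ℝ) := (Finset.univ.filter fun i => 0 < l i).map em
  let FN : Finset ((Fin d → ℝ) × ℝ) := (Finset.univ.filter fun i => l i < 0).map em
  let α : (Fin d → ℝ) × ℝ → ℝ := fun v => if h : v.1 ∈ X then |l ⟨v.1, h⟩| else 1
  have hα : ∀ i, α (em i) = |l i| := by
    intro i
    have h1 : (em i).1 ∈ X := i.2
    simp only [α, dif_pos h1]
    rfl
  have hinj : ∀ μ ∈ M, Φ μ = 0 → μ = 0 := by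
    intro μ hμ h0
    refine hl.2.1 μ hμ fun i hi => ?_
    have h1 : mask (fun i => 0 < l i) μ ∈ M := by
      refine ⟨LinearMap.mem_ker.mpr h0, fun k hk => ?_⟩
      rw [mask_apply, hμ.2 k hk]
      simp
    have h2 := hl.2.2 _ h1 fun k hk => by rw [mask_apply, if_neg (not_lt.mpr hk.le)]
    have h3 := congrFun h2 i
    rwa [mask_apply, if_pos hi] at h3
  have hfin : finrank ℝ (M.map Φ) = finrank ℝ M := by
    rw [← LinearMap.range_domRestrict]
    apply LinearMap.finrank_range_of_inj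
    rw [← LinearMap.ker_eq_bot, LinearMap.ker_eq_bot']
    intro μ h
    exact Subtype.ext (hinj μ μ.2 h)
  have hsub : ∀ (S : Finset {x // x ∈ X}), S.map em ⊆ X.map (RY.lf d) := by
    intro S v hv
    obtain ⟨i, _, rfl⟩ := Finset.mem_map.mp hv
    exact Finset.mem_map.mpr ⟨i, i.2, rfl⟩
  have hdis : Disjoint FP FN := by
    rw [Finset.disjoint_map, Finset.disjoint_filter]
    intro i _ h1 h2
    exact absurd h1 (not_lt.mpr h2.le)
  have hspan : ∀ (P : {x // x ∈ X} → Prop) [DecidablePred P] (μ : {x // x ∈ X} → ℝ),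
      dmap X (mask P μ) ∈ Submodule.span ℝ (((Finset.univ.filter P).map em : Finset _) :
        Set ((Fin d → ℝ) × ℝ)) := by
    intro P _ μ
    rw [dmap_apply]
    refine Submodule.sum_mem _ fun i _ => ?_
    rw [mask_apply]
    split_ifs with h
    · refine Submodule.smul_mem _ _ (Submodule.subset_span ?_)
      rw [Finset.mem_coe, Finset.mem_map]
      exact ⟨i, Finset.mem_filter.mpr ⟨Finset.mem_univ _, h⟩, rfl⟩
    · rw [zero_smul]
      exact Submodule.zero_mem _
  have hpos : 1 ≤ finrank ℝ (M.map Φ) := by rw [hfin]; exact he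
  have key := RY.dimT_ge (r := 2) (by norm_num) X ![FP, FN] ?_ ?_ (Φ l) ?_ (M.map Φ) ?_ hpos
  · rw [hfin] at key
    exact key
  · intro j
    fin_cases j
    · exact hsub _
    · exact hsub _
  · intro i j hij
    fin_cases i <;> fin_cases j
    · exact absurd rfl hij
    · exact hdis
    · exact hdis.symm
    · exact absurd rfl hij
  · intro j
    fin_cases j
    · refine ⟨α, fun v hv => ?_, ?_⟩
      · obtain ⟨i, hi, rfl⟩ := Finset.mem_map.mp hv
        rw [hα]
        exact abs_pos.mpr (Finset.mem_filter.mp hi).2.ne'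
      · change ∑ v ∈ FP, α v • v = Φ l
        rw [Finset.sum_map, Finset.sum_filter]
        change _ = dmap X (mask (fun i => 0 < l i) l)
        rw [dmap_apply]
        refine Finset.sum_congr rfl fun i _ => ?_
        rw [mask_apply, hα, hem]
        split_ifs with h
        · rw [abs_of_pos h]
        · rw [zero_smul]
    · refine ⟨α, fun v hv => ?_, ?_⟩
      · obtain ⟨i, hi, rfl⟩ := Finset.mem_map.mp hv
        rw [hα]
        exact abs_pos.mpr (Finset.mem_filter.mp hi).2.ne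
      · change ∑ v ∈ FN, α v • v = Φ l
        rw [hΦΨ l hl.1, Finset.sum_map, Finset.sum_filter]
        change _ = - dmap X (mask (fun i => l i < 0) l)
        rw [dmap_apply, ← Finset.sum_neg_distrib]
        refine Finset.sum_congr rfl fun i _ => ?_
        rw [mask_apply, hα, hem]
        split_ifs with h
        · rw [abs_of_neg h, neg_smul]
        · rw [zero_smul, neg_zero]
  · intro j
    rintro _ ⟨μ, hμ, rfl⟩
    fin_cases j
    · exact hspan (fun i => 0 < l i) μ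
    · rw [hΦΨ μ hμ]
      exact Submodule.neg_mem _ (hspan (fun i => l i < 0) μ)

end Pool.Agent.FX
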