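import Pool.Agent.Lib_helper67.FX.Plane

/-!
A space of dimension `j ≥ 3` without good sections of dimension three or more has at most `j + 2`
rays.
-/

set_option autoImplicit false
set_option linter.unusedSectionVars false

namespace Pool.Agent.FX

open scoped BigOperators Topology
open Module Filter Pool.Agent

variable {ι : Type*} [Fintype ι]

/-- four independent coordinates -/
def Idp4 (Λ : Submodule ℝ (ι → ℝ)) (a c x g : ι) : Prop :=
  ∀ s t u v : ℝ, ∃ μ ∈ Λ, μ a = s ∧ μ c = t ∧ μ x = u ∧ μ g = v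

lemma Idp4.finrank {Λ : Submodule ℝ (ι → ℝ)} {a c x g : ι} (h : Idp4 Λ a c x g) :
    Module.finrank ℝ (van (van (van (van Λ {a}) {c}) {x}) {g}) + 4 = Module.finrank ℝ Λ := by
  obtain ⟨μ1, m1, a1, c1, x1, g1⟩ := h 1 0 0 0
  obtain ⟨μ2, m2, a2, c2, x2, g2⟩ := h 0 1 0 0
  obtain ⟨μ3, m3, a3, c3, x3, g3⟩ := h 0 0 1 0
  obtain ⟨μ4, m4, a4, c4, x4, g4⟩ := h 0 0 0 1
  have e1 := finrank_van' m1 a1
  have n2 : μ2 ∈ van Λ {a} := ⟨m2, fun i hi => by rw [hi]; exact a2⟩
  have e2 := finrank_van' n2 c2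
  have n3 : μ3 ∈ van (van Λ {a}) {c} :=
    ⟨⟨m3, fun i hi => by rw [hi]; exact a3⟩, fun i hi => by rw [hi]; exact c3⟩
  have e3 := finrank_van' n3 x3
  have n4 : μ4 ∈ van (van (van Λ {a}) {c}) {x} :=
    ⟨⟨⟨m4, fun i hi => by rw [hi]; exact a4⟩, fun i hi => by rw [hi]; exact c4⟩,
      fun i hi => by rw [hi]; exact x4⟩
  have e4 := finrank_van' n4 g4
  omega

/-- mixed planes in direct sum do not exist in dimension four -/
lemma cross4 {Λ : Submodule ℝ (ι → ℝ)} (hH : Hyp Λ) (h4 : Module.finrank ℝ Λ = 4)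
    {a b c x y g : ι} (m1 : Mix Λ a b c) (m2 : Mix Λ x y g) (h : Idp4 Λ a c x g) : False := by
  classical
  have hzero : ∀ μ ∈ Λ, μ a = 0 → μ c = 0 → μ x = 0 → μ g = 0 → μ = 0 := by
    intro μ hμ h1 h2 h3 h5
    have h6 := h.finrank
    have h7 : van (van (van (van Λ {a}) {c}) {x}) {g} = ⊥ := by
      apply Submodule.finrank_eq_zero.mp
      omega
    have h8 : μ ∈ van (van (van (van Λ {a}) {c}) {x}) {g} :=
      ⟨⟨⟨⟨hμ, fun i hi => by rw [hi]; exact h1⟩, fun i hi => by rw [hi]; exact h2⟩,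
        fun i hi => by rw [hi]; exact h3⟩, fun i hi => by rw [hi]; exact h5⟩
    rw [h7] at h8
    exact (Submodule.mem_bot ℝ).mp h8
  obtain ⟨α, mα, aα, cα, xα, gα⟩ := h 1 1 0 0
  obtain ⟨β, mβ, aβ, cβ, xβ, gβ⟩ := h 0 0 1 1
  obtain ⟨p, q, hp, hq, hb⟩ := m1.co
  obtain ⟨p', q', hp', hq', hy⟩ := m2.co
  have bα : α b = p + q := by rw [hb α mα, aα, cα]; ring
  have bβ : β b = 0 := by rw [hb β mβ, aβ, cβ]; ring
  have yα : α y = 0 := by rw [hy α mα, xα, gα]; ring
  have yβ : β y = p' + q' := by rw [hy β mβ, xβ, gβ]; ring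
  have hαF : ∀ f ∈ ({a, b, c} : Finset ι), 0 < α f ∧ β f = 0 := by
    intro f hf
    simp only [Finset.mem_insert, Finset.mem_singleton] at hf
    rcases hf with rfl | rfl | rfl
    · exact ⟨by rw [aα]; exact one_pos, aβ⟩
    · exact ⟨by rw [bα]; linarith, bβ⟩
    · exact ⟨by rw [cα]; exact one_pos, cβ⟩
  have hβE : ∀ e ∈ ({x, y, g} : Finset ι), 0 < β e ∧ α e = 0 := by
    intro f hf
    simp only [Finset.mem_insert, Finset.mem_singleton] at hf
    rcases hf with rfl | rfl | rfl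
    · exact ⟨by rw [xβ]; exact one_pos, xα⟩
    · exact ⟨by rw [yβ]; linarith, yα⟩
    · exact ⟨by rw [gβ]; exact one_pos, gα⟩
  have haF : a ∈ ({a, b, c} : Finset ι) := by simp
  have hbF : b ∈ ({a, b, c} : Finset ι) := by simp
  have hcF : c ∈ ({a, b, c} : Finset ι) := by simp
  have hxE : x ∈ ({x, y, g} : Finset ι) := by simp
  have hyE : y ∈ ({x, y, g} : Finset ι) := by simp
  have hgE : g ∈ ({x, y, g} : Finset ι) := by simp
  -- an element off both planes
  have hφ : α + β ≠ 0 := by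
    intro h1
    have := congrFun h1 a
    simp [aα, aβ] at this
  obtain ⟨w, hw⟩ := hH.ac.neg (Λ.add_mem mα mβ) hφ
  have hwl : ¬ Loop Λ w := nl_of (Λ.add_mem mα mβ) hw.ne
  have hpos : ∀ f, (f ∈ ({a, b, c} : Finset ι) ∨ f ∈ ({x, y, g} : Finset ι)) → ¬ Ray Λ f w := by
    rintro f hf ⟨κ, hκ, h1⟩
    have h2 := h1 _ (Λ.add_mem mα mβ)
    have h3 : 0 < (α + β) f := by
      rcases hf with hf | hf
      · rw [Pi.add_apply, (hαF f hf).2, add_zero]
        exact (hαF f hf).1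
      · rw [Pi.add_apply, (hβE f hf).2, zero_add]
        exact (hβE f hf).1
    have := mul_pos hκ h3
    linarith
  have hwF : ∃ ζ ∈ Λ, ζ a = 0 ∧ ζ c = 0 ∧ ζ w = 1 := by
    by_contra hno
    push Not at hno
    have hcl : ∀ μ ∈ Λ, μ a = 0 → μ c = 0 → μ w = 0 := by
      intro μ hμ h1 h2
      by_contra h3
      exact hno ((μ w)⁻¹ • μ) (Λ.smul_mem _ hμ) (by simp [h1]) (by simp [h2])
        (by simpa using inv_mul_cancel₀ h3)
    rcases m1.fourth hH (by omega) hwl hcl with h1 | h1 | h1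
    · exact hpos a (Or.inl haF) h1
    · exact hpos b (Or.inl hbF) h1
    · exact hpos c (Or.inl hcF) h1
  have hwE : ∃ ζ ∈ Λ, ζ x = 0 ∧ ζ g = 0 ∧ ζ w = 1 := by
    by_contra hno
    push Not at hno
    have hcl : ∀ μ ∈ Λ, μ x = 0 → μ g = 0 → μ w = 0 := by
      intro μ hμ h1 h2
      by_contra h3
      exact hno ((μ w)⁻¹ • μ) (Λ.smul_mem _ hμ) (by simp [h1]) (by simp [h2])
        (by simpa using inv_mul_cancel₀ h3)
    rcases m2.fourth hH (by omega) hwl hcl with h1 | h1 | h1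
    · exact hpos x (Or.inr hxE) h1
    · exact hpos y (Or.inr hyE) h1
    · exact hpos g (Or.inr hgE) h1
  obtain ⟨ζ, hζ, ζa, ζc, ζw⟩ := hwF
  obtain ⟨ζ', hζ', ζx, ζg, ζw'⟩ := hwE
  have hΛ' := finrank_van' hζ ζw
  have hH' := hH.van {w}
  have hng' := hH'.not_good (by omega)
  have M1 : Mix (van Λ {w}) a b c := m1.mono (van_le _ _) (m1.idp.van hζ ζa ζc ζw)
  have M2 : Mix (van Λ {w}) x y g := m2.mono (van_le _ _) (m2.idp.van hζ' ζx ζg ζw')
  obtain ⟨I1, C1⟩ := M1.ind
  obtain ⟨I2, C2⟩ := M2.ind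
  -- a coincidence
  obtain ⟨f, hf, e, he, κ, hκ, hfe⟩ : ∃ f ∈ ({a, b, c} : Finset ι), ∃ e ∈ ({x, y, g} : Finset ι),
      Ray (van Λ {w}) f e := by
    by_contra hno
    push Not at hno
    obtain ⟨h1, h2⟩ := I1.union I2 hno
    have h3 := base hH'.ac hng' (by omega) h1
    omega
  have hδ : ∀ f' e' : ι, ∀ κ' : ℝ, (∀ μ ∈ van Λ {w}, μ e' = κ' * μ f') →
      ∀ μ ∈ Λ, μ e' - κ' * μ f' = μ w * (ζ e' - κ' * ζ f') := by
    intro f' e' κ' h1 μ hμ
    have h2 := h1 _ (adj hζ ζw hμ)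
    simp only [Pi.sub_apply, Pi.smul_apply, smul_eq_mul] at h2
    linarith
  -- only one coincidence
  have huniq : ∀ f' ∈ ({a, b, c} : Finset ι), ∀ e' ∈ ({x, y, g} : Finset ι),
      Ray (van Λ {w}) f' e' → e' = e := by
    intro f' hf' e' he' hfe'
    obtain ⟨κ', hκ', h1⟩ := hfe'
    have d1 := hδ f e κ hfe
    have d2 := hδ f' e' κ' h1
    set δ := ζ e - κ * ζ f with hδ1
    set δ' := ζ e' - κ' * ζ f' with hδ2
    have hδ'0 : δ' ≠ 0 := by
      intro h2
      have h3 := d2 β mβ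
      rw [h2, (hαF f' hf').2] at h3
      have := (hβE e' he').1
      linarith
    have hδ0 : δ ≠ 0 := by
      intro h2
      have h3 := d1 β mβ
      rw [h2, (hαF f hf).2] at h3
      have := (hβE e he).1
      linarith
    have hE0 : ∀ μ ∈ Λ, μ x = 0 → μ g = 0 → ∀ e'' ∈ ({x, y, g} : Finset ι), μ e'' = 0 := by
      intro μ hμ h2 h3 e'' he''
      simp only [Finset.mem_insert, Finset.mem_singleton] at he''
      rcases he'' with rfl | rfl | rfl
      · exact h2
      · rw [hy μ hμ, h2, h3]; ring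
      · exact h3
    have hff : ∀ μ ∈ Λ, μ x = 0 → μ g = 0 → μ f' = (δ' * κ / (κ' * δ)) * μ f := by
      intro μ hμ h2 h3
      have h4 := d1 μ hμ
      have h5 := d2 μ hμ
      rw [hE0 μ hμ h2 h3 e he] at h4
      rw [hE0 μ hμ h2 h3 e' he'] at h5
      have h6 : κ' * δ ≠ 0 := mul_ne_zero hκ'.ne' hδ0
      rw [div_mul_eq_mul_div, eq_div_iff h6]
      linear_combination (δ') * h4 - δ * h5
    have hfeq : f' = f := by
      obtain ⟨μ1, n1, a1, c1, x1, g1⟩ := h 1 0 0 0
      obtain ⟨μ2, n2, a2, c2, x2, g2⟩ := h 0 1 0 0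
      have k1 := hff μ1 n1 x1 g1
      have k2 := hff μ2 n2 x2 g2
      generalize δ' * κ / (κ' * δ) = ρ at k1 k2
      have b1 : μ1 b = p := by rw [hb μ1 n1, a1, c1]; ring
      have b2 : μ2 b = q := by rw [hb μ2 n2, a2, c2]; ring
      simp only [Finset.mem_insert, Finset.mem_singleton] at hf hf'
      rcases hf with rfl | rfl | rfl <;> rcases hf' with rfl | rfl | rfl
      · rfl
      · exfalso; rw [b2, a2, mul_zero] at k2; exact hq.ne' k2
      · exfalso; rw [c2, a2, mul_zero] at k2; exact one_ne_zero k2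
      · exfalso
        rw [a2, b2] at k2
        rw [a1, b1] at k1
        have : ρ = 0 := (mul_eq_zero.mp k2.symm).resolve_right hq.ne'
        rw [this, zero_mul] at k1
        exact one_ne_zero k1
      · rfl
      · exfalso
        rw [c2, b2] at k2
        rw [c1, b1] at k1
        have : ρ = 0 := (mul_eq_zero.mp k1.symm).resolve_right hp.ne'
        rw [this, zero_mul] at k2
        exact one_ne_zero k2
      · exfalso; rw [a1, c1, mul_zero] at k1; exact one_ne_zero k1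
      · exfalso; rw [b1, c1, mul_zero] at k1; exact hp.ne' k1
      · rfl
    by_contra hne
    have h2 : Ray (van Λ {w}) e' e := by
      have h3 : Ray (van Λ {w}) f e' := by
        rw [← hfeq]
        exact ⟨κ', hκ', h1⟩
      exact h3.symm.trans ⟨κ, hκ, hfe⟩
    exact I2.2 e' he' e he hne h2
  -- a functional which is positive on the six elements
  let ψ : ι → ℝ := (β e) • α + (κ * α f) • β
  have hψ : ψ ∈ Λ := Λ.add_mem (Λ.smul_mem _ mα) (Λ.smul_mem _ mβ)
  have hαf := (hαF f hf).1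
  have hβe := (hβE e he).1
  have hψF : ∀ f' ∈ ({a, b, c} : Finset ι), 0 < ψ f' := by
    intro f' hf'
    simp only [ψ, Pi.add_apply, Pi.smul_apply, smul_eq_mul, (hαF f' hf').2, mul_zero, add_zero]
    exact mul_pos hβe (hαF f' hf').1
  have hψE : ∀ e' ∈ ({x, y, g} : Finset ι), 0 < ψ e' := by
    intro e' he'
    simp only [ψ, Pi.add_apply, Pi.smul_apply, smul_eq_mul, (hβE e' he').2, mul_zero, zero_add]
    exact mul_pos (mul_pos hκ hαf) (hβE e' he').1
  have hψw : ψ w = 0 := by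
    have h1 := hδ f e κ hfe ψ hψ
    have h2 : ψ e - κ * ψ f = 0 := by
      simp only [ψ, Pi.add_apply, Pi.smul_apply, smul_eq_mul, (hβE e he).2, (hαF f hf).2]
      ring
    rw [h2] at h1
    have h3 : ζ e - κ * ζ f ≠ 0 := by
      intro h3
      have h4 := hδ f e κ hfe β mβ
      rw [h3, (hαF f hf).2] at h4
      linarith
    exact (mul_eq_zero.mp h1.symm).resolve_right h3
  have hψ' : ψ ∈ van Λ {w} := ⟨hψ, fun i hi => by rw [hi]; exact hψw⟩
  have hψ0 : ψ ≠ 0 := by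
    intro h1
    have := hψF a haF
    rw [h1] at this
    exact lt_irrefl _ this
  obtain ⟨i, hi⟩ := hH'.ac.neg hψ' hψ0
  -- six rays
  have I3 : Ind (van Λ {w}) (({x, y, g} : Finset ι).erase e) := I2.mono (Finset.erase_subset _ _)
  have C3 := Finset.card_erase_of_mem he
  obtain ⟨I4, C4⟩ := I1.union I3 fun f' hf' e' he' hr => by
    obtain ⟨h1, h2⟩ := Finset.mem_erase.mp he'
    exact h1 (huniq f' hf' e' h2 hr)
  obtain ⟨I5, C5⟩ := I4.ins (nl_of hψ' hi.ne) fun k hk hr => by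
    have h1 : 0 < ψ k := by
      rcases Finset.mem_union.mp hk with hk | hk
      · exact hψF k hk
      · exact hψE k (Finset.mem_of_mem_erase hk)
    obtain ⟨κ', hκ', h2⟩ := hr
    have h3 := h2 ψ hψ'
    have := mul_neg_of_pos_of_neg hκ' hi
    linarith
  have h3 := base hH'.ac hng' (by omega) I5
  omega

/-- mixed planes in direct sum do not exist -/
lemma cross (n : ℕ) (hn : 4 ≤ n) : ∀ Λ : Submodule ℝ (ι → ℝ), Module.finrank ℝ Λ = n → Hyp Λ →
    ∀ a b c x y g, Mix Λ a b c → Mix Λ x y g → Idp4 Λ a c x g → False := by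
  induction n, hn using Nat.le_induction with
  | base => exact fun Λ h4 hH a b c x y g m1 m2 h => cross4 hH h4 m1 m2 h
  | succ n hn ih =>
    intro Λ hΛ hH a b c x y g m1 m2 h
    have h1 := h.finrank
    obtain ⟨ζ, hζ, w, hw⟩ := exists_ne (Λ := van (van (van (van Λ {a}) {c}) {x}) {g}) (by omega)
    have ζa : ζ a = 0 := hζ.1.1.1.2 a rfl
    have ζc : ζ c = 0 := hζ.1.1.2 c rfl
    have ζx : ζ x = 0 := hζ.1.2 x rfl
    have ζg : ζ g = 0 := hζ.2 g rfl
    have hζ' : ζ ∈ Λ := hζ.1.1.1.1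
    have h2 := finrank_van' hζ' hw
    refine ih (van Λ {w}) (by omega) (hH.van _) a b c x y g
      (m1.mono (van_le _ _) (m1.idp.van hζ' ζa ζc hw))
      (m2.mono (van_le _ _) (m2.idp.van hζ' ζx ζg hw)) fun s t u v => ?_
    obtain ⟨μ, hμ, e1, e2, e3, e4⟩ := h s t u v
    exact ⟨_, adj hζ' hw hμ, by simp [ζa, e1], by simp [ζc, e2], by simp [ζx, e3],
      by simp [ζg, e4]⟩

/-- the number of rays -/
theorem rays (n : ℕ) (hn : 3 ≤ n) : ∀ Λ : Submodule ℝ (ι → ℝ), Module.finrank ℝ Λ = n → Hyp Λ →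
    ∀ R : Finset ι, Ind Λ R → R.card ≤ n + 2 := by
  classical
  induction n, hn using Nat.le_induction with
  | base => exact fun Λ h3 hH R hR => base hH.ac (hH.not_good h3.ge) h3 hR
  | succ n hn ih =>
    intro Λ hΛ hH R hR
    by_contra hcard
    push Not at hcard
    -- every element is opposite to another one or extreme in a mixed triple
    have S1 : ∀ g ∈ R, (∃ k ∈ R, ∃ κ : ℝ, 0 < κ ∧ ∀ μ ∈ Λ, μ k = -κ * μ g) ∨
        ∃ x y, Mix Λ x y g := by
      intro g hg
      by_contra hno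
      push Not at hno
      obtain ⟨hno1, hno2⟩ := hno
      obtain ⟨γ, hγ, hγg⟩ := exists_one (hR.1 g hg)
      have h1 := finrank_van' hγ hγg
      have hpar : ∀ k ∈ R.erase g, ¬ Par Λ g k := by
        intro k hk hpar
        obtain ⟨hk1, hk2⟩ := Finset.mem_erase.mp hk
        have h2 : ∀ μ ∈ Λ, μ k = γ k * μ g := fun μ hμ => par_coeff hγ hγg hpar hμ
        rcases lt_trichotomy (γ k) 0 with h3 | h3 | h3
        · obtain ⟨μ, hμ, h4⟩ := hno1 k hk2 (-γ k) (by linarith)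
          apply h4
          rw [h2 μ hμ, neg_neg]
        · exact hR.1 k hk2 fun μ hμ => by rw [h2 μ hμ, h3, zero_mul]
        · exact hR.2 g hg k hk2 (Ne.symm hk1) ⟨γ k, h3, h2⟩
      have h2 : Ind (van Λ {g}) (R.erase g) := by
        refine ⟨fun k hk hl => hpar k hk fun μ hμ h0 => hl μ ⟨hμ, fun i hi => by rw [hi]; exact h0⟩,
          fun k hk m hm hkm hr => ?_⟩
        obtain ⟨c, hc, hr⟩ := hr
        obtain ⟨hk1, hk2⟩ := Finset.mem_erase.mp hk
        obtain ⟨hm1, hm2⟩ := Finset.mem_erase.mp hm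
        have h3 : ∀ μ ∈ Λ, μ m = c * μ k + (γ m - c * γ k) * μ g := by
          intro μ hμ
          have := hr _ (adj hγ hγg hμ)
          simp only [Pi.sub_apply, Pi.smul_apply, smul_eq_mul] at this
          linarith
        rcases lt_trichotomy (γ m - c * γ k) 0 with h4 | h4 | h4
        · -- `k` is in the middle of `m` and `g`
          refine hno2 m k ⟨(idp_of (hR.1 g hg) (hpar m hm)).symm, c⁻¹, c⁻¹ * -(γ m - c * γ k),
            inv_pos.mpr hc, mul_pos (inv_pos.mpr hc) (by linarith), fun μ hμ => ?_⟩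
          rw [h3 μ hμ]
          field_simp
          ring
        · exact hR.2 k hk2 m hm2 hkm ⟨c, hc, fun μ hμ => by rw [h3 μ hμ, h4]; ring⟩
        · exact hno2 k m ⟨(idp_of (hR.1 g hg) (hpar k hk)).symm, c, _, hc, h4, h3⟩
      have h3 := ih (van Λ {g}) (by omega) (hH.van _) _ h2
      rw [Finset.card_erase_of_mem hg] at h3
      omega
    -- a mixed triple
    obtain ⟨a, b, c, hm⟩ : ∃ a b c, Mix Λ a b c := by
      by_contra hno
      push Not at hno
      have hop : ∀ g ∈ R, ∃ k ∈ R, ∃ κ : ℝ, 0 < κ ∧ ∀ μ ∈ Λ, μ k = -κ * μ g := by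
        intro g hg
        rcases S1 g hg with h1 | ⟨x, y, h1⟩
        · exact h1
        · exact absurd h1 (hno x y g)
      obtain ⟨g, hg⟩ : R.Nonempty := Finset.card_pos.mp (by omega)
      obtain ⟨g', hg', κ, hκ, hgg⟩ := hop g hg
      obtain ⟨h, hh⟩ : ((R.erase g).erase g').Nonempty := by
        apply Finset.card_pos.mp
        have h1 := Finset.pred_card_le_card_erase (s := R) (a := g)
        have h2 := Finset.pred_card_le_card_erase (s := R.erase g) (a := g')
        omega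
      obtain ⟨hh1, hh2⟩ := Finset.mem_erase.mp hh
      obtain ⟨hh3, hh4⟩ := Finset.mem_erase.mp hh2
      obtain ⟨h', hh', κ', hκ', hhh⟩ := hop h hh4
      obtain ⟨γ, hγ, hγg⟩ := exists_one (hR.1 g hg)
      have hpar : ¬ Par Λ g h := by
        intro hpar
        have h2 : ∀ μ ∈ Λ, μ h = γ h * μ g := fun μ hμ => par_coeff hγ hγg hpar hμ
        rcases lt_trichotomy (γ h) 0 with h3 | h3 | h3
        · refine hR.2 g' hg' h hh4 (Ne.symm hh1) ⟨-γ h / κ, div_pos (by linarith) hκ,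
            fun μ hμ => ?_⟩
          rw [h2 μ hμ, hgg μ hμ]
          field_simp
        · exact hR.1 h hh4 fun μ hμ => by rw [h2 μ hμ, h3, zero_mul]
        · exact hR.2 g hg h hh4 (Ne.symm hh3) ⟨γ h, h3, h2⟩
      have hidp := idp_of (hR.1 g hg) hpar
      obtain ⟨μ1, n1, e1, e2⟩ := hidp 1 0
      obtain ⟨μ2, n2, e3, e4⟩ := hidp 0 1
      rcases planeQ4 hH (by omega) hidp g g' h h' (hR.1 g hg) (hR.1 g' hg') (hR.1 h hh4)
        (hR.1 h' hh') (fun μ _ h1 _ => h1) (fun μ hμ h1 _ => by rw [hgg μ hμ, h1, mul_zero])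
        (fun μ _ _ h2 => h2) (fun μ hμ _ h2 => by rw [hhh μ hμ, h2, mul_zero])
        with ⟨k, hk, h5⟩ | ⟨k, hk, h5⟩ | ⟨k, hk, h5⟩ | ⟨k, hk, h5⟩ | ⟨k, hk, h5⟩ | ⟨k, hk, h5⟩
      · have := h5 μ1 n1
        rw [hgg μ1 n1, e1] at this
        linarith
      · have := h5 μ2 n2
        rw [e3, e4] at this
        linarith
      · have := h5 μ2 n2
        rw [hhh μ2 n2, e3, e4] at this
        linarith
      · have := h5 μ2 n2
        rw [hgg μ2 n2, e3, e4] at this
        linarith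
      · have := h5 μ2 n2
        rw [hhh μ2 n2, hgg μ2 n2, e3, e4] at this
        linarith
      · have := h5 μ2 n2
        rw [hhh μ2 n2, e4] at this
        linarith
    -- an element off the plane
    obtain ⟨g, hg, ζ, hζ, ζa, ζc, ζg⟩ : ∃ g ∈ R, ∃ ζ ∈ Λ, ζ a = 0 ∧ ζ c = 0 ∧ ζ g = 1 := by
      by_contra hno
      push Not at hno
      have h1 := planeQ _ (by omega) Λ hΛ hH a c hm.idp R hR fun r hr μ hμ h1 h2 => by
        by_contra h3
        exact hno r hr ((μ r)⁻¹ • μ) (Λ.smul_mem _ hμ) (by simp [h1]) (by simp [h2])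
          (by simpa using inv_mul_cancel₀ h3)
      omega
    rcases S1 g hg with ⟨k, hk, κ, hκ, h1⟩ | ⟨x, y, hx⟩
    · -- opposite elements
      obtain ⟨κ', hκ', h2⟩ := hm.mod hH (by omega) hζ ζa ζc ζg (ξ := -κ) (g' := k) (by linarith)
        fun μ hμ _ _ => h1 μ hμ
      have h3 := h2 ζ hζ
      rw [h1 ζ hζ, ζg] at h3
      linarith
    · obtain ⟨p, q, hp, hq, hy⟩ := hx.co
      -- the second plane is independent of the first one
      obtain ⟨η, hη, ηa, ηc, ηg, ηx⟩ : ∃ η ∈ Λ, η a = 0 ∧ η c = 0 ∧ η g = 0 ∧ η x = 1 := by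
        by_contra hno
        push Not at hno
        have hxc : ∀ μ ∈ Λ, μ a = 0 → μ c = 0 → μ x = ζ x * μ g := by
          intro μ hμ h1 h2
          by_contra h3
          have h4 : (μ - μ g • ζ) x ≠ 0 := by
            simp only [Pi.sub_apply, Pi.smul_apply, smul_eq_mul]
            intro h5
            apply h3
            linarith
          exact hno (((μ - μ g • ζ) x)⁻¹ • (μ - μ g • ζ))
            (Λ.smul_mem _ (Λ.sub_mem hμ (Λ.smul_mem _ hζ))) (by simp [h1, ζa]) (by simp [h2, ζc])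
            (by simp [ζg]) (by
              rw [Pi.smul_apply, smul_eq_mul]
              exact inv_mul_cancel₀ h4)
        by_cases h1 : ζ x = 0
        · obtain ⟨κ', hκ', h2⟩ := hm.mod hH (by omega) hζ ζa ζc ζg (ξ := q) (g' := y) hq.ne'
            fun μ hμ h3 h4 => by rw [hy μ hμ, hxc μ hμ h3 h4, h1]; ring
          exact hx.symm.ab κ' h2
        · obtain ⟨κ', hκ', h2⟩ := hm.mod hH (by omega) hζ ζa ζc ζg (ξ := ζ x) (g' := x) h1 hxc
          exact idp_ne hx.idp.symm κ' h2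
      refine cross _ (by omega) Λ hΛ hH a b c x y g hm hx fun s t u v => ?_
      obtain ⟨μ, hμ, e1, e2⟩ := hm.idp s t
      refine ⟨μ + (v - μ g) • ζ + (u - μ x - (v - μ g) * ζ x) • η,
        Λ.add_mem (Λ.add_mem hμ (Λ.smul_mem _ hζ)) (Λ.smul_mem _ hη), ?_, ?_, ?_, ?_⟩
      · simp [e1, ζa, ηa]
      · simp [e2, ζc, ηc]
      · simp only [Pi.add_apply, Pi.smul_apply, smul_eq_mul, ηx]
        ring
      · simp only [Pi.add_apply, Pi.smul_apply, smul_eq_mul, ηg, ζg]
        ring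

end Pool.Agent.FX
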