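import Pool.Agent.Lib_helper67.FX.Main
import Pool.Agent.Lib_helper67.FX.Rays

/-!
A set whose dual has at most two more rays than its dimension: composite points on a line.
-/

set_option autoImplicit false
set_option linter.unusedSectionVars false

namespace Pool.Agent.FX

open scoped BigOperators Topology
open Module Filter Pool.Agent

section count

variable {ι : Type*}

lemma exists_inj (S : Finset ι) (r : ℕ) (h : r ≤ S.card) :
    ∃ f : Fin r → ι, Function.Injective f ∧ ∀ q, f q ∈ S := by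
  refine ⟨fun q => (S.equivFin.symm (Fin.castLE h q) : ι), fun a b hab => ?_, fun q => ?_⟩
  · have h1 := S.equivFin.symm.injective (Subtype.ext hab)
    exact Fin.castLE_injective h h1
  · exact (S.equivFin.symm (Fin.castLE h q)).2

lemma exists_injOn (A B : Finset ι) (h : A.card ≤ B.card) :
    ∃ e : ι → ι, (∀ k ∈ A, e k ∈ B) ∧ ∀ k ∈ A, ∀ l ∈ A, e k = e l → k = l := by
  classical
  refine ⟨fun k => if hk : k ∈ A then (B.equivFin.symm (Fin.castLE h (A.equivFin ⟨k, hk⟩)) : ι)
    else k, fun k hk => ?_, fun k hk l hl hkl => ?_⟩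
  · simp only [dif_pos hk]
    exact (B.equivFin.symm _).2
  · simp only [dif_pos hk, dif_pos hl] at hkl
    have h1 := A.equivFin.injective (Fin.castLE_injective h (B.equivFin.symm.injective
      (Subtype.ext hkl)))
    exact congrArg Subtype.val h1

/-- a median -/
lemma exists_median (R : Finset ι) (hR : R.Nonempty) (s : ι → ℝ) :
    ∃ ζ : ℝ, (R.filter fun k => s k < ζ).card ≤ (R.filter fun k => ζ ≤ s k).card ∧
      (R.filter fun k => ζ < s k).card ≤ (R.filter fun k => s k ≤ ζ).card := by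
  classical
  let S := R.filter fun k => (R.filter fun l => s k < s l).card ≤ (R.filter fun l => s l ≤ s k).card
  have hS : S.Nonempty := by
    obtain ⟨k, hk, hmax⟩ := Finset.exists_max_image R s hR
    refine ⟨k, Finset.mem_filter.mpr ⟨hk, ?_⟩⟩
    rw [Finset.filter_false_of_mem fun l hl => not_lt.mpr (hmax l hl)]
    simp
  obtain ⟨k, hk, hmin⟩ := Finset.exists_min_image S s hS
  obtain ⟨hkR, hk1⟩ := Finset.mem_filter.mp hk
  refine ⟨s k, ?_, hk1⟩
  rcases (R.filter fun l => s l < s k).eq_empty_or_nonempty with h0 | h0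
  · rw [h0]
    simp
  · obtain ⟨l, hl, hmax⟩ := Finset.exists_max_image _ s h0
    obtain ⟨hlR, hlk⟩ := Finset.mem_filter.mp hl
    have h1 : l ∉ S := fun h => absurd (hmin l h) (not_le.mpr hlk)
    have h2 : ¬ (R.filter fun m => s l < s m).card ≤ (R.filter fun m => s m ≤ s l).card := by
      intro h
      exact h1 (Finset.mem_filter.mpr ⟨hlR, h⟩)
    have h3 : (R.filter fun m => s l < s m) = R.filter fun m => s k ≤ s m := by
      apply Finset.filter_congr
      intro m hm
      constructor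
      · intro h
        by_contra h'
        push Not at h'
        have := hmax m (Finset.mem_filter.mpr ⟨hm, h'⟩)
        linarith
      · intro h
        linarith
    have h4 : (R.filter fun m => s m ≤ s l) = R.filter fun m => s m < s k := by
      apply Finset.filter_congr
      intro m hm
      constructor
      · intro h
        linarith
      · intro h
        exact hmax m (Finset.mem_filter.mpr ⟨hm, h⟩)
    rw [h3, h4] at h2
    omega

end count

variable {d : ℕ}

open Classical in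
/-- the ratio of the coordinates `i` and `k` of one ray -/
noncomputable def cf {ι : Type*} (Λ : Submodule ℝ (ι → ℝ)) (k i : ι) : ℝ :=
  if h : Ray Λ k i ∧ ¬ Loop Λ k then h.1.choose else 0

section cf

variable {ι : Type*} {Λ : Submodule ℝ (ι → ℝ)}

lemma cf_spec {k i : ι} (h : Ray Λ k i) (hk : ¬ Loop Λ k) :
    0 < cf Λ k i ∧ ∀ μ ∈ Λ, μ i = cf Λ k i * μ k := by
  have h1 : cf Λ k i = h.choose := dif_pos ⟨h, hk⟩
  rw [h1]
  exact h.choose_spec

lemma cf_zero {k i : ι} (h : ¬ Ray Λ k i) : cf Λ k i = 0 := dif_neg fun h' => h h'.1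

lemma cf_nonneg (k i : ι) : 0 ≤ cf Λ k i := by
  by_cases h : Ray Λ k i ∧ ¬ Loop Λ k
  · exact (cf_spec h.1 h.2).1.le
  · rw [cf, dif_neg h]

lemma cf_ray {k i : ι} (h : cf Λ k i ≠ 0) : Ray Λ k i := by
  by_contra h'
  exact h (cf_zero h')

end cf

section rep

variable {ι : Type*} [Fintype ι] {Λ : Submodule ℝ (ι → ℝ)}

lemma cf_self {k : ι} (hk : ¬ Loop Λ k) : cf Λ k k = 1 := by
  obtain ⟨μ, hμ, h1⟩ := exists_one hk
  have := (cf_spec (Ray.refl Λ k) hk).2 μ hμ
  rw [h1, mul_one] at this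
  exact this.symm

/-- representatives of the rays -/
structure RRep (Λ : Submodule ℝ (ι → ℝ)) (R : Finset ι) : Prop where
  ind : Ind Λ R
  cov : ∀ i, ¬ Loop Λ i → ∃ k ∈ R, Ray Λ k i

lemma exists_rrep (Λ : Submodule ℝ (ι → ℝ)) : ∃ R, RRep Λ R := by
  classical
  obtain ⟨R, hR, hmax⟩ := Finset.exists_max_image (Finset.univ.filter fun R => Ind Λ R)
    Finset.card ⟨∅, by simp [ind_empty]⟩
  have hP : Ind Λ R := (Finset.mem_filter.mp hR).2
  refine ⟨R, hP, fun i hi => ?_⟩
  by_contra hno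
  push Not at hno
  obtain ⟨h1, h2⟩ := hP.ins hi fun k hk h => hno k hk h.symm
  have h3 := hmax _ (Finset.mem_filter.mpr ⟨Finset.mem_univ _, h1⟩)
  omega

lemma RRep.cf_zero {R : Finset ι} (h : RRep Λ R) {k l i : ι} (hk : k ∈ R) (hl : l ∈ R)
    (hkl : k ≠ l) (hi : cf Λ k i ≠ 0) : cf Λ l i = 0 := by
  apply FX.cf_zero
  intro h1
  exact h.ind.2 k hk l hl hkl ((cf_ray hi).trans h1.symm)

lemma RRep.sum {R : Finset ι} (h : RRep Λ R) {μ : ι → ℝ} (hμ : μ ∈ Λ) (i : ι) :
    μ i = ∑ k ∈ R, μ k * cf Λ k i := by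
  classical
  by_cases hi : Loop Λ i
  · rw [hi μ hμ]
    symm
    apply Finset.sum_eq_zero
    intro k hk
    by_cases h1 : Ray Λ k i
    · have h2 := (cf_spec h1 (h.ind.1 k hk)).2 μ hμ
      rw [hi μ hμ] at h2
      rw [mul_comm, ← h2]
    · rw [FX.cf_zero h1, mul_zero]
  · obtain ⟨k, hk, h1⟩ := h.cov i hi
    rw [Finset.sum_eq_single_of_mem k hk]
    · rw [mul_comm]
      exact (cf_spec h1 (h.ind.1 k hk)).2 μ hμ
    · intro l hl hlk
      rw [h.cf_zero hk hl (Ne.symm hlk) (cf_spec h1 (h.ind.1 k hk)).1.ne', mul_zero]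

lemma RRep.finrank {R : Finset ι} (h : RRep Λ R) :
    Module.finrank ℝ (Λ.map (rst R)) = Module.finrank ℝ Λ := by
  rw [← LinearMap.range_domRestrict]
  apply LinearMap.finrank_range_of_inj
  rw [← LinearMap.ker_eq_bot, LinearMap.ker_eq_bot']
  intro μ h0
  refine Subtype.ext (funext fun i => ?_)
  rw [h.sum μ.2 i]
  apply Finset.sum_eq_zero
  intro k hk
  have := congrFun h0 ⟨k, hk⟩
  have h1 : (μ : ι → ℝ) k = 0 := this
  rw [h1, zero_mul]

end rep

/-- the composite points -/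
noncomputable def comp (X : Finset (Fin d → ℝ)) (k : {x // x ∈ X}) : (Fin d → ℝ) × ℝ :=
  dmap X (cf (dep X) k)

lemma comp_snd (X : Finset (Fin d → ℝ)) {k : {x // x ∈ X}} (hk : ¬ Loop (dep X) k) :
    0 < (comp X k).2 := by
  rw [comp, dmap_apply, Prod.snd_sum]
  have h1 : ∀ x : {x // x ∈ X}, (cf (dep X) k x • RY.lf d (x : Fin d → ℝ)).2 = cf (dep X) k x := by
    intro x
    simp
  rw [Finset.sum_congr rfl fun x _ => h1 x]
  refine Finset.sum_pos' (fun x _ => cf_nonneg k x) ⟨k, Finset.mem_univ _, ?_⟩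
  rw [cf_self hk]
  exact one_pos

/-- the map `ν ↦ ∑ ν_k y_k` -/
noncomputable def cmap (X : Finset (Fin d → ℝ)) (R : Finset {x // x ∈ X}) :
    ({k // k ∈ R} → ℝ) →ₗ[ℝ] (Fin d → ℝ) × ℝ :=
  Fintype.linearCombination ℝ (fun k : {k // k ∈ R} => comp X k)

lemma cmap_apply (X : Finset (Fin d → ℝ)) (R : Finset {x // x ∈ X}) (ν : {k // k ∈ R} → ℝ) :
    cmap X R ν = ∑ k, ν k • comp X k := by
  rw [cmap, Fintype.linearCombination_apply]

lemma ker_cmap {X : Finset (Fin d → ℝ)} {R : Finset {x // x ∈ X}} (h : RRep (dep X) R) :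
    LinearMap.ker (cmap X R) = (dep X).map (rst R) := by
  classical
  ext ν
  rw [LinearMap.mem_ker, cmap_apply]
  have key : ∀ ν : {k // k ∈ R} → ℝ,
      ∑ k, ν k • comp X k = dmap X (∑ k : {k // k ∈ R}, ν k • cf (dep X) k) := by
    intro ν
    rw [map_sum]
    exact Finset.sum_congr rfl fun k _ => by rw [map_smul]; rfl
  constructor
  · intro h0
    refine ⟨∑ k : {k // k ∈ R}, ν k • cf (dep X) k, ?_, ?_⟩
    · rw [key] at h0
      exact LinearMap.mem_ker.mpr h0
    · funext l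
      rw [rst_apply, Finset.sum_apply, Finset.sum_eq_single_of_mem l (Finset.mem_univ _)]
      · simp [cf_self (h.ind.1 l l.2)]
      · intro k _ hkl
        have h1 : (k : {x // x ∈ X}) ≠ l := fun h => hkl (Subtype.ext h)
        rw [Pi.smul_apply, h.cf_zero l.2 k.2 (Ne.symm h1)
          (by rw [cf_self (h.ind.1 l l.2)]; exact one_ne_zero), smul_zero]
  · rintro ⟨μ, hμ, rfl⟩
    rw [key]
    have h1 : ∑ k : {k // k ∈ R}, rst R μ k • cf (dep X) k = μ := by
      funext i
      rw [h.sum hμ i, Finset.sum_apply]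
      exact Finset.sum_coe_sort R (fun k => μ k * cf (dep X) k i)
    rw [h1]
    exact LinearMap.mem_ker.mp hμ

lemma finrank_cmap {X : Finset (Fin d → ℝ)} {R : Finset {x // x ∈ X}} (h : RRep (dep X) R) :
    finrank ℝ (LinearMap.range (cmap X R)) + finrank ℝ (dep X) = R.card := by
  have h1 := LinearMap.finrank_range_add_finrank_ker (cmap X R)
  rw [ker_cmap h, h.finrank, finrank_fintype_fun_eq_card, Fintype.card_coe] at h1
  exact h1

/-- composite points with a common cell -/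
lemma cell {X : Finset (Fin d → ℝ)} {R : Finset {x // x ∈ X}} (h : RRep (dep X) R) {r : ℕ}
    (hr : 1 ≤ r) (f g : Fin r → {x // x ∈ X}) (hf : ∀ q, f q ∈ R) (hg : ∀ q, g q ∈ R)
    (hff : ∀ p q, p ≠ q → f p ≠ f q) (hgg : ∀ p q, p ≠ q → g p ≠ g q)
    (hfg : ∀ p q, p ≠ q → f p ≠ g q) (z : (Fin d → ℝ) × ℝ)
    (hz : ∀ q, ∃ a b : ℝ, 0 < a ∧ 0 < b ∧ z = a • comp X (f q) + b • comp X (g q))
    (W : Submodule ℝ ((Fin d → ℝ) × ℝ))
    (hW : ∀ q, W ≤ Submodule.span ℝ {comp X (f q), comp X (g q)}) (hk : 1 ≤ finrank ℝ W) :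
    (finrank ℝ W : ℤ) - 1 ≤ KL.dimT r X := by
  classical
  let em : {x // x ∈ X} ↪ (Fin d → ℝ) × ℝ := (Function.Embedding.subtype _).trans (RY.lf d)
  have hem : ∀ i, em i = RY.lf d (i : Fin d → ℝ) := fun i => rfl
  let S : Fin r → Finset {x // x ∈ X} := fun q =>
    Finset.univ.filter fun i => cf (dep X) (f q) i ≠ 0 ∨ cf (dep X) (g q) i ≠ 0
  have hdis : ∀ p q, p ≠ q → Disjoint (S p) (S q) := by
    intro p q hpq
    rw [Finset.disjoint_left]
    intro i hi hi'
    have hi1 := (Finset.mem_filter.mp hi).2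
    have hi2 := (Finset.mem_filter.mp hi').2
    rcases hi1 with h1 | h1 <;> rcases hi2 with h2 | h2
    · exact h2 (h.cf_zero (hf p) (hf q) (hff p q hpq) h1)
    · exact h2 (h.cf_zero (hf p) (hg q) (hfg p q hpq) h1)
    · exact h2 (h.cf_zero (hg p) (hf q) (Ne.symm (hfg q p (Ne.symm hpq))) h1)
    · exact h2 (h.cf_zero (hg p) (hg q) (hgg p q hpq) h1)
  have hcomp : ∀ k, ∀ T : Finset {x // x ∈ X}, (∀ i, cf (dep X) k i ≠ 0 → i ∈ T) →
      comp X k = ∑ i ∈ T, cf (dep X) k i • em i := by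
    intro k T hT
    rw [comp, dmap_apply]
    symm
    apply Finset.sum_subset (Finset.subset_univ T)
    intro i _ hi
    have : cf (dep X) k i = 0 := by
      by_contra h1
      exact hi (hT i h1)
    rw [this, zero_smul]
  have hSf : ∀ q i, cf (dep X) (f q) i ≠ 0 → i ∈ S q := fun q i hi =>
    Finset.mem_filter.mpr ⟨Finset.mem_univ _, Or.inl hi⟩
  have hSg : ∀ q i, cf (dep X) (g q) i ≠ 0 → i ∈ S q := fun q i hi =>
    Finset.mem_filter.mpr ⟨Finset.mem_univ _, Or.inr hi⟩
  refine RY.dimT_ge hr X (fun q => (S q).map em) ?_ ?_ z ?_ W ?_ hk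
  · intro q v hv
    obtain ⟨i, _, rfl⟩ := Finset.mem_map.mp hv
    exact Finset.mem_map.mpr ⟨i, i.2, rfl⟩
  · intro p q hpq
    rw [Finset.disjoint_map]
    exact hdis p q hpq
  · intro q
    obtain ⟨a, b, ha, hb, hzq⟩ := hz q
    refine ⟨fun v => if hv : v.1 ∈ X then a * cf (dep X) (f q) ⟨v.1, hv⟩
      + b * cf (dep X) (g q) ⟨v.1, hv⟩ else 1, fun v hv => ?_, ?_⟩
    · obtain ⟨i, hi, rfl⟩ := Finset.mem_map.mp hv
      have h1 : (em i).1 ∈ X := i.2
      simp only [dif_pos h1]
      have h2 : (⟨(em i).1, h1⟩ : {x // x ∈ X}) = i := rfl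
      rw [h2]
      rcases (Finset.mem_filter.mp hi).2 with h3 | h3
      · have h4 := lt_of_le_of_ne (cf_nonneg (Λ := dep X) (f q) i) (Ne.symm h3)
        have h5 := mul_pos ha h4
        have h6 := mul_nonneg hb.le (cf_nonneg (Λ := dep X) (g q) i)
        linarith
      · have h4 := lt_of_le_of_ne (cf_nonneg (Λ := dep X) (g q) i) (Ne.symm h3)
        have h5 := mul_pos hb h4
        have h6 := mul_nonneg ha.le (cf_nonneg (Λ := dep X) (f q) i)
        linarith
    · rw [hzq, hcomp (f q) (S q) (hSf q), hcomp (g q) (S q) (hSg q), Finset.sum_map,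
        Finset.smul_sum, Finset.smul_sum, ← Finset.sum_add_distrib]
      refine Finset.sum_congr rfl fun i _ => ?_
      have h1 : (em i).1 ∈ X := i.2
      simp only [dif_pos h1]
      have h2 : (⟨(em i).1, h1⟩ : {x // x ∈ X}) = i := rfl
      rw [h2, smul_smul, smul_smul, ← add_smul]
  · intro q
    refine (hW q).trans (Submodule.span_le.mpr ?_)
    intro v hv
    have key : ∀ k, (∀ i, cf (dep X) k i ≠ 0 → i ∈ S q) →
        comp X k ∈ Submodule.span ℝ (((S q).map em : Finset _) : Set ((Fin d → ℝ) × ℝ)) := by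
      intro k hk
      rw [hcomp k (S q) hk]
      refine Submodule.sum_mem _ fun i hi => Submodule.smul_mem _ _ (Submodule.subset_span ?_)
      exact Finset.mem_coe.mpr (Finset.mem_map_of_mem em hi)
    rcases hv with rfl | hv
    · exact key _ (hSf q)
    · rw [Set.mem_singleton_iff] at hv
      rw [hv]
      exact key _ (hSg q)

end Pool.Agent.FX
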