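import Pool.Agent.Lib_helper67.FX.Geom

/-!
Kalai's inequality for sets with few points more than their dimension.
-/

set_option autoImplicit false
set_option linter.unusedSectionVars false

namespace Pool.Agent.FX

open scoped BigOperators Topology
open Module Filter Pool.Agent

variable {d : ℕ}

lemma T_nonempty {r : ℕ} {X : Finset (Fin d → ℝ)} (hX : X.Nonempty) (h : ¬ TF r (dep X)) :
    (KL.T (r + 1) X).Nonempty := by
  rw [Set.nonempty_iff_ne_empty]
  exact fun h' => h (tf_of_T_empty hX h')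

lemma T_mono {i j : ℕ} (hi : 1 ≤ i) (hij : i ≤ j) {X : Finset (Fin d → ℝ)}
    (h : (KL.T j X).Nonempty) : (KL.T i X).Nonempty := by
  rw [Set.nonempty_iff_ne_empty] at h ⊢
  exact fun h' => h (KL.T_empty_mono hi hij h')

lemma T_one {X : Finset (Fin d → ℝ)} (hX : X.Nonempty) : (KL.T 1 X).Nonempty := by
  obtain ⟨x, hx⟩ := hX
  refine ⟨x, Set.mem_iUnion.mpr ⟨fun _ => 0, Set.mem_iInter.mpr fun j => ?_⟩⟩
  exact subset_convexHull ℝ _ ⟨hx, Subsingleton.elim _ _⟩

/-- Kalai's inequality from lower bounds -/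
lemma kalai_of {X : Finset (Fin d → ℝ)} (hX : X.Nonempty) (g : ℕ → ℕ) (N : ℕ)
    (hN : N + 1 ≤ X.card) (hg : ∀ r, 2 ≤ r → r ≤ N + 1 → (g r : ℤ) ≤ KL.dimT r X + 1)
    (hs : finrank ℝ (dep X) ≤ ∑ r ∈ Finset.Icc 2 (N + 1), g r) :
    0 ≤ ∑ r ∈ Finset.Icc 1 X.card, KL.dimT r X := by
  obtain ⟨x, hx⟩ := hX
  have hc := finrank_dep X ⟨x, hx⟩
  set D := finrank ℝ (vectorSpan ℝ (X : Set (Fin d → ℝ))) + 1 with hD
  have hcard : X.card = finrank ℝ (dep X) + D := hc.symm
  refine RY.sum_of_lower (fun r => if r = 1 then D else if r ≤ N + 1 then g r else 0) (N + 1)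
    (fun r h1 h2 => ?_) (fun r hr => ?_) ?_
  · by_cases h3 : r = 1
    · subst h3
      rw [if_pos rfl]
      have h4 := dimT_one X
      rw [adim_eq ⟨x, hx⟩] at h4
      push_cast [hD]
      linarith
    · rw [if_neg h3, if_pos h2]
      exact hg r (by omega) h2
  · rw [if_neg (by omega), if_neg (by omega)]
  · rw [hcard]
    have h5 : Finset.Icc 1 (N + 1) = insert 1 (Finset.Icc 2 (N + 1)) := by
      ext r
      simp only [Finset.mem_Icc, Finset.mem_insert]
      omega
    rw [h5, Finset.sum_insert (by simp), if_pos rfl, add_comm]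
    have h6 : ∑ r ∈ Finset.Icc 2 (N + 1), (if r = 1 then D else if r ≤ N + 1 then g r else 0)
        = ∑ r ∈ Finset.Icc 2 (N + 1), g r := by
      refine Finset.sum_congr rfl fun r hr => ?_
      have h7 := Finset.mem_Icc.mp hr
      rw [if_neg (by omega), if_pos h7.2]
    rw [h6]
    omega

/-- no good section of dimension two -/
lemma of_no_good {X : Finset (Fin d → ℝ)} (hX : X.Nonempty)
    (hno : ∀ Z, finrank ℝ (van (dep X) Z) = 2 → ¬ Good (van (dep X) Z)) :
    (KL.T (finrank ℝ (dep X) + 1) X).Nonempty ∧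
      0 ≤ ∑ r ∈ Finset.Icc 1 X.card, KL.dimT r X := by
  have h1 : (KL.T (finrank ℝ (dep X) + 1) X).Nonempty := by
    rcases Nat.eq_zero_or_pos (finrank ℝ (dep X)) with h | h
    · rw [h]
      exact T_one hX
    · exact T_nonempty hX (caseA' _ h (acyc_dep X) hno)
  refine ⟨h1, kalai_of hX (fun _ => 1) (finrank ℝ (dep X)) ?_ (fun r hr hr' => ?_) ?_⟩
  · obtain ⟨x, hx⟩ := hX
    have := finrank_dep X ⟨x, hx⟩
    omega
  · have := dimT_nonneg (by omega) (T_mono (by omega) hr' h1)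
    push_cast
    linarith
  · simp

/-- a good section of dimension two gives `dim T_2 ≥ 1` -/
lemma one_le_dimT {X : Finset (Fin d → ℝ)}
    (h : ¬ ∀ Z, finrank ℝ (van (dep X) Z) = 2 → ¬ Good (van (dep X) Z)) : 1 ≤ KL.dimT 2 X := by
  push Not at h
  obtain ⟨Z, h1, h2⟩ := h
  have h3 := dimT_two Z h2 (by omega)
  rw [h1] at h3
  push_cast at h3
  linarith

lemma of_good {X : Finset (Fin d → ℝ)} (hg : Good (dep X)) :
    (finrank ℝ (dep X) : ℤ) - 1 ≤ KL.dimT 2 X := by
  rcases Nat.eq_zero_or_pos (finrank ℝ (dep X)) with h | h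
  · rw [h]
    have := RY.dimT_ge_neg_one (r := 2) (by norm_num) X
    push_cast
    linarith
  · have h1 := dimT_two (X := X) ∅ (by rw [van_empty]; exact hg) (by rw [van_empty]; exact h)
    rwa [van_empty] at h1

lemma kalai_good {X : Finset (Fin d → ℝ)} (hX : X.Nonempty) (hg : Good (dep X)) :
    0 ≤ ∑ r ∈ Finset.Icc 1 X.card, KL.dimT r X := by
  obtain ⟨x, hx⟩ := hX
  have hc := finrank_dep X ⟨x, hx⟩
  rcases Nat.eq_zero_or_pos (finrank ℝ (dep X)) with h | h
  · exact kalai_of ⟨x, hx⟩ (fun _ => 0) 0 (by omega) (fun r h1 h2 => by omega) (by rw [h]; simp)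
  · refine kalai_of ⟨x, hx⟩ (fun _ => finrank ℝ (dep X)) 1 (by omega) (fun r h1 h2 => ?_)
      (by simp)
    have h3 : r = 2 := by omega
    subst h3
    have := of_good hg
    linarith

/-- (1): a finite `T_2` -/
theorem part_one {X : Finset (Fin d → ℝ)} (hX : X.Nonempty) (h2 : KL.dimT 2 X ≤ 0) :
    (∀ r : ℕ, 1 ≤ r → (r : ℤ) ≤ X.card - KL.adim (X : Set (Fin d → ℝ)) → (KL.T r X).Nonempty) ∧
      0 ≤ ∑ r ∈ Finset.Icc 1 X.card, KL.dimT r X := by
  have hno : ∀ Z, finrank ℝ (van (dep X) Z) = 2 → ¬ Good (van (dep X) Z) := by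
    by_contra h
    have := one_le_dimT h
    linarith
  obtain ⟨h3, h4⟩ := of_no_good hX hno
  refine ⟨fun r h1 hr => T_mono h1 ?_ h3, h4⟩
  rw [card_eq hX] at hr
  omega

/-- (2): few points -/
theorem part_two {X : Finset (Fin d → ℝ)} (hX : X.Nonempty)
    (hn : (X.card : ℤ) ≤ KL.adim (X : Set (Fin d → ℝ)) + 4) :
    0 ≤ ∑ r ∈ Finset.Icc 1 X.card, KL.dimT r X := by
  rw [card_eq hX] at hn
  have hj : finrank ℝ (dep X) ≤ 3 := by omega
  by_cases hno : ∀ Z, finrank ℝ (van (dep X) Z) = 2 → ¬ Good (van (dep X) Z)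
  · exact (of_no_good hX hno).2
  · by_cases hg : Good (dep X)
    · exact kalai_good hX hg
    · have h1 := one_le_dimT hno
      have h2 : (KL.T 3 X).Nonempty :=
        T_nonempty hX fun hT => hg (caseC _ hj _ rfl hT)
      have h3 := dimT_nonneg (by norm_num) h2
      have h4 : 1 ≤ finrank ℝ (dep X) := by
        rw [Nat.one_le_iff_ne_zero]
        exact fun h => hg (good_bot h)
      have h5 : 2 ≤ finrank ℝ (dep X) := by
        by_contra h
        exact hg (good_one (by omega) (acyc_dep X))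
      obtain ⟨x, hx⟩ := hX
      have hc := finrank_dep X ⟨x, hx⟩
      refine kalai_of ⟨x, hx⟩ (fun r => if r = 2 then 2 else 1) 2 (by omega) (fun r h6 h7 => ?_) ?_
      · have h8 : r = 2 ∨ r = 3 := by omega
        rcases h8 with rfl | rfl
        · rw [if_pos rfl]
          push_cast
          linarith
        · rw [if_neg (by norm_num)]
          push_cast
          linarith
      · have h9 : Finset.Icc 2 (2 + 1) = {2, 3} := by decide
        rw [h9, Finset.sum_pair (by norm_num)]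
        simpa using hj

/-- (3): no Tverberg partition into three parts -/
theorem part_three {X : Finset (Fin d → ℝ)} (hX : X.Nonempty) (hT : KL.T 3 X = ∅)
    (hn : (X.card : ℤ) ≤ KL.adim (X : Set (Fin d → ℝ)) + 4 ∨
      KL.adim (X : Set (Fin d → ℝ)) ≤ 3) :
    (X.card : ℤ) - KL.adim (X : Set (Fin d → ℝ)) - 2 ≤ KL.dimT 2 X ∧
      0 ≤ ∑ r ∈ Finset.Icc 1 X.card, KL.dimT r X := by
  have hTF : TF 2 (dep X) := tf_of_T_empty hX hT
  have hg : Good (dep X) := by
    by_cases hj : finrank ℝ (dep X) ≤ 3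
    · exact caseC _ hj _ rfl hTF
    · refine hTF.good ?_
      have h1 := hTF.card_le
      rw [Fintype.card_coe] at h1 ⊢
      have h2 := card_eq hX
      omega
  refine ⟨?_, kalai_good hX hg⟩
  have h3 := of_good hg
  have h4 := card_eq hX
  linarith

end Pool.Agent.FX
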