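import Pool.Agent.Lib_helper67.FX.Line

/-!
Kalai's inequality for sets whose dual has at most two more rays than its dimension, and for sets
with `dim T_2 ≤ 1`.
-/

set_option autoImplicit false
set_option linter.unusedSectionVars false

namespace Pool.Agent.FX

open scoped BigOperators Topology
open Module Filter Pool.Agent

variable {d : ℕ}

/-- the composite points are on a line -/
lemma line_data {X : Finset (Fin d → ℝ)} {R : Finset {x // x ∈ X}} (h : RRep (dep X) R)
    (hR : R.Nonempty) (hq : finrank ℝ (LinearMap.range (cmap X R)) ≤ 2) :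
    ∃ (u v : (Fin d → ℝ) × ℝ) (s : {x // x ∈ X} → ℝ), u.2 = 1 ∧ v.2 = 0 ∧
      (∀ k ∈ R, ∃ c : ℝ, 0 < c ∧ comp X k = c • (u + s k • v)) ∧
      (v = 0 → (∀ k, s k = 0) ∧ 1 ≤ finrank ℝ (LinearMap.range (cmap X R))) ∧
      (v ≠ 0 → 2 ≤ finrank ℝ (LinearMap.range (cmap X R))) := by
  classical
  set Q := LinearMap.range (cmap X R) with hQ
  have hmem : ∀ k ∈ R, comp X k ∈ Q := by
    intro k hk
    refine ⟨Pi.single ⟨k, hk⟩ 1, ?_⟩
    rw [cmap, Fintype.linearCombination_apply_single, one_smul]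
  obtain ⟨k0, hk0⟩ := hR
  have hc0 := comp_snd X (h.ind.1 k0 hk0)
  let S : Q →ₗ[ℝ] ℝ := (LinearMap.snd ℝ (Fin d → ℝ) ℝ).comp Q.subtype
  have hS : ∀ y : Q, S y = (y : (Fin d → ℝ) × ℝ).2 := fun y => rfl
  have hsurj : LinearMap.range S = ⊤ := by
    rw [LinearMap.range_eq_top]
    intro t
    refine ⟨(t / (comp X k0).2) • ⟨comp X k0, hmem k0 hk0⟩, ?_⟩
    rw [map_smul, hS, smul_eq_mul]
    exact div_mul_cancel₀ _ hc0.ne'
  have hker := LinearMap.finrank_range_add_finrank_ker S
  rw [hsurj, finrank_top, finrank_self] at hker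
  have hk1 : finrank ℝ (LinearMap.ker S) ≤ 1 := by omega
  have : Module.Free ℝ (LinearMap.ker S) := Module.Free.of_divisionRing ℝ (LinearMap.ker S)
  obtain ⟨⟨v, hvQ⟩, hker1⟩ := ((Submodule.finrank_le_one_iff_isPrincipal _).mp hk1).principal
  have hv : (⟨v, hvQ⟩ : Q) ∈ LinearMap.ker S := by
    rw [hker1]
    exact Submodule.mem_span_singleton_self _
  have hv2 : v.2 = 0 := by
    rw [LinearMap.mem_ker, hS] at hv
    exact hv
  have hw : ∀ w ∈ Q, w.2 = 0 → ∃ c : ℝ, w = c • v := by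
    intro w hw h0
    have h1 : (⟨w, hw⟩ : Q) ∈ LinearMap.ker S := by
      rw [LinearMap.mem_ker, hS]
      exact h0
    rw [hker1] at h1
    obtain ⟨c, hc⟩ := Submodule.mem_span_singleton.mp h1
    exact ⟨c, (congrArg Subtype.val hc).symm⟩
  set u : (Fin d → ℝ) × ℝ := ((comp X k0).2)⁻¹ • comp X k0 with hu
  have huQ : u ∈ Q := Q.smul_mem _ (hmem k0 hk0)
  have hu2 : u.2 = 1 := by
    rw [hu, Prod.smul_snd, smul_eq_mul]
    exact inv_mul_cancel₀ hc0.ne'
  have hs : ∀ k ∈ R, ∃ c : ℝ, ((comp X k).2)⁻¹ • comp X k - u = c • v := by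
    intro k hk
    refine hw _ (Q.sub_mem (Q.smul_mem _ (hmem k hk)) huQ) ?_
    rw [Prod.snd_sub, Prod.smul_snd, smul_eq_mul, hu2,
      inv_mul_cancel₀ (comp_snd X (h.ind.1 k hk)).ne', sub_self]
  choose! s0 hs0 using hs
  refine ⟨u, v, fun k => if v = 0 then 0 else s0 k, hu2, hv2, fun k hk => ?_, fun hv0 => ?_,
    fun hv0 => ?_⟩
  · have hc := comp_snd X (h.ind.1 k hk)
    refine ⟨_, hc, ?_⟩
    have h1 : (if v = 0 then (0:ℝ) else s0 k) • v = s0 k • v := by
      split_ifs with h0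
      · rw [h0, smul_zero, smul_zero]
      · rfl
    rw [h1, ← hs0 k hk, add_sub_cancel, smul_smul, mul_inv_cancel₀ hc.ne', one_smul]
  · exact ⟨fun k => if_pos hv0, by omega⟩
  · have h1 : finrank ℝ (LinearMap.ker S) ≠ 0 := by
      intro h0
      have h2 := Submodule.finrank_eq_zero.mp h0
      have h3 : (⟨v, hvQ⟩ : Q) ∈ LinearMap.ker S := hv
      rw [h2, Submodule.mem_bot] at h3
      exact hv0 (congrArg Subtype.val h3)
    omega

/-- a point between two composite points -/
lemma between {V : Type*} [AddCommGroup V] [Module ℝ V] {u v y y' : V} {c c' s s' ζ : ℝ}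
    (hc : 0 < c) (hc' : 0 < c') (hy : y = c • (u + s • v)) (hy' : y' = c' • (u + s' • v))
    (h1 : s < ζ) (h2 : ζ < s') :
    ∃ a b : ℝ, 0 < a ∧ 0 < b ∧ u + ζ • v = a • y + b • y' := by
  have h3 : 0 < s' - s := by linarith
  refine ⟨(s' - ζ) / ((s' - s) * c), (ζ - s) / ((s' - s) * c'),
    div_pos (by linarith) (mul_pos h3 hc), div_pos (by linarith) (mul_pos h3 hc'), ?_⟩
  rw [hy, hy', smul_smul, smul_smul]
  have e1 : (s' - ζ) / ((s' - s) * c) * c = (s' - ζ) / (s' - s) := by
    have := h3.ne'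
    field_simp
  have e2 : (ζ - s) / ((s' - s) * c') * c' = (ζ - s) / (s' - s) := by
    have := h3.ne'
    field_simp
  rw [e1, e2, smul_add, smul_add, smul_smul, smul_smul]
  have e3 : ((s' - ζ) / (s' - s)) • u + ((s' - ζ) / (s' - s) * s) • v
      + (((ζ - s) / (s' - s)) • u + ((ζ - s) / (s' - s) * s') • v)
      = ((s' - ζ) / (s' - s) + (ζ - s) / (s' - s)) • u
        + ((s' - ζ) / (s' - s) * s + (ζ - s) / (s' - s) * s') • v := by
    rw [add_smul, add_smul]
    abel
  rw [e3]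
  have e4 : (s' - ζ) / (s' - s) + (ζ - s) / (s' - s) = 1 := by
    rw [← add_div, div_eq_one_iff_eq h3.ne']
    ring
  have e5 : (s' - ζ) / (s' - s) * s + (ζ - s) / (s' - s) * s' = ζ := by
    have := h3.ne'
    field_simp
    ring
  rw [e4, e5, one_smul]

lemma line_one {X : Finset (Fin d → ℝ)} {R : Finset {x // x ∈ X}} (h : RRep (dep X) R)
    {u v : (Fin d → ℝ) × ℝ} {s : {x // x ∈ X} → ℝ} (hu : u.2 = 1) (hv : v.2 = 0)
    (hs : ∀ k ∈ R, ∃ c : ℝ, 0 < c ∧ comp X k = c • (u + s k • v)) {ζ : ℝ}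
    (hAB : (R.filter fun k => s k < ζ).card ≤ (R.filter fun k => ζ < s k).card) {r : ℕ}
    (hr : 1 ≤ r) (hrm : r ≤ (R.filter fun k => s k ≤ ζ).card) : 0 ≤ KL.dimT r X := by
  classical
  obtain ⟨f, hf, hfS⟩ := exists_inj _ r hrm
  obtain ⟨e, he, hei⟩ := exists_injOn _ _ hAB
  have hfR : ∀ q, f q ∈ R := fun q => (Finset.mem_filter.mp (hfS q)).1
  have hfs : ∀ q, s (f q) ≤ ζ := fun q => (Finset.mem_filter.mp (hfS q)).2
  let g : Fin r → {x // x ∈ X} := fun q => if s (f q) = ζ then f q else e (f q)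
  have hg1 : ∀ q, s (f q) = ζ → g q = f q := fun q hq => if_pos hq
  have hg2 : ∀ q, s (f q) ≠ ζ → g q = e (f q) := fun q hq => if_neg hq
  have hg3 : ∀ q, s (f q) ≠ ζ → f q ∈ R.filter fun k => s k < ζ := fun q hq =>
    Finset.mem_filter.mpr ⟨hfR q, lt_of_le_of_ne (hfs q) hq⟩
  have hg4 : ∀ q, s (f q) ≠ ζ → e (f q) ∈ R ∧ ζ < s (e (f q)) := fun q hq =>
    Finset.mem_filter.mp (he _ (hg3 q hq))
  set z := u + ζ • v with hz
  have hz2 : z.2 = 1 := by rw [hz, Prod.snd_add, Prod.smul_snd, hu, hv]; simp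
  have hz0 : z ≠ 0 := by
    intro h0
    rw [h0] at hz2
    exact zero_ne_one hz2
  have hcomb : ∀ q, ∃ a b : ℝ, 0 < a ∧ 0 < b ∧ z = a • comp X (f q) + b • comp X (g q) := by
    intro q
    obtain ⟨c, hc, hcq⟩ := hs _ (hfR q)
    by_cases hq : s (f q) = ζ
    · refine ⟨1 / (2 * c), 1 / (2 * c), by positivity, by positivity, ?_⟩
      rw [hg1 q hq, ← add_smul, hcq, hq, smul_smul]
      have : (1 / (2 * c) + 1 / (2 * c)) * c = 1 := by field_simp; norm_num
      rw [this, one_smul]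
    · obtain ⟨h1, h2⟩ := hg4 q hq
      obtain ⟨c', hc', hcq'⟩ := hs _ h1
      rw [hg2 q hq]
      exact between hc hc' hcq hcq' (lt_of_le_of_ne (hfs q) hq) h2
  have key := cell h hr f g hfR ?_ (fun p q hpq hpq' => hpq (hf hpq')) ?_ ?_ z hcomb
    (Submodule.span ℝ {z}) ?_ ?_
  · rw [finrank_span_singleton hz0] at key
    simpa using key
  · intro q
    by_cases hq : s (f q) = ζ
    · rw [hg1 q hq]
      exact hfR q
    · rw [hg2 q hq]
      exact (hg4 q hq).1
  · intro p q hpq
    by_cases hp : s (f p) = ζ <;> by_cases hq : s (f q) = ζ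
    · rw [hg1 p hp, hg1 q hq]
      exact fun h => hpq (hf h)
    · rw [hg1 p hp, hg2 q hq]
      intro h1
      have := (hg4 q hq).2
      rw [← h1, hp] at this
      exact lt_irrefl _ this
    · rw [hg2 p hp, hg1 q hq]
      intro h1
      have := (hg4 p hp).2
      rw [h1, hq] at this
      exact lt_irrefl _ this
    · rw [hg2 p hp, hg2 q hq]
      exact fun h1 => hpq (hf (hei _ (hg3 p hp) _ (hg3 q hq) h1))
  · intro p q hpq
    by_cases hq : s (f q) = ζ
    · rw [hg1 q hq]
      exact fun h => hpq (hf h)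
    · rw [hg2 q hq]
      intro h1
      have := (hg4 q hq).2
      rw [← h1] at this
      exact absurd this (not_lt.mpr (hfs p))
  · intro q
    rw [Submodule.span_singleton_le_iff_mem]
    obtain ⟨a, b, _, _, hab⟩ := hcomb q
    rw [hab]
    exact Submodule.add_mem _ (Submodule.smul_mem _ _ (Submodule.subset_span (by simp)))
      (Submodule.smul_mem _ _ (Submodule.subset_span (by simp)))
  · rw [finrank_span_singleton hz0]

lemma line_two {X : Finset (Fin d → ℝ)} {R : Finset {x // x ∈ X}} (h : RRep (dep X) R)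
    {u v : (Fin d → ℝ) × ℝ} {s : {x // x ∈ X} → ℝ} (hu : u.2 = 1) (hv : v.2 = 0) (hv0 : v ≠ 0)
    (hs : ∀ k ∈ R, ∃ c : ℝ, 0 < c ∧ comp X k = c • (u + s k • v)) {ζ : ℝ}
    (hBA : (R.filter fun k => ζ < s k).card ≤ (R.filter fun k => s k ≤ ζ).card) {r : ℕ}
    (hr : 1 ≤ r) (hrm : r ≤ (R.filter fun k => ζ < s k).card) : 1 ≤ KL.dimT r X := by
  classical
  obtain ⟨f, hf, hfS⟩ := exists_inj _ r (hrm.trans hBA)
  obtain ⟨g, hg, hgS⟩ := exists_inj _ r hrm
  have hfR : ∀ q, f q ∈ R := fun q => (Finset.mem_filter.mp (hfS q)).1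
  have hfs : ∀ q, s (f q) ≤ ζ := fun q => (Finset.mem_filter.mp (hfS q)).2
  have hgR : ∀ q, g q ∈ R := fun q => (Finset.mem_filter.mp (hgS q)).1
  have hgs : ∀ q, ζ < s (g q) := fun q => (Finset.mem_filter.mp (hgS q)).2
  obtain ⟨k, hk, hmin⟩ := Finset.exists_min_image _ s
    (Finset.card_pos.mp (by omega : 0 < (R.filter fun k => ζ < s k).card))
  have hk2 := (Finset.mem_filter.mp hk).2
  set ζ' := (ζ + s k) / 2 with hζ'
  have h1 : ζ < ζ' := by rw [hζ']; linarith
  have h2 : ∀ q, ζ' < s (g q) := by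
    intro q
    have := hmin _ (hgS q)
    rw [hζ']
    linarith
  have hli : LinearIndependent ℝ ![u, v] := by
    rw [LinearIndependent.pair_iff]
    intro a b hab
    have h3 := congrArg Prod.snd hab
    rw [Prod.snd_add, Prod.smul_snd, Prod.smul_snd, hu, hv] at h3
    simp only [smul_eq_mul, mul_one, mul_zero, add_zero, Prod.snd_zero] at h3
    rw [h3, zero_smul, zero_add] at hab
    exact ⟨h3, (smul_eq_zero.mp hab).resolve_right hv0⟩
  have hfin : finrank ℝ (Submodule.span ℝ (Set.range ![u, v])) = 2 := by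
    rw [finrank_span_eq_card hli, Fintype.card_fin]
  have key := cell h hr f g hfR hgR (fun p q hpq hpq' => hpq (hf hpq'))
    (fun p q hpq hpq' => hpq (hg hpq')) (fun p q _ h3 => ?_) (u + ζ' • v) (fun q => ?_)
    (Submodule.span ℝ (Set.range ![u, v])) (fun q => ?_) (by omega)
  · rw [hfin] at key
    push_cast at key
    linarith
  · have h4 := hfs p
    rw [h3] at h4
    exact absurd (hgs q) (not_lt.mpr h4)
  · obtain ⟨c, hc, hcq⟩ := hs _ (hfR q)
    obtain ⟨c', hc', hcq'⟩ := hs _ (hgR q)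
    exact between hc hc' hcq hcq' (lt_of_le_of_lt (hfs q) h1) (h2 q)
  · obtain ⟨c, hc, hcq⟩ := hs _ (hfR q)
    obtain ⟨c', hc', hcq'⟩ := hs _ (hgR q)
    have h5 : s (g q) - s (f q) ≠ 0 := by
      have := hfs q
      have := hgs q
      intro h6
      linarith
    have hvm : v ∈ Submodule.span ℝ {comp X (f q), comp X (g q)} := by
      have h6 : v = (s (g q) - s (f q))⁻¹ • (c'⁻¹ • comp X (g q) - c⁻¹ • comp X (f q)) := by
        rw [hcq, hcq', smul_smul, smul_smul, inv_mul_cancel₀ hc.ne', inv_mul_cancel₀ hc'.ne',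
          one_smul, one_smul, add_sub_add_left_eq_sub, ← sub_smul, smul_smul,
          inv_mul_cancel₀ h5, one_smul]
      rw [h6]
      exact Submodule.smul_mem _ _ (Submodule.sub_mem _
        (Submodule.smul_mem _ _ (Submodule.subset_span (by simp)))
        (Submodule.smul_mem _ _ (Submodule.subset_span (by simp))))
    have hum : u ∈ Submodule.span ℝ {comp X (f q), comp X (g q)} := by
      have h6 : u = c⁻¹ • comp X (f q) - s (f q) • v := by
        rw [hcq, smul_smul, inv_mul_cancel₀ hc.ne', one_smul, add_sub_cancel_right]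
      rw [h6]
      exact Submodule.sub_mem _ (Submodule.smul_mem _ _ (Submodule.subset_span (by simp)))
        (Submodule.smul_mem _ _ hvm)
    rw [Submodule.span_le]
    rintro _ ⟨i, rfl⟩
    fin_cases i
    · exact hum
    · exact hvm

lemma sum_two (B M : ℕ) (hB : B ≤ M) (hM : 1 ≤ M) :
    M + B ≤ (∑ r ∈ Finset.Icc 2 M, if r ≤ B then 2 else 1) + 2 := by
  have h1 : ∀ r, (if r ≤ B then 2 else 1) = 1 + (if r ≤ B then 1 else 0) := by
    intro r
    split_ifs <;> rfl
  simp only [h1, Finset.sum_add_distrib, Finset.sum_const, Nat.card_Icc, smul_eq_mul, mul_one]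
  rw [← Finset.sum_filter, Finset.sum_const, smul_eq_mul, mul_one]
  have h2 : Finset.Icc 2 B ⊆ (Finset.Icc 2 M).filter (fun r => r ≤ B) := by
    intro r hr
    rw [Finset.mem_filter, Finset.mem_Icc]
    rw [Finset.mem_Icc] at hr
    omega
  have h3 := Finset.card_le_card h2
  rw [Nat.card_Icc] at h3
  omega

lemma kalai_line {X : Finset (Fin d → ℝ)} (hX : X.Nonempty) {R : Finset {x // x ∈ X}}
    (h : RRep (dep X) R) (hR : R.Nonempty)
    {u v : (Fin d → ℝ) × ℝ} {s : {x // x ∈ X} → ℝ} (hu : u.2 = 1) (hv : v.2 = 0)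
    (hs : ∀ k ∈ R, ∃ c : ℝ, 0 < c ∧ comp X k = c • (u + s k • v))
    (hv0 : v = 0 → (∀ k, s k = 0) ∧ 1 ≤ finrank ℝ (LinearMap.range (cmap X R)))
    (hv1 : v ≠ 0 → 2 ≤ finrank ℝ (LinearMap.range (cmap X R))) {ζ : ℝ}
    (hAB : (R.filter fun k => s k < ζ).card ≤ (R.filter fun k => ζ < s k).card)
    (hBA : (R.filter fun k => ζ < s k).card ≤ (R.filter fun k => s k ≤ ζ).card) :
    0 ≤ ∑ r ∈ Finset.Icc 1 X.card, KL.dimT r X := by
  classical
  have hfr := finrank_cmap h
  have hRX : R.card ≤ X.card := by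
    have := Finset.card_le_univ R
    rwa [Fintype.card_coe] at this
  have hsplit : (R.filter fun k => s k ≤ ζ).card + (R.filter fun k => ζ < s k).card = R.card := by
    have h1 := Finset.card_filter_add_card_filter_not (s := R) (fun k => s k ≤ ζ)
    have h2 : (R.filter fun k => ¬ s k ≤ ζ) = R.filter fun k => ζ < s k :=
      Finset.filter_congr fun k _ => not_le
    rw [h2] at h1
    exact h1
  have hRpos := hR.card_pos
  set M := (R.filter fun k => s k ≤ ζ).card with hM
  set B := (R.filter fun k => ζ < s k).card with hB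
  have hM1 : 1 ≤ M := by omega
  by_cases h0 : v = 0
  · obtain ⟨hs0, hq⟩ := hv0 h0
    have hB0 : B = 0 := by
      by_contra hne
      obtain ⟨k, hk⟩ := Finset.card_pos.mp (by omega : 0 < B)
      have h1 := (Finset.mem_filter.mp hk).2
      rw [hs0] at h1
      have h2 : M = 0 := by
        rw [hM, Finset.card_eq_zero, Finset.filter_eq_empty_iff]
        intro l _
        rw [hs0]
        exact not_le.mpr h1
      omega
    refine kalai_of hX (fun _ => 1) (M - 1) (by omega) (fun r h1 h2 => ?_) ?_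
    · have := line_one h hu hv hs hAB (r := r) (by omega) (by omega)
      push_cast
      linarith
    · rw [Finset.sum_const, Nat.card_Icc, smul_eq_mul, mul_one]
      omega
  · have hq := hv1 h0
    refine kalai_of hX (fun r => if r ≤ B then 2 else 1) (M - 1) (by omega) (fun r h1 h2 => ?_) ?_
    · by_cases h3 : r ≤ B
      · have := line_two h hu hv h0 hs hBA (r := r) (by omega) h3
        rw [if_pos h3]
        push_cast
        linarith
      · have := line_one h hu hv hs hAB (r := r) (by omega) (by omega)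
        rw [if_neg h3]
        push_cast
        linarith
    · have h3 : M - 1 + 1 = M := by omega
      rw [h3]
      have := sum_two B M hBA hM1
      omega

/-- at most two more rays than the dimension -/
theorem kalai_rays {X : Finset (Fin d → ℝ)} (hX : X.Nonempty) (hj : 1 ≤ finrank ℝ (dep X))
    (hR : ∀ R, Ind (dep X) R → R.card ≤ finrank ℝ (dep X) + 2) :
    0 ≤ ∑ r ∈ Finset.Icc 1 X.card, KL.dimT r X := by
  classical
  obtain ⟨R, h⟩ := exists_rrep (dep X)
  have hfr := finrank_cmap h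
  have hle := hR R h.ind
  have hne : R.Nonempty := Finset.card_pos.mp (by omega)
  obtain ⟨u, v, s, hu, hv, hs, hv0, hv1⟩ := line_data h hne (by omega)
  obtain ⟨ζ, h1, h2⟩ := exists_median R hne s
  rcases le_total (R.filter fun k => s k < ζ).card (R.filter fun k => ζ < s k).card with h3 | h3
  · exact kalai_line hX h hne hu hv hs hv0 hv1 h3 h2
  · refine kalai_line hX h hne (u := u) (v := -v) (s := fun k => - s k) (ζ := -ζ) hu
      (by rw [Prod.snd_neg, hv, neg_zero]) (fun k hk => ?_) (fun h0 => ?_) (fun h0 => ?_) ?_ ?_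
    · obtain ⟨c, hc, hck⟩ := hs k hk
      exact ⟨c, hc, by rw [hck, neg_smul_neg]⟩
    · obtain ⟨h4, h5⟩ := hv0 (neg_eq_zero.mp h0)
      exact ⟨fun k => by simp [h4], h5⟩
    · exact hv1 fun h4 => h0 (by rw [h4, neg_zero])
    · simp only [neg_lt_neg_iff]
      exact h3
    · simp only [neg_lt_neg_iff, neg_le_neg_iff]
      exact h1

/-- Kalai's inequality if `dim T_2 ≤ 1` -/
theorem part_four {X : Finset (Fin d → ℝ)} (hX : X.Nonempty) (h2 : KL.dimT 2 X ≤ 1) :
    0 ≤ ∑ r ∈ Finset.Icc 1 X.card, KL.dimT r X := by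
  rcases Nat.lt_or_ge (finrank ℝ (dep X)) 4 with h | h
  · refine part_two hX ?_
    have := card_eq hX
    omega
  · have hH : Hyp (dep X) := by
      refine ⟨acyc_dep X, fun Z hZ hg => ?_⟩
      have h3 := dimT_two Z hg (by omega)
      omega
    exact kalai_rays hX (by omega) fun R hR => rays _ (by omega) (dep X) rfl hH R hR

end Pool.Agent.FX
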