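import Pool.Agent.Lib_helper67.FX.Base

/-!
Planes of the dual of a space without good sections of dimension three or more.
-/

set_option autoImplicit false
set_option linter.unusedSectionVars false

namespace Pool.Agent.FX

open scoped BigOperators Topology
open Module Filter Pool.Agent

variable {ι : Type*} [Fintype ι]

/-- the coordinates `a` and `c` are independent on `Λ` -/
def Idp (Λ : Submodule ℝ (ι → ℝ)) (a c : ι) : Prop := ∀ s t : ℝ, ∃ μ ∈ Λ, μ a = s ∧ μ c = t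

lemma nl_of {Λ : Submodule ℝ (ι → ℝ)} {a : ι} {μ : ι → ℝ} (hμ : μ ∈ Λ) (h : μ a ≠ 0) :
    ¬ Loop Λ a := fun hl => h (hl μ hμ)

lemma Idp.nl {Λ : Submodule ℝ (ι → ℝ)} {a c : ι} (h : Idp Λ a c) : ¬ Loop Λ a := by
  obtain ⟨μ, hμ, h1, _⟩ := h 1 0
  exact nl_of hμ (by rw [h1]; exact one_ne_zero)

lemma Idp.symm {Λ : Submodule ℝ (ι → ℝ)} {a c : ι} (h : Idp Λ a c) : Idp Λ c a := fun s t =>
  (h t s).imp fun _ h => ⟨h.1, h.2.2, h.2.1⟩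

lemma idp_of {Λ : Submodule ℝ (ι → ℝ)} {a c : ι} (ha : ¬ Loop Λ a) (h : ¬ Par Λ a c) :
    Idp Λ a c := by
  obtain ⟨α, hα, h1⟩ := exists_one ha
  unfold Par at h
  push Not at h
  obtain ⟨γ, hγ, h2, h3⟩ := h
  intro s t
  refine ⟨s • α + ((t - s * α c) / γ c) • γ, Λ.add_mem (Λ.smul_mem _ hα) (Λ.smul_mem _ hγ), ?_, ?_⟩
  · simp [h1, h2]
  · simp only [Pi.add_apply, Pi.smul_apply, smul_eq_mul]
    field_simp
    ring

lemma Idp.finrank {Λ : Submodule ℝ (ι → ℝ)} {a c : ι} (h : Idp Λ a c) :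
    finrank ℝ (van (van Λ {a}) {c}) + 2 = finrank ℝ Λ := by
  have h1 := finrank_van h.nl
  have h2 : ¬ Loop (van Λ {a}) c := by
    obtain ⟨μ, hμ, h1, h2⟩ := h 0 1
    exact nl_of (μ := μ) ⟨hμ, fun i hi => by rw [hi]; exact h1⟩ (by rw [h2]; exact one_ne_zero)
  have h3 := finrank_van h2
  omega

lemma exists_ne {Λ : Submodule ℝ (ι → ℝ)} (h : 1 ≤ finrank ℝ Λ) : ∃ ζ ∈ Λ, ∃ w, ζ w = 1 := by
  have h1 : Λ ≠ ⊥ := by
    intro h2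
    rw [h2, finrank_bot] at h
    omega
  obtain ⟨ζ, hζ, h2⟩ := Submodule.exists_mem_ne_zero_of_ne_bot h1
  obtain ⟨w, hw⟩ := Function.ne_iff.mp h2
  exact ⟨(ζ w)⁻¹ • ζ, Λ.smul_mem _ hζ, w, by simpa using inv_mul_cancel₀ hw⟩

lemma Idp.out {Λ : Submodule ℝ (ι → ℝ)} {a c : ι} (h : Idp Λ a c) (h3 : 3 ≤ Module.finrank ℝ Λ) :
    ∃ ζ ∈ Λ, ζ a = 0 ∧ ζ c = 0 ∧ ∃ w, ζ w = 1 := by
  have h1 := h.finrank
  obtain ⟨ζ, hζ, w, hw⟩ := exists_ne (Λ := FX.van (FX.van Λ {a}) {c}) (by omega)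
  exact ⟨ζ, hζ.1.1, hζ.1.2 a rfl, hζ.2 c rfl, w, hw⟩

/-- adjustment -/
lemma adj {Λ : Submodule ℝ (ι → ℝ)} {w : ι} {ζ : ι → ℝ} (hζ : ζ ∈ Λ) (hw : ζ w = 1) {μ : ι → ℝ}
    (hμ : μ ∈ Λ) : μ - μ w • ζ ∈ van Λ {w} :=
  ⟨Λ.sub_mem hμ (Λ.smul_mem _ hζ), fun i hi => by rw [hi]; simp [hw]⟩

lemma Idp.van {Λ : Submodule ℝ (ι → ℝ)} {a c w : ι} (h : Idp Λ a c) {ζ : ι → ℝ} (hζ : ζ ∈ Λ)
    (ha : ζ a = 0) (hc : ζ c = 0) (hw : ζ w = 1) : Idp (FX.van Λ {w}) a c := by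
  intro s t
  obtain ⟨μ, hμ, h1, h2⟩ := h s t
  exact ⟨_, adj hζ hw hμ, by simp [ha, h1], by simp [hc, h2]⟩

lemma finrank_van' {Λ : Submodule ℝ (ι → ℝ)} {w : ι} {ζ : ι → ℝ} (hζ : ζ ∈ Λ)
    (hw : ζ w = 1) : Module.finrank ℝ (van Λ {w}) + 1 = Module.finrank ℝ Λ :=
  finrank_van (nl_of hζ (by rw [hw]; exact one_ne_zero))

lemma loop_adj {Λ : Submodule ℝ (ι → ℝ)} {w i : ι} {ζ : ι → ℝ} (hζ : ζ ∈ Λ) (hw : ζ w = 1)
    (hi : ζ i = 0) (h : Loop (van Λ {w}) i) : Loop Λ i := by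
  intro μ hμ
  have := h _ (adj hζ hw hμ)
  simpa [hi] using this

lemma ray_adj {Λ : Submodule ℝ (ι → ℝ)} {w i k : ι} {ζ : ι → ℝ} (hζ : ζ ∈ Λ) (hw : ζ w = 1)
    (hi : ζ i = 0) (hk : ζ k = 0) (h : Ray (van Λ {w}) i k) : Ray Λ i k := by
  obtain ⟨c, hc, h⟩ := h
  refine ⟨c, hc, fun μ hμ => ?_⟩
  have := h _ (adj hζ hw hμ)
  simpa [hi, hk] using this

lemma ind_empty (Λ : Submodule ℝ (ι → ℝ)) : Ind Λ ∅ := ⟨by simp, by simp⟩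

lemma Ind.union [DecidableEq ι] {Λ : Submodule ℝ (ι → ℝ)} {R R' : Finset ι} (h : Ind Λ R)
    (h' : Ind Λ R') (hr : ∀ i ∈ R, ∀ k ∈ R', ¬ Ray Λ i k) :
    Ind Λ (R ∪ R') ∧ (R ∪ R').card = R.card + R'.card := by
  refine ⟨⟨fun a ha => ?_, fun a ha b hb hab => ?_⟩, Finset.card_union_of_disjoint ?_⟩
  · rcases Finset.mem_union.mp ha with ha | ha
    · exact h.1 a ha
    · exact h'.1 a ha
  · rcases Finset.mem_union.mp ha with ha | ha <;> rcases Finset.mem_union.mp hb with hb | hb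
    · exact h.2 a ha b hb hab
    · exact hr a ha b hb
    · exact fun h1 => hr b hb a ha h1.symm
    · exact h'.2 a ha b hb hab
  · rw [Finset.disjoint_left]
    intro a ha ha'
    exact hr a ha a ha' (Ray.refl Λ a)

lemma ind_single {Λ : Submodule ℝ (ι → ℝ)} {i : ι} (h : ¬ Loop Λ i) : Ind Λ {i} :=
  ⟨fun a ha => by rw [Finset.mem_singleton] at ha; rw [ha]; exact h, fun a ha b hb hab => by
    rw [Finset.mem_singleton] at ha hb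
    exact absurd (ha.trans hb.symm) hab⟩

lemma Ind.ins [DecidableEq ι] {Λ : Submodule ℝ (ι → ℝ)} {R : Finset ι} {i : ι} (h : Ind Λ R)
    (hi : ¬ Loop Λ i) (hr : ∀ k ∈ R, ¬ Ray Λ i k) :
    Ind Λ (insert i R) ∧ (insert i R).card = R.card + 1 := by
  have := (ind_single hi).union h fun a ha k hk => by
    rw [Finset.mem_singleton] at ha
    rw [ha]
    exact hr k hk
  rw [Finset.insert_eq]
  refine ⟨this.1, ?_⟩
  rw [this.2, Finset.card_singleton, add_comm]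

lemma Hyp.not_good {Λ : Submodule ℝ (ι → ℝ)} (h : Hyp Λ) (h3 : 3 ≤ Module.finrank ℝ Λ) :
    ¬ Good Λ := by
  have := h.ng ∅ (by rw [van_empty]; exact h3)
  rwa [van_empty] at this

lemma Acyc.neg {Λ : Submodule ℝ (ι → ℝ)} (h : Acyc Λ) {μ : ι → ℝ} (hμ : μ ∈ Λ) (h0 : μ ≠ 0) :
    ∃ i, μ i < 0 := by
  by_contra hno
  push Not at hno
  exact h0 (h μ hμ hno)

lemma Acyc.pos {Λ : Submodule ℝ (ι → ℝ)} (h : Acyc Λ) {μ : ι → ℝ} (hμ : μ ∈ Λ) (h0 : μ ≠ 0) :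
    ∃ i, 0 < μ i := by
  obtain ⟨i, hi⟩ := h.neg (Λ.neg_mem hμ) (neg_ne_zero.mpr h0)
  exact ⟨i, by simpa using hi⟩

/-- a plane of the dual holds at most three rays -/
theorem planeQ (n : ℕ) (hn : 3 ≤ n) : ∀ Λ : Submodule ℝ (ι → ℝ), Module.finrank ℝ Λ = n → Hyp Λ →
    ∀ a c, Idp Λ a c → ∀ R : Finset ι, Ind Λ R →
      (∀ r ∈ R, ∀ μ ∈ Λ, μ a = 0 → μ c = 0 → μ r = 0) → R.card ≤ 3 := by
  classical
  induction n, hn using Nat.le_induction with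
  | base =>
    intro Λ hΛ hH a c hac R hR hcl
    obtain ⟨η, hη, ha, hc, w, hw⟩ := hac.out hΛ.ge
    have hη0 : η ≠ 0 := by
      intro h
      rw [h] at hw
      exact zero_ne_one hw
    obtain ⟨ip, hip⟩ := hH.ac.pos hη hη0
    obtain ⟨im, him⟩ := hH.ac.neg hη hη0
    have h0 : ∀ r ∈ R, η r = 0 := fun r hr => hcl r hr η hη ha hc
    obtain ⟨h1, h2⟩ := hR.ins (nl_of hη him.ne) fun k hk => by
      rintro ⟨κ, hκ, h⟩
      have h3 := h η hη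
      rw [h0 k hk] at h3
      exact (mul_neg_of_pos_of_neg hκ him).ne h3.symm
    obtain ⟨h3, h4⟩ := h1.ins (nl_of hη hip.ne') fun k hk => by
      rintro ⟨κ, hκ, h⟩
      have h3 := h η hη
      have h4 := mul_pos hκ hip
      rcases Finset.mem_insert.mp hk with rfl | hk
      · linarith
      · rw [h0 k hk] at h3
        linarith
    have h5 := base hH.ac (hH.not_good hΛ.ge) hΛ h3
    omega
  | succ n hn ih =>
    intro Λ hΛ hH a c hac R hR hcl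
    obtain ⟨ζ, hζ, ha, hc, w, hw⟩ := hac.out (by omega)
    have h1 := finrank_van' hζ hw
    refine ih (van Λ {w}) (by omega) (hH.van _) a c (hac.van hζ ha hc hw) R ⟨fun r hr h => ?_,
      fun r hr k hk hrk h => ?_⟩ fun r hr μ hμ => hcl r hr μ hμ.1
    · exact hR.1 r hr (loop_adj hζ hw (hcl r hr ζ hζ ha hc) h)
    · exact hR.2 r hr k hk hrk (ray_adj hζ hw (hcl r hr ζ hζ ha hc) (hcl k hk ζ hζ ha hc) h)

lemma planeQ4 {Λ : Submodule ℝ (ι → ℝ)} (hH : Hyp Λ) (h3 : 3 ≤ Module.finrank ℝ Λ) {a c : ι}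
    (hac : Idp Λ a c) (i1 i2 i3 i4 : ι) (hl1 : ¬ Loop Λ i1) (hl2 : ¬ Loop Λ i2)
    (hl3 : ¬ Loop Λ i3) (hl4 : ¬ Loop Λ i4)
    (hc1 : ∀ μ ∈ Λ, μ a = 0 → μ c = 0 → μ i1 = 0) (hc2 : ∀ μ ∈ Λ, μ a = 0 → μ c = 0 → μ i2 = 0)
    (hc3 : ∀ μ ∈ Λ, μ a = 0 → μ c = 0 → μ i3 = 0) (hc4 : ∀ μ ∈ Λ, μ a = 0 → μ c = 0 → μ i4 = 0) :
    Ray Λ i1 i2 ∨ Ray Λ i1 i3 ∨ Ray Λ i1 i4 ∨ Ray Λ i2 i3 ∨ Ray Λ i2 i4 ∨ Ray Λ i3 i4 := by
  classical
  by_contra hno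
  push Not at hno
  obtain ⟨n12, n13, n14, n23, n24, n34⟩ := hno
  obtain ⟨h1, e1⟩ := (ind_single hl4).ins hl3 (by simpa using n34)
  obtain ⟨h2, e2⟩ := h1.ins hl2 (by simpa using ⟨n23, n24⟩)
  obtain ⟨h3', e3⟩ := h2.ins hl1 (by simpa using ⟨n12, n13, n14⟩)
  have h4 := planeQ _ h3 Λ rfl hH a c hac _ h3' (by
    intro r hr
    simp only [Finset.mem_insert, Finset.mem_singleton] at hr
    rcases hr with rfl | rfl | rfl | rfl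
    · exact hc1
    · exact hc2
    · exact hc3
    · exact hc4)
  rw [Finset.card_singleton] at e1
  omega

/-- `b` is a positive combination of the independent `a` and `c` -/
structure Mix (Λ : Submodule ℝ (ι → ℝ)) (a b c : ι) : Prop where
  idp : Idp Λ a c
  co : ∃ p q : ℝ, 0 < p ∧ 0 < q ∧ ∀ μ ∈ Λ, μ b = p * μ a + q * μ c

lemma Mix.symm {Λ : Submodule ℝ (ι → ℝ)} {a b c : ι} (h : Mix Λ a b c) : Mix Λ c b a := by
  obtain ⟨p, q, hp, hq, h'⟩ := h.co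
  exact ⟨h.idp.symm, q, p, hq, hp, fun μ hμ => by rw [h' μ hμ, add_comm]⟩

lemma Mix.mono {Λ Λ' : Submodule ℝ (ι → ℝ)} {a b c : ι} (h : Mix Λ a b c) (hl : Λ' ≤ Λ)
    (hi : Idp Λ' a c) : Mix Λ' a b c := by
  obtain ⟨p, q, hp, hq, h'⟩ := h.co
  exact ⟨hi, p, q, hp, hq, fun μ hμ => h' μ (hl hμ)⟩

lemma Mix.nlb {Λ : Submodule ℝ (ι → ℝ)} {a b c : ι} (h : Mix Λ a b c) : ¬ Loop Λ b := by
  obtain ⟨p, q, hp, hq, h'⟩ := h.co
  obtain ⟨μ, hμ, h1, h2⟩ := h.idp 1 0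
  refine nl_of hμ ?_
  rw [h' μ hμ, h1, h2]
  simpa using hp.ne'

lemma Mix.ab {Λ : Submodule ℝ (ι → ℝ)} {a b c : ι} (h : Mix Λ a b c) (κ : ℝ) :
    ¬ ∀ μ ∈ Λ, μ b = κ * μ a := by
  obtain ⟨p, q, hp, hq, h'⟩ := h.co
  obtain ⟨μ, hμ, h1, h2⟩ := h.idp 0 1
  intro h3
  have h4 := h3 μ hμ
  rw [h' μ hμ, h1, h2] at h4
  linarith

lemma Mix.ab' {Λ : Submodule ℝ (ι → ℝ)} {a b c : ι} (h : Mix Λ a b c) (κ : ℝ) :
    ¬ ∀ μ ∈ Λ, μ a = κ * μ b := by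
  obtain ⟨p, q, hp, hq, h'⟩ := h.co
  obtain ⟨μ, hμ, h1, h2⟩ := h.idp 0 1
  obtain ⟨ν, hν, h3, h4⟩ := h.idp 1 0
  intro h5
  have h6 := h5 μ hμ
  have h7 := h5 ν hν
  rw [h' μ hμ, h1, h2] at h6
  rw [h' ν hν, h3, h4] at h7
  have h8 : κ = 0 := by
    have : κ * q = 0 := by linarith
    exact (mul_eq_zero.mp this).resolve_right hq.ne'
  rw [h8] at h7
  linarith

lemma idp_ne {Λ : Submodule ℝ (ι → ℝ)} {a c : ι} (h : Idp Λ a c) (κ : ℝ) :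
    ¬ ∀ μ ∈ Λ, μ c = κ * μ a := by
  obtain ⟨μ, hμ, h1, h2⟩ := h 0 1
  intro h3
  have h4 := h3 μ hμ
  rw [h1, h2] at h4
  linarith

lemma Mix.cl {Λ : Submodule ℝ (ι → ℝ)} {a b c : ι} (h : Mix Λ a b c) :
    ∀ μ ∈ Λ, μ a = 0 → μ c = 0 → μ b = 0 := by
  obtain ⟨p, q, hp, hq, h'⟩ := h.co
  intro μ hμ h1 h2
  rw [h' μ hμ, h1, h2]
  ring

lemma Mix.ind [DecidableEq ι] {Λ : Submodule ℝ (ι → ℝ)} {a b c : ι} (h : Mix Λ a b c) :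
    Ind Λ {a, b, c} ∧ ({a, b, c} : Finset ι).card = 3 := by
  obtain ⟨h1, e1⟩ := (ind_single h.idp.symm.nl).ins h.nlb (by
    simp only [Finset.mem_singleton, forall_eq]
    rintro ⟨κ, _, h1⟩
    exact h.symm.ab' κ h1)
  obtain ⟨h2, e2⟩ := h1.ins h.idp.nl (by
    simp only [Finset.mem_insert, Finset.mem_singleton, forall_eq_or_imp, forall_eq]
    refine ⟨?_, ?_⟩
    · rintro ⟨κ, _, h2⟩
      exact h.ab κ h2
    · rintro ⟨κ, _, h2⟩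
      exact idp_ne h.idp κ h2)
  refine ⟨h2, ?_⟩
  rw [e2, e1, Finset.card_singleton]

/-- a fourth element of a mixed plane -/
lemma Mix.fourth {Λ : Submodule ℝ (ι → ℝ)} {a b c : ι} (h : Mix Λ a b c) (hH : Hyp Λ)
    (h3 : 3 ≤ Module.finrank ℝ Λ) {w : ι} (hw : ¬ Loop Λ w)
    (hcl : ∀ μ ∈ Λ, μ a = 0 → μ c = 0 → μ w = 0) : Ray Λ a w ∨ Ray Λ b w ∨ Ray Λ c w := by
  rcases planeQ4 hH h3 h.idp a b c w h.idp.nl h.nlb h.idp.symm.nl hw (fun μ _ h1 _ => h1) h.cl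
    (fun μ _ _ h2 => h2) hcl with h4 | h4 | h4 | h4 | h4 | h4
  · obtain ⟨κ, _, h5⟩ := h4
    exact absurd h5 (h.ab κ)
  · obtain ⟨κ, _, h5⟩ := h4
    exact absurd h5 (idp_ne h.idp κ)
  · exact Or.inl h4
  · obtain ⟨κ, _, h5⟩ := h4.symm
    exact absurd h5 (h.symm.ab κ)
  · exact Or.inr (Or.inl h4)
  · exact Or.inr (Or.inr h4)

/-- the opposite of the middle element of a mixed triple -/
lemma Mix.anti {Λ : Submodule ℝ (ι → ℝ)} {a b c : ι} (h : Mix Λ a b c) (hH : Hyp Λ)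
    (h3 : 3 ≤ Module.finrank ℝ Λ) {w : ι} {δ : ℝ} (hδ : δ < 0) (hw : ∀ μ ∈ Λ, μ w = δ * μ b) :
    False := by
  obtain ⟨p, q, hp, hq, h'⟩ := h.co
  obtain ⟨μ, hμ, h1, h2⟩ := h.idp 0 1
  obtain ⟨ν, hν, h4, h5⟩ := h.idp 1 0
  have h6 : μ b = q := by rw [h' μ hμ, h1, h2]; ring
  have h7 : ν b = p := by rw [h' ν hν, h4, h5]; ring
  have hwl : ¬ Loop Λ w := by
    refine nl_of hμ ?_
    rw [hw μ hμ, h6]
    exact mul_ne_zero hδ.ne hq.ne'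
  rcases h.fourth hH h3 hwl (fun ξ hξ h8 h9 => by rw [hw ξ hξ, h.cl ξ hξ h8 h9, mul_zero])
    with ⟨κ, hκ, h8⟩ | ⟨κ, hκ, h8⟩ | ⟨κ, hκ, h8⟩
  · have h9 := h8 μ hμ
    rw [hw μ hμ, h6, h1, mul_zero] at h9
    exact mul_ne_zero hδ.ne hq.ne' h9
  · have h9 := h8 μ hμ
    rw [hw μ hμ, h6] at h9
    have h10 := mul_right_cancel₀ hq.ne' h9
    linarith
  · have h9 := h8 ν hν
    rw [hw ν hν, h7, h5, mul_zero] at h9
    exact mul_ne_zero hδ.ne hp.ne' h9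

/-- two elements which agree modulo a mixed plane are on one ray -/
lemma Mix.mod {Λ : Submodule ℝ (ι → ℝ)} {a b c : ι} (h : Mix Λ a b c) (hH : Hyp Λ)
    (h4 : 4 ≤ Module.finrank ℝ Λ) {g g' : ι} {ζ : ι → ℝ} (hζ : ζ ∈ Λ) (ha : ζ a = 0)
    (hc : ζ c = 0) (hg : ζ g = 1) {ξ : ℝ} (hξ : ξ ≠ 0)
    (hg' : ∀ μ ∈ Λ, μ a = 0 → μ c = 0 → μ g' = ξ * μ g) : Ray Λ g g' := by
  obtain ⟨p, q, hp, hq, h'⟩ := h.co
  have hζ' : ζ g' = ξ := by rw [hg' ζ hζ ha hc, hg, mul_one]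
  have hζb : ζ b = 0 := h.cl ζ hζ ha hc
  obtain ⟨β, hβ, hβb⟩ := exists_one h.nlb
  have hb1 := finrank_van' hβ hβb
  have hag : Idp (FX.van Λ {b}) a g := by
    intro s t
    obtain ⟨μ, hμ, h1, h2⟩ := h.idp s (-(p * s) / q)
    refine ⟨μ + (t - μ g) • ζ, ⟨Λ.add_mem hμ (Λ.smul_mem _ hζ), fun i hi => ?_⟩, ?_, ?_⟩
    · rw [hi]
      simp only [Pi.add_apply, Pi.smul_apply, smul_eq_mul, hζb, mul_zero, add_zero]
      rw [h' μ hμ, h1, h2]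
      field_simp
      ring
    · simp [h1, ha]
    · simp [hg]
  have hcb : ∀ μ ∈ FX.van Λ {b}, μ c = -(p / q) * μ a := by
    intro μ hμ
    have h1 : μ b = 0 := hμ.2 b rfl
    rw [h' μ hμ.1] at h1
    field_simp
    linarith
  have hζm : ζ ∈ FX.van Λ {b} := ⟨hζ, fun i hi => by rw [hi]; exact hζb⟩
  have key : ∃ κ : ℝ, 0 < κ ∧ ∀ μ ∈ FX.van Λ {b}, μ g' = κ * μ g := by
    obtain ⟨μ1, hμ1, h11, h12⟩ := hag 1 0
    rcases planeQ4 (hH.van {b}) (by omega) hag a c g g' hag.nl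
      (nl_of hμ1 (by rw [hcb μ1 hμ1, h11]; simp [hp.ne', hq.ne'])) hag.symm.nl
      (nl_of hζm (by rw [hζ']; exact hξ)) (fun μ _ h1 _ => h1)
      (fun μ hμ h1 _ => by rw [hcb μ hμ, h1, mul_zero]) (fun μ _ _ h2 => h2)
      (fun μ hμ h1 h2 => by
        rw [hg' μ hμ.1 h1 (by rw [hcb μ hμ, h1, mul_zero]), h2, mul_zero])
      with h5 | h5 | h5 | h5 | h5 | h5
    · obtain ⟨κ, hκ, h6⟩ := h5
      have h7 := h6 μ1 hμ1
      rw [hcb μ1 hμ1, h11] at h7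
      have := div_pos hp hq
      linarith
    · obtain ⟨κ, hκ, h6⟩ := h5
      have h7 := h6 ζ hζm
      rw [hg, ha] at h7
      simp at h7
    · obtain ⟨κ, hκ, h6⟩ := h5
      have h7 := h6 ζ hζm
      rw [hζ', ha] at h7
      simp [hξ] at h7
    · obtain ⟨κ, hκ, h6⟩ := h5
      have h7 := h6 ζ hζm
      rw [hg, hc] at h7
      simp at h7
    · obtain ⟨κ, hκ, h6⟩ := h5
      have h7 := h6 ζ hζm
      rw [hζ', hc] at h7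
      simp [hξ] at h7
    · exact h5
  obtain ⟨κ, hκ, hκ'⟩ := key
  have hκξ : κ = ξ := by
    have := hκ' ζ hζm
    rw [hζ', hg, mul_one] at this
    exact this.symm
  subst hκξ
  obtain ⟨s, hs⟩ : ∃ s : ℝ, ∀ μ ∈ Λ, μ g' = κ * μ g + s * μ b := by
    refine ⟨β g' - κ * β g, fun μ hμ => ?_⟩
    have h1 := hκ' _ (adj hβ hβb hμ)
    simp only [Pi.sub_apply, Pi.smul_apply, smul_eq_mul] at h1
    linarith
  rcases lt_trichotomy s 0 with h5 | h5 | h5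
  · -- contract `g`
    exfalso
    have h6 := finrank_van' hζ hg
    refine (h.mono (FX.van_le Λ {g}) (h.idp.van hζ ha hc hg)).anti (hH.van {g}) (by omega) h5
      (w := g') fun μ hμ => ?_
    rw [hs μ hμ.1, hμ.2 g rfl, mul_zero, zero_add]
  · exact ⟨κ, hκ, fun μ hμ => by rw [hs μ hμ, h5, zero_mul, add_zero]⟩
  · -- contract `g'`
    exfalso
    have hζ2 : κ⁻¹ • ζ ∈ Λ := Λ.smul_mem _ hζ
    have hw2 : (κ⁻¹ • ζ) g' = 1 := by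
      simp only [Pi.smul_apply, smul_eq_mul, hζ']
      exact inv_mul_cancel₀ hκ.ne'
    have h6 := finrank_van' hζ2 hw2
    refine (h.mono (FX.van_le Λ {g'}) (h.idp.van hζ2 (by simp [ha]) (by simp [hc]) hw2)).anti
      (hH.van {g'}) (by omega) (δ := -(s / κ)) (neg_neg_of_pos (div_pos h5 hκ)) (w := g)
      fun μ hμ => ?_
    have h7 := hs μ hμ.1
    rw [hμ.2 g' rfl] at h7
    field_simp
    linarith

end Pool.Agent.FX
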