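import Pool.Agent.Lib_helper67.FX.Basic

/-!
The products of the elements of a space of dimension `j` span a space of dimension at most
`j (j + 1) / 2`.
-/

set_option autoImplicit false
set_option linter.unusedSectionVars false

namespace Pool.Agent.FX

open scoped BigOperators Topology
open Module Filter

variable {ι : Type*} [Fintype ι]

lemma quad (Λ : Submodule ℝ (ι → ℝ)) (R : Finset ι)
    (h : ∀ a ∈ R, ∃ ν ∈ Λ, ∃ ν' ∈ Λ, ν a ≠ 0 ∧ ν' a ≠ 0 ∧ ∀ i ∈ R, i ≠ a → ν i * ν' i = 0) :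
    R.card ≤ (finrank ℝ Λ + 1).choose 2 := by
  classical
  let b := finBasis ℝ Λ
  let F : Sym2 (Fin (finrank ℝ Λ)) → (R → ℝ) :=
    Sym2.lift ⟨fun k l x => (b k : ι → ℝ) x * (b l : ι → ℝ) x,
      fun k l => by funext x; exact mul_comm _ _⟩
  have hF : ∀ k l, ∀ x : R, F s(k, l) x = (b k : ι → ℝ) x * (b l : ι → ℝ) x := fun k l x => rfl
  have hW : ∀ ν ∈ Λ, ∀ ν' ∈ Λ, (fun x : R => ν x * ν' x) ∈ Submodule.span ℝ (Set.range F) := by
    intro ν hν ν' hν'
    have e1 : ∀ x : ι, ν x = ∑ k, b.repr ⟨ν, hν⟩ k * (b k : ι → ℝ) x := by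
      intro x
      have h1 := congrArg (fun u : Λ => (u : ι → ℝ) x) (b.sum_repr ⟨ν, hν⟩)
      simp only [Submodule.coe_sum, Submodule.coe_smul, Finset.sum_apply, Pi.smul_apply,
        smul_eq_mul] at h1
      exact h1.symm
    have e2 : ∀ x : ι, ν' x = ∑ k, b.repr ⟨ν', hν'⟩ k * (b k : ι → ℝ) x := by
      intro x
      have h1 := congrArg (fun u : Λ => (u : ι → ℝ) x) (b.sum_repr ⟨ν', hν'⟩)
      simp only [Submodule.coe_sum, Submodule.coe_smul, Finset.sum_apply, Pi.smul_apply,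
        smul_eq_mul] at h1
      exact h1.symm
    have e3 : (fun x : R => ν x * ν' x)
        = ∑ k, ∑ l, (b.repr ⟨ν, hν⟩ k * b.repr ⟨ν', hν'⟩ l) • F s(k, l) := by
      funext x
      rw [e1, e2, Finset.sum_mul_sum]
      simp only [Finset.sum_apply, Pi.smul_apply, hF, smul_eq_mul]
      refine Finset.sum_congr rfl fun k _ => Finset.sum_congr rfl fun l _ => ?_
      ring
    rw [e3]
    exact Submodule.sum_mem _ fun k _ => Submodule.sum_mem _ fun l _ =>
      Submodule.smul_mem _ _ (Submodule.subset_span ⟨_, rfl⟩)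
  have hsingle : ∀ a : R, (Pi.single a (1:ℝ) : R → ℝ) ∈ Submodule.span ℝ (Set.range F) := by
    intro a
    obtain ⟨ν, hν, ν', hν', h1, h2, h3⟩ := h a a.2
    have h4 : (Pi.single a (1:ℝ) : R → ℝ) = (ν a * ν' a)⁻¹ • (fun x : R => ν x * ν' x) := by
      funext x
      by_cases hx : x = a
      · subst hx
        simp only [Pi.single_eq_same, Pi.smul_apply, smul_eq_mul]
        rw [inv_mul_cancel₀ (mul_ne_zero h1 h2)]
      · have h5 : (x : ι) ≠ a := fun h => hx (Subtype.ext h)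
        simp [hx, h3 x x.2 h5]
    rw [h4]
    exact Submodule.smul_mem _ _ (hW ν hν ν' hν')
  have htop : Submodule.span ℝ (Set.range F) = ⊤ := by
    rw [eq_top_iff]
    intro v _
    have h5 : v = ∑ a, v a • (Pi.single a (1:ℝ) : R → ℝ) := by
      funext x
      simp [Finset.sum_apply, Pi.single_apply]
    rw [h5]
    exact Submodule.sum_mem _ fun a _ => Submodule.smul_mem _ _ (hsingle a)
  have h6 : finrank ℝ (Submodule.span ℝ (Set.range F)) ≤ Fintype.card (Sym2 (Fin (finrank ℝ Λ))) :=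
    finrank_range_le_card F
  rw [htop, finrank_top, finrank_fintype_fun_eq_card, Sym2.card, Fintype.card_fin,
    Fintype.card_coe] at h6
  exact h6

end Pool.Agent.FX
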