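import Pool.Agent.Lib_helper67.FX.Cases

/-!
Rays: coordinates which are positive multiples of each other.
-/

set_option autoImplicit false
set_option linter.unusedSectionVars false

namespace Pool.Agent.FX

open scoped BigOperators Topology
open Module Filter Pool.Agent

variable {ι : Type*} [Fintype ι]

/-- on `Λ` the coordinate `k` is a positive multiple of the coordinate `i` -/
def Ray (Λ : Submodule ℝ (ι → ℝ)) (i k : ι) : Prop := ∃ c : ℝ, 0 < c ∧ ∀ μ ∈ Λ, μ k = c * μ i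

/-- three values with sum zero -/
lemma sum_three (k : Fin 3) : ∑ k' : Fin 3, (if k' = k then (-2 : ℝ) else 1) = 0 := by
  have h : ∀ k' : Fin 3, (if k' = k then (-2 : ℝ) else 1) = 1 + (if k' = k then (-3 : ℝ) else 0) := by
    intro k'
    split_ifs <;> norm_num
  simp only [h, Finset.sum_add_distrib, Finset.sum_ite_eq', Finset.mem_univ, if_true,
    Finset.sum_const, Finset.card_univ, Fintype.card_fin]
  norm_num

lemma Ray.refl (Λ : Submodule ℝ (ι → ℝ)) (i : ι) : Ray Λ i i :=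
  ⟨1, one_pos, fun μ _ => (one_mul _).symm⟩

lemma Ray.symm {Λ : Submodule ℝ (ι → ℝ)} {i k : ι} (h : Ray Λ i k) : Ray Λ k i := by
  obtain ⟨c, hc, h⟩ := h
  refine ⟨c⁻¹, inv_pos.mpr hc, fun μ hμ => ?_⟩
  rw [h μ hμ, inv_mul_cancel_left₀ hc.ne']

lemma Ray.trans {Λ : Submodule ℝ (ι → ℝ)} {i k m : ι} (h : Ray Λ i k) (h' : Ray Λ k m) :
    Ray Λ i m := by
  obtain ⟨c, hc, h⟩ := h
  obtain ⟨c', hc', h'⟩ := h'
  exact ⟨c' * c, mul_pos hc' hc, fun μ hμ => by rw [h' μ hμ, h μ hμ, mul_assoc]⟩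

/-- elements of distinct rays -/
def Ind (Λ : Submodule ℝ (ι → ℝ)) (R : Finset ι) : Prop :=
  (∀ a ∈ R, ¬ Loop Λ a) ∧ ∀ a ∈ R, ∀ b ∈ R, a ≠ b → ¬ Ray Λ a b

lemma Ind.mono {Λ : Submodule ℝ (ι → ℝ)} {R R' : Finset ι} (h : Ind Λ R) (hs : R' ⊆ R) :
    Ind Λ R' := ⟨fun a ha => h.1 a (hs ha), fun a ha b hb => h.2 a (hs ha) b (hs hb)⟩

/-- no good section of dimension three or more -/
structure Hyp (Λ : Submodule ℝ (ι → ℝ)) : Prop where
  ac : Acyc Λ
  ng : ∀ Z, 3 ≤ finrank ℝ (van Λ Z) → ¬ Good (van Λ Z)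

lemma Hyp.van {Λ : Submodule ℝ (ι → ℝ)} (h : Hyp Λ) (Z : Set ι) : Hyp (van Λ Z) :=
  ⟨h.ac.mono (van_le _ _), fun Z' => by rw [van_van]; exact h.ng _⟩

/-- a threshold -/
lemma split (T : Finset ℝ) (p q : ℕ) (hp : 1 ≤ p) (hq : 1 ≤ q) (h : p + q ≤ T.card) :
    ∃ θ : ℝ, p ≤ (T.filter (fun y => θ < y)).card ∧ q ≤ (T.filter (fun y => y < θ)).card := by
  let e := T.orderEmbOfFin rfl
  have h1 : q - 1 < T.card := by omega
  have h2 : q < T.card := by omega
  have h3 : e ⟨q - 1, h1⟩ < e ⟨q, h2⟩ := e.strictMono (by rw [Fin.mk_lt_mk]; omega)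
  refine ⟨(e ⟨q - 1, h1⟩ + e ⟨q, h2⟩) / 2, ?_, ?_⟩
  · have h4 := Finset.card_le_card_of_injOn (s := (Finset.univ : Finset (Fin p)))
      (t := T.filter (fun y => (e ⟨q - 1, h1⟩ + e ⟨q, h2⟩) / 2 < y))
      (fun i => e ⟨q + i, by have := i.2; omega⟩) ?_ ?_
    · simpa using h4
    · intro i _
      rw [Finset.mem_coe, Finset.mem_filter]
      refine ⟨Finset.orderEmbOfFin_mem T rfl _, ?_⟩
      have h5 : e ⟨q, h2⟩ ≤ e ⟨q + i, by have := i.2; omega⟩ :=
        e.monotone (by rw [Fin.mk_le_mk]; omega)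
      linarith
    · intro i _ k _ hik
      have h5 := e.injective hik
      rw [Fin.mk.injEq] at h5
      exact Fin.ext (by omega)
  · have h4 := Finset.card_le_card_of_injOn (s := (Finset.univ : Finset (Fin q)))
      (t := T.filter (fun y => y < (e ⟨q - 1, h1⟩ + e ⟨q, h2⟩) / 2))
      (fun i => e ⟨i, by have := i.2; omega⟩) ?_ ?_
    · simpa using h4
    · intro i _
      rw [Finset.mem_coe, Finset.mem_filter]
      refine ⟨Finset.orderEmbOfFin_mem T rfl _, ?_⟩
      have h5 : e ⟨i, by have := i.2; omega⟩ ≤ e ⟨q - 1, h1⟩ :=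
        e.monotone (by rw [Fin.mk_le_mk]; have := i.2; omega)
      linarith
    · intro i _ k _ hik
      have h5 := e.injective hik
      rw [Fin.mk.injEq] at h5
      exact Fin.ext h5

/-- a two dimensional subspace of `Λ` with all coordinates on three rays -/
structure Tripod (Λ : Submodule ℝ (ι → ℝ)) (σ : ι → Fin 3) (t ν : ι → ℝ) : Prop where
  t0 : ∀ i, 0 ≤ t i
  mem : ∀ x : Fin 3 → ℝ, ∑ k, x k = 0 → (fun i => x (σ i) * t i) ∈ Λ
  ne : ∀ k, ∃ i, σ i = k ∧ 0 < t i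
  nu : ν ∈ Λ
  sp : ∀ μ ∈ Λ, ∃ x : Fin 3 → ℝ, ∃ s : ℝ, ∑ k, x k = 0 ∧ ∀ i, μ i = x (σ i) * t i + s * ν i

lemma exists_tripod {Λ : Submodule ℝ (ι → ℝ)} (hA : Acyc Λ) (h3 : finrank ℝ Λ = 3)
    (hT : ¬ TF 2 Λ) : ∃ σ t ν, Tripod Λ σ t ν := by
  unfold TF at hT
  push Not at hT
  obtain ⟨σ', t, ht, hj, i0, hi0⟩ := hT
  let σ : ι → Fin 3 := fun i => (σ' i).elim 0 Fin.succ
  have hmem : ∀ x : Fin 3 → ℝ, ∑ k, x k = 0 → (fun i => x (σ i) * t i) ∈ Λ := by
    intro x hx
    rw [Fin.sum_univ_three] at hx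
    have h1 : (fun i => x (σ i) * t i)
        = x 1 • (fun i => (if σ' i = some 0 then t i else 0) - (if σ' i = none then t i else 0))
        + x 2 • (fun i => (if σ' i = some 1 then t i else 0)
          - (if σ' i = none then t i else 0)) := by
      funext i
      simp only [Pi.add_apply, Pi.smul_apply, smul_eq_mul, σ]
      rcases h : σ' i with _ | j
      · simp only [Option.elim_none]
        simp only [reduceCtorEq, if_false, if_true]
        linear_combination t i * hx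
      · simp only [Option.elim_some, reduceCtorEq, if_false, Option.some.injEq]
        fin_cases j
        · simp
        · simp
    rw [h1]
    exact Λ.add_mem (Λ.smul_mem _ (hj 0)) (Λ.smul_mem _ (hj 1))
  have hne : ∀ k, ∃ i, σ i = k ∧ 0 < t i := by
    intro k
    by_contra hno
    push Not at hno
    have h1 : ∑ k', (fun k' : Fin 3 => if k' = k then (-2 : ℝ) else 1) k' = 0 := by
      exact sum_three k
    have h2 := hA _ (hmem _ h1) fun i => by
      by_cases h3 : σ i = k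
      · have h4 : t i = 0 := le_antisymm (hno i h3) (ht i)
        simp [h4]
      · simp only [h3, if_false, one_mul]
        exact ht i
    have h5 := congrFun h2 i0
    simp only [Pi.zero_apply] at h5
    split_ifs at h5 <;> apply hi0 <;> linarith
  obtain ⟨p, hp1, hp⟩ := hne 1
  obtain ⟨q, hq1, hq⟩ := hne 2
  have hs1 : ∑ k, (![-1, 1, 0] : Fin 3 → ℝ) k = 0 := by simp [Fin.sum_univ_three]
  have hs2 : ∑ k, (![-1, 0, 1] : Fin 3 → ℝ) k = 0 := by simp [Fin.sum_univ_three]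
  have hlp : ¬ Loop Λ p := by
    intro h
    have := h _ (hmem _ hs1)
    simp only [hp1, Matrix.cons_val_one, Matrix.cons_val_zero, one_mul] at this
    exact hp.ne' this
  have hlq : ¬ Loop (van Λ {p}) q := by
    intro h
    have := h _ ⟨hmem _ hs2, fun i hi => by rw [hi]; simp [hp1]⟩
    simp only [hq1, Matrix.cons_val, one_mul] at this
    exact hq.ne' this
  have h4 := finrank_van hlp
  have h5 := finrank_van hlq
  have h6 : finrank ℝ (van (van Λ {p}) {q}) = 1 := by omega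
  obtain ⟨⟨ν, hν⟩, _, hsp⟩ := finrank_eq_one_iff'.mp h6
  refine ⟨σ, t, ν, ht, hmem, hne, hν.1.1, fun μ hμ => ?_⟩
  let x : Fin 3 → ℝ := ![-(μ p / t p) - μ q / t q, μ p / t p, μ q / t q]
  have hx : ∑ k, x k = 0 := by
    rw [Fin.sum_univ_three]
    simp only [x, Matrix.cons_val_zero, Matrix.cons_val_one, Matrix.cons_val]
    ring
  have h7 : μ - (fun i => x (σ i) * t i) ∈ van (van Λ {p}) {q} := by
    refine ⟨⟨Λ.sub_mem hμ (hmem x hx), fun i hi => ?_⟩, fun i hi => ?_⟩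
    · rw [hi]
      simp only [Pi.sub_apply, hp1, x, Matrix.cons_val_one, Matrix.cons_val_zero]
      rw [div_mul_cancel₀ _ hp.ne', sub_self]
    · rw [hi]
      simp only [Pi.sub_apply, hq1, x, Matrix.cons_val]
      rw [div_mul_cancel₀ _ hq.ne', sub_self]
  obtain ⟨s, hs⟩ := hsp ⟨_, h7⟩
  refine ⟨x, s, hx, fun i => ?_⟩
  have h8 := congrFun (congrArg Subtype.val hs) i
  simp only [Submodule.coe_smul, Pi.smul_apply, smul_eq_mul, Pi.sub_apply] at h8
  linarith

end Pool.Agent.FX
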