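import Pool.Agent.Lib_helper67.FX.Quad
import Pool.Agent.Lib_helper86.KL.Abs

/-!
Tverberg partitions in the language of dependencies, and the passage to representatives of the
parallel classes.
-/

set_option autoImplicit false
set_option linter.unusedSectionVars false

namespace Pool.Agent.FX

open scoped BigOperators Topology
open Module Filter Pool.Agent

variable {ι : Type*} [Fintype ι]

/-- no `r + 1` disjoint classes with a common positive combination, `Λ` the dependencies -/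
def TF (r : ℕ) (Λ : Submodule ℝ (ι → ℝ)) : Prop :=
  ∀ σ : ι → Option (Fin r), ∀ t : ι → ℝ, (∀ i, 0 ≤ t i) →
    (∀ j : Fin r, (fun i => (if σ i = some j then t i else 0) - (if σ i = none then t i else 0))
      ∈ Λ) → ∀ i, t i = 0

lemma TF.mono {r : ℕ} {Λ Λ' : Submodule ℝ (ι → ℝ)} (h : TF r Λ) (hl : Λ' ≤ Λ) : TF r Λ' :=
  fun σ t ht hj => h σ t ht fun j => hl (hj j)

lemma TF.acyc {r : ℕ} {Λ : Submodule ℝ (ι → ℝ)} (hr : 1 ≤ r) (h : TF r Λ) : Acyc Λ := by
  intro μ hμ h0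
  funext i
  refine h (fun _ => some ⟨0, hr⟩) μ h0 (fun j => ?_) i
  by_cases hj : j = ⟨0, hr⟩
  · subst hj
    simpa using hμ
  · have : (fun i : ι => (if some (⟨0, hr⟩ : Fin r) = some j then μ i else 0)
        - (if some (⟨0, hr⟩ : Fin r) = none then μ i else 0)) = 0 := by
      funext i
      have h1 : some (⟨0, hr⟩ : Fin r) ≠ some j := fun h => hj (Option.some_injective _ h).symm
      simp [h1]
    rw [this]
    exact Λ.zero_mem

open Classical in
/-- the vectors with dependencies `Λ` -/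
noncomputable def vec (Λ : Submodule ℝ (ι → ℝ)) (i : ι) : (ι → ℝ) ⧸ Λ :=
  Λ.mkQ (Pi.single i 1)

lemma sum_vec (Λ : Submodule ℝ (ι → ℝ)) (c : ι → ℝ) : ∑ i, c i • vec Λ i = Λ.mkQ c := by
  classical
  have h : c = ∑ i, c i • (Pi.single i (1:ℝ) : ι → ℝ) := by
    funext x
    simp [Finset.sum_apply, Pi.single_apply]
  conv_rhs => rw [h]
  rw [map_sum]
  refine Finset.sum_congr rfl fun i _ => ?_
  rw [map_smul]
  unfold vec
  congr!

lemma TF.tfree {r : ℕ} {Λ : Submodule ℝ (ι → ℝ)} (h : TF r Λ) : KL.TFree r (vec Λ) := by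
  intro σ t ht hj
  refine h σ t ht fun j => ?_
  have h1 := hj j
  rw [sum_vec, sum_vec, Submodule.mkQ_apply, Submodule.mkQ_apply, Submodule.Quotient.eq] at h1
  exact h1

lemma finrank_quot (Λ : Submodule ℝ (ι → ℝ)) :
    finrank ℝ ((ι → ℝ) ⧸ Λ) + finrank ℝ Λ = Fintype.card ι := by
  rw [Submodule.finrank_quotient_add_finrank, finrank_fintype_fun_eq_card]

/-- Tverberg's bound -/
lemma TF.card_le {r : ℕ} {Λ : Submodule ℝ (ι → ℝ)} (h : TF r Λ) :
    Fintype.card ι + r * finrank ℝ Λ ≤ r * Fintype.card ι := by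
  have h1 := h.tfree.card_le
  have h2 := finrank_quot Λ
  calc Fintype.card ι + r * finrank ℝ Λ
      ≤ r * finrank ℝ ((ι → ℝ) ⧸ Λ) + r * finrank ℝ Λ := by omega
    _ = r * Fintype.card ι := by rw [← mul_add, h2]

lemma sum_cls {M : Type*} [AddCommMonoid M] {r : ℕ} (ε : ι → Fin r) (j : Fin r) (g : ι → M) :
    ∑ i : {i // ε i = j}, g i.1 = ∑ i, if ε i = j then g i else 0 := by
  classical
  rw [← Finset.sum_filter]
  exact (Finset.sum_subtype (Finset.univ.filter fun i => ε i = j) (by simp) g).symm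

/-- the tight case -/
lemma TF.good {Λ : Submodule ℝ (ι → ℝ)} (h : TF 2 Λ)
    (hc : Fintype.card ι = 2 * finrank ℝ Λ) : Good Λ := by
  classical
  have h2 := finrank_quot Λ
  obtain ⟨ε, _, hlin, _, z, a, ha, hz⟩ := KL.core (by norm_num : 0 < 2) h.tfree (by omega)
  have hzj : ∀ j, Λ.mkQ (fun i => if ε i = j then a i else 0) = z := by
    intro j
    rw [← hz j, ← sum_vec, sum_cls ε j (fun i => a i • vec Λ i)]
    exact Finset.sum_congr rfl fun i _ => by split_ifs <;> simp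
  have hind : ∀ j, ∀ μ ∈ Λ, (∀ i, ε i ≠ j → μ i = 0) → μ = 0 := by
    intro j μ hμ h0
    have h3 : ∑ i : {i // ε i = j}, μ i.1 • vec Λ i.1 = 0 := by
      rw [sum_cls ε j (fun i => μ i • vec Λ i)]
      have h4 : ∀ i, (if ε i = j then μ i • vec Λ i else 0) = μ i • vec Λ i := by
        intro i
        split_ifs with h5
        · rfl
        · rw [h0 i h5, zero_smul]
      simp only [h4]
      rw [sum_vec, Submodule.mkQ_apply, Submodule.Quotient.mk_eq_zero]
      exact hμ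
    have h6 := Fintype.linearIndependent_iff.mp (hlin j) (fun i => μ i.1) h3
    funext i
    by_cases h7 : ε i = j
    · exact h6 ⟨i, h7⟩
    · exact h0 i h7
  refine ⟨fun i => (if ε i = 0 then a i else 0) - (if ε i = 1 then a i else 0), ?_, ?_, ?_⟩
  · have h3 := (hzj 0).trans (hzj 1).symm
    rw [Submodule.mkQ_apply, Submodule.mkQ_apply, Submodule.Quotient.eq] at h3
    exact h3
  · intro μ hμ h0
    refine hind 1 μ hμ fun i hi => h0 i ?_
    have h4 : ε i = 0 := by
      have := (ε i).2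
      apply Fin.ext
      have h5 : (ε i : ℕ) ≠ 1 := fun h => hi (Fin.ext h)
      simp only [Fin.val_zero]
      omega
    simp [h4, ha i]
  · intro μ hμ h0
    refine hind 0 μ hμ fun i hi => h0 i ?_
    have h4 : ε i = 1 := by
      have := (ε i).2
      apply Fin.ext
      have h5 : (ε i : ℕ) ≠ 0 := fun h => hi (Fin.ext h)
      simp only [Fin.val_one]
      omega
    simp [h4, ha i]

/-! ### Representatives -/

/-- representatives of the parallel classes -/
structure Rep (Λ : Submodule ℝ (ι → ℝ)) (R : Finset ι) : Prop where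
  nl : ∀ a ∈ R, ¬ Loop Λ a
  np : ∀ a ∈ R, ∀ b ∈ R, a ≠ b → ¬ Par Λ a b
  cov : ∀ i, ¬ Loop Λ i → ∃ a ∈ R, Par Λ a i

lemma exists_rep (Λ : Submodule ℝ (ι → ℝ)) : ∃ R, Rep Λ R := by
  classical
  let P : Finset ι → Prop := fun R => (∀ a ∈ R, ¬ Loop Λ a) ∧
    ∀ a ∈ R, ∀ b ∈ R, a ≠ b → ¬ Par Λ a b
  obtain ⟨R, hR, hmax⟩ := Finset.exists_max_image (Finset.univ.filter P) Finset.card
    ⟨∅, by simp [P]⟩
  have hP : P R := (Finset.mem_filter.mp hR).2
  refine ⟨R, hP.1, hP.2, fun i hi => ?_⟩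
  by_contra hno
  push Not at hno
  have hiR : i ∉ R := fun h => hno i h fun μ _ h0 => h0
  have h1 : P (insert i R) := by
    constructor
    · intro a ha
      rcases Finset.mem_insert.mp ha with rfl | h
      · exact hi
      · exact hP.1 a h
    · intro a ha b hb hab
      rcases Finset.mem_insert.mp ha with rfl | ha'
      · rcases Finset.mem_insert.mp hb with rfl | hb'
        · exact absurd rfl hab
        · intro h
          exact hno b hb' (par_symm (hP.1 b hb') hi h)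
      · rcases Finset.mem_insert.mp hb with rfl | hb'
        · exact hno a ha'
        · exact hP.2 a ha' b hb' hab
  have h2 := hmax _ (Finset.mem_filter.mpr ⟨Finset.mem_univ _, h1⟩)
  rw [Finset.card_insert_of_notMem hiR] at h2
  omega

/-- parallel coordinates have nonnegative ratios -/
def Pos (Λ : Submodule ℝ (ι → ℝ)) : Prop :=
  ∀ a, ∀ μ₀ ∈ Λ, μ₀ a = 1 → ∀ i, Par Λ a i → 0 ≤ μ₀ i

/-- restriction to `R` -/
noncomputable def rst (R : Finset ι) : (ι → ℝ) →ₗ[ℝ] ({x // x ∈ R} → ℝ) :=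
  LinearMap.funLeft ℝ ℝ (fun x : {x // x ∈ R} => (x : ι))

@[simp] lemma rst_apply (R : Finset ι) (μ : ι → ℝ) (x : {x // x ∈ R}) : rst R μ x = μ x := rfl

lemma exists_coeff {Λ : Submodule ℝ (ι → ℝ)} {R : Finset ι} (hR : Rep Λ R) (hP : Pos Λ) (i : ι) :
    ∃ (k : ι) (c : ℝ), 0 ≤ c ∧ (∀ μ ∈ Λ, μ i = c * μ k) ∧ (k ∈ R ∨ c = 0) ∧
      (i ∈ R → k = i ∧ c = 1) ∧ (¬ Loop Λ i → 0 < c) := by
  by_cases hiR : i ∈ R
  · exact ⟨i, 1, zero_le_one, fun μ _ => (one_mul _).symm, Or.inl hiR, fun _ => ⟨rfl, rfl⟩,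
      fun _ => one_pos⟩
  · by_cases hi : Loop Λ i
    · exact ⟨i, 0, le_rfl, fun μ hμ => by rw [hi μ hμ, zero_mul], Or.inr rfl,
        fun h => absurd h hiR, fun h => absurd hi h⟩
    · obtain ⟨a, ha, hai⟩ := hR.cov i hi
      obtain ⟨μ₀, hμ₀, h1⟩ := exists_one (hR.nl a ha)
      have h2 := hP a μ₀ hμ₀ h1 i hai
      refine ⟨a, μ₀ i, h2, fun μ hμ => par_coeff hμ₀ h1 hai hμ, Or.inl ha,
        fun h => absurd h hiR, fun _ => lt_of_le_of_ne h2 fun h3 => hi fun μ hμ => ?_⟩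
      rw [par_coeff hμ₀ h1 hai hμ, ← h3, zero_mul]

lemma rst_inj {Λ : Submodule ℝ (ι → ℝ)} {R : Finset ι} (hR : Rep Λ R) {μ : ι → ℝ} (hμ : μ ∈ Λ)
    (h : rst R μ = 0) : μ = 0 := by
  funext i
  by_cases hi : Loop Λ i
  · exact hi μ hμ
  · obtain ⟨a, ha, hai⟩ := hR.cov i hi
    exact hai μ hμ (congrFun h ⟨a, ha⟩)

lemma finrank_rst {Λ : Submodule ℝ (ι → ℝ)} {R : Finset ι} (hR : Rep Λ R) :
    finrank ℝ (Λ.map (rst R)) = finrank ℝ Λ := by
  rw [← LinearMap.range_domRestrict]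
  apply LinearMap.finrank_range_of_inj
  rw [← LinearMap.ker_eq_bot, LinearMap.ker_eq_bot']
  intro μ h
  exact Subtype.ext (rst_inj hR μ.2 h)

lemma TF.rst {r : ℕ} {Λ : Submodule ℝ (ι → ℝ)} {R : Finset ι} (h : TF r Λ) (hR : Rep Λ R)
    (hP : Pos Λ) : TF r (Λ.map (rst R)) := by
  classical
  choose k c hc0 hc hk hkR hcp using fun i => exists_coeff hR hP i
  intro σ t ht hj a
  let σ' : ι → Option (Fin r) := fun i => if h : k i ∈ R then σ ⟨k i, h⟩ else none
  let t' : ι → ℝ := fun i => if h : k i ∈ R then c i * t ⟨k i, h⟩ else 0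
  have h1 : ∀ i, t' i = 0 := by
    refine h σ' t' (fun i => ?_) fun j => ?_
    · simp only [t']
      split_ifs with h
      · exact mul_nonneg (hc0 i) (ht _)
      · exact le_rfl
    · obtain ⟨μ, hμ, hμj⟩ := hj j
      have h2 : (fun i => (if σ' i = some j then t' i else 0) - (if σ' i = none then t' i else 0))
          = μ := by
        funext i
        rw [hc i μ hμ]
        by_cases h3 : k i ∈ R
        · have h4 := congrFun hμj ⟨k i, h3⟩
          simp only [rst_apply] at h4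
          rw [h4]
          simp only [σ', t', dif_pos h3]
          rw [mul_sub]
          split_ifs <;> simp
        · have h4 : c i = 0 := (hk i).resolve_left h3
          simp [t', dif_neg h3, h4]
      rw [h2]
      exact hμ
  have h2 := h1 a
  obtain ⟨h3, h4⟩ := hkR a a.2
  have h5 : k a ∈ R := by rw [h3]; exact a.2
  simp only [t', dif_pos h5, h4, one_mul] at h2
  have h6 : (⟨k a, h5⟩ : {x // x ∈ R}) = a := Subtype.ext h3
  rwa [h6] at h2

lemma Good.of_rst {Λ : Submodule ℝ (ι → ℝ)} {R : Finset ι} (hR : Rep Λ R)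
    (h : Good (Λ.map (rst R))) : Good Λ := by
  obtain ⟨l, ⟨l', hl', rfl⟩, h1, h2⟩ := h
  refine ⟨l', hl', fun μ hμ h0 => rst_inj hR hμ (h1 _ ⟨μ, hμ, rfl⟩ fun x hx => h0 x hx),
    fun μ hμ h0 => rst_inj hR hμ (h2 _ ⟨μ, hμ, rfl⟩ fun x hx => h0 x hx)⟩

end Pool.Agent.FX
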